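import Pool.Agent.Helper42.TH.LvEx
import Pool.Agent.Helper38.WY.Goals9

/-!
# Project TH (MP_fc6b1e_nt, T100), class level: the statements of the arithmetic part (helper11)

`ALev` in the three cases.
-/

set_option autoImplicit false

namespace Pool.Agent.Helper42.TH

open NumberField Polynomial Module IsDedekindDomain
open Pool.Agent.Helper51.RP Pool.Agent.Helper42.RD Pool.Agent.Helper42.PP Pool.Agent.Helper42.PP1
open Pool.Agent.Helper42.PB Pool.Agent.Helper42.PW Pool.Agent.Helper11.PP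
open Pool.Agent.Helper38.WY
open Pool.Agent.Helper51.SigLeo (IwasawaLog)
open Pool.Agent.Helper11.R (NTV2)

/-- **AL_GEN**: the general case (`χ₀ ≠ 1`, no `χ₀^(1 + p^j)` is congruent to `ω`). -/
def AL_GEN : Prop :=
  ∀ (p : ℕ) [Fact p.Prime] (_ : IwasawaLog p ℂ_[p]) (K M K₁ M₁ : Type) [Field K]
    [NumberField K] [IsTotallyComplex K] [Field M] [NumberField M] [Field K₁] [NumberField K₁]
    [Field M₁] [NumberField M₁] [Algebra K M] [Algebra K K₁] [Algebra K M₁] [Algebra M M₁]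
    [Algebra K₁ M₁] (J M₂ : ℕ → Type) [∀ l, Field (J l)] [∀ l, NumberField (J l)]
    [∀ l, Field (M₂ l)] [∀ l, NumberField (M₂ l)] [∀ l, Algebra K (J l)] [∀ l, Algebra K (M₂ l)]
    [∀ l, Algebra M (M₂ l)] [∀ l, Algebra K₁ (M₂ l)] [∀ l, Algebra M₁ (M₂ l)]
    [∀ l, Algebra (J l) (M₂ l)] (ε : K₁) (δ : M ≃ₐ[K] M) (P : (ZMod p)[X])
    [Fact (Irreducible P)] [Fintype (AdjoinRoot P)] (a₀ : ∀ l, (M₂ l)ˣ),
    (∀ l, SitB p K M K₁ M₁ (J l) (M₂ l) ε δ P (a₀ l)) → NTV2 p M₁ ε δ P →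
  ∀ (m : ℕ) (ζ : ℂ_[p]) (Φ : ℤ_[p][X]), PhiData p m ζ Φ P → finrank K M = m → TorOK P δ →
  ∀ T : Set (K →+* ℂ_[p]), PlaceClosed T → finrank ℚ K = 2 * T.ncard →
  ALev p K M K₁ M₁ ε δ P M₂ a₀ T (1 / ((p : ℝ) ^ P.natDegree - 1))

/-- **AL_SD**: the self-dual case (`j = 0`) and the unitary case. -/
def AL_SD : Prop :=
  ∀ (p : ℕ) [Fact p.Prime] (_ : IwasawaLog p ℂ_[p]) (K M K₁ M₁ : Type) [Field K]
    [NumberField K] [IsTotallyComplex K] [Field M] [NumberField M] [Field K₁] [NumberField K₁]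
    [Field M₁] [NumberField M₁] [Algebra K M] [Algebra K K₁] [Algebra K M₁] [Algebra M M₁]
    [Algebra K₁ M₁] (J M₂ : ℕ → Type) [∀ l, Field (J l)] [∀ l, NumberField (J l)]
    [∀ l, Field (M₂ l)] [∀ l, NumberField (M₂ l)] [∀ l, Algebra K (J l)] [∀ l, Algebra K (M₂ l)]
    [∀ l, Algebra M (M₂ l)] [∀ l, Algebra K₁ (M₂ l)] [∀ l, Algebra M₁ (M₂ l)]
    [∀ l, Algebra (J l) (M₂ l)] (ε : K₁) (δ : M ≃ₐ[K] M) (P : (ZMod p)[X])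
    [Fact (Irreducible P)] [Fintype (AdjoinRoot P)] (a₀ : ∀ l, (M₂ l)ˣ),
    (∀ l, SitB p K M K₁ M₁ (J l) (M₂ l) ε δ P (a₀ l)) → NTV3 p M₁ ε δ P →
  ∀ j : ℕ, SDual p M₁ ε δ P j → (j = 0 ∨ P.natDegree = 2 * j) →
  ∀ (m : ℕ) (ζ : ℂ_[p]) (Φ : ℤ_[p][X]), PhiData p m ζ Φ P → finrank K M = m → TorOK P δ →
  ∀ T : Set (K →+* ℂ_[p]), PlaceClosed T → finrank ℚ K = 2 * T.ncard →
  ALev p K M K₁ M₁ ε δ P M₂ a₀ T ((p : ℝ) ^ j / ((p : ℝ) ^ P.natDegree - 1))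

/-- **AL_ONE**: the case `χ₀ = 1` (`ω ≠ 1`), levels with `[M₂ : K₁] ≥ 2`. -/
def AL_ONE : Prop :=
  ∀ (p : ℕ) [Fact p.Prime] (_ : IwasawaLog p ℂ_[p]) (K K₁ : Type) [Field K]
    [NumberField K] [IsTotallyComplex K] [Field K₁] [NumberField K₁] [Algebra K K₁]
    (J M₂ : ℕ → Type) [∀ l, Field (J l)] [∀ l, NumberField (J l)]
    [∀ l, Field (M₂ l)] [∀ l, NumberField (M₂ l)] [∀ l, Algebra K (J l)] [∀ l, Algebra K (M₂ l)]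
    [∀ l, Algebra K₁ (M₂ l)] [∀ l, Algebra (J l) (M₂ l)] (ε : K₁)
    [Fact (Irreducible (X - 1 : (ZMod p)[X]))] [Fintype (AdjoinRoot (X - 1 : (ZMod p)[X]))]
    (a₀ : ∀ l, (M₂ l)ˣ),
    (∀ l, SitB p K K K₁ K₁ (J l) (M₂ l) ε (1 : K ≃ₐ[K] K) (X - 1) (a₀ l)) →
    (¬ ∃ ξ : K, IsPrimitiveRoot ξ p) → (∀ l, 2 * finrank K K₁ ≤ finrank K (M₂ l)) →
  ∀ T : Set (K →+* ℂ_[p]), PlaceClosed T → Units.rank K + 1 ≤ T.ncard →
  ALev p K K K₁ K₁ ε (1 : K ≃ₐ[K] K) (X - 1) M₂ a₀ T (1 / ((p : ℝ) - 1))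

end Pool.Agent.Helper42.TH
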