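import Pool.Agent.Helper42.TH.LvEx
import Pool.Agent.Helper38.TH.Goals4
import Pool.Agent.Helper42.WY.SELO4

/-!
# Project TH (MP_fc6b1e_nt, T100), `χ₀ ≡ ω`: the statement of the arithmetic part (helper11)

`J_l ≠ K` for all the levels `l`, and the elements of `M` which become `p`-th powers in `M₂ l` are the same for all `l`. So
`Zt B (M₂ l)` does not depend on `l`, and the systems are `subS (sysB ..) W`, `W` a complement of `Zt`.
-/

set_option autoImplicit false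

namespace Pool.Agent.Helper42.TH

open NumberField Polynomial Module IsDedekindDomain
open Pool.Agent.Helper51.RP Pool.Agent.Helper42.RD Pool.Agent.Helper42.PP Pool.Agent.Helper42.PP1
open Pool.Agent.Helper42.PB Pool.Agent.Helper42.PW Pool.Agent.Helper11.PP
open Pool.Agent.Helper76.PB (NrmInd)
open Pool.Agent.Helper38.WY
open Pool.Agent.Helper51.SigLeo (IwasawaLog)
open Pool.Agent.Helper38.TH
open Pool.Agent.Helper11.M3 (OmS subS Zt)
open Pool.Agent.Helper42.WY (Pw2)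

open Classical in
/-- The conclusion of the arithmetic part for the levels `M₂ l`, `a₀ l` (`l ∈ ℕ`), `χ₀ ≡ ω` (compare `ALev`): for any
sequence `lv` of levels with finitely many values and any finite set `S₀` of primes there is one base `B` with `S₀ ⊆ B.S` and
one subspace `W` such that the systems `subS (sysB ..) W` of these levels satisfy `HypG4`, with the same `g`, and the lower
bound of Mertens for the primes which are not split. -/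
def ALevO (p : ℕ) [Fact p.Prime] (K M K₁ M₁ : Type) [Field K] [NumberField K] [Field M]
    [NumberField M] [Field K₁] [NumberField K₁] [Field M₁] [NumberField M₁] [Algebra K M]
    [Algebra K K₁] [Algebra K M₁] [Algebra M M₁] [Algebra K₁ M₁] (ε : K₁) (δ : M ≃ₐ[K] M)
    (P : (ZMod p)[X]) [Fact (Irreducible P)] [Fintype (AdjoinRoot P)]
    (M₂ : ℕ → Type) [∀ l, Field (M₂ l)] [∀ l, NumberField (M₂ l)]
    [∀ l, Algebra K (M₂ l)] [∀ l, Algebra M (M₂ l)] [∀ l, Algebra K₁ (M₂ l)]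
    [∀ l, Algebra M₁ (M₂ l)]
    (a₀ : ∀ l, (M₂ l)ˣ) (T : Set (K →+* ℂ_[p])) (θ : ℝ) : Prop :=
  ∀ lv : ℕ → ℕ, (Set.range lv).Finite → ∀ S₀ : Finset (HeightOneSpectrum (𝓞 K)),
  ∃ (B : Base p K M K₁ M₁ ε δ P) (D : ∀ i, BaseB B (a₀ (lv i))) (g : ℝ → ℝ) (K₀ : ℝ)
    (W : Submodule (AdjoinRoot P) (Fin B.r → AdjoinRoot P)),
    S₀ ⊆ B.S ∧ Slow g K₀ ∧ (∀ i, W ⊔ Zt B (M₂ (lv i)) = ⊤) ∧
    ∀ aτ : K₁ˣ, OmType p K ε (aτ : K₁) →
    ∃ (n : ℕ) (E : ∀ i, TauX n B (a₀ (lv i)) T aτ) (c X₁ : ℝ), 0 < c ∧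
      (∀ i, (∃ (ψ : AddChar (AdjoinRoot P) ℂ) (e : B.LP → AdjoinRoot P) (K' : ℕ),
        HypG4 (subS (sysB B (E i).toTauF (Spl (M₂ (lv i)) B.S) (D i).s0 aτ) W) ψ e
          (fun q => ¬ (subS (sysB B (E i).toTauF (Spl (M₂ (lv i)) B.S) (D i).s0 aτ) W).spl q)
          g K') ∧
        MerN (subS (sysB B (E i).toTauF (Spl (M₂ (lv i)) B.S) (D i).s0 aτ) W)
          (((p : ℝ) - 1) / finrank K (M₂ (lv i)))) ∧
      (Nat.card W / Fintype.card (Fin n → AdjoinRoot P) : ℝ) ≤ 1 ∧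
      (Nat.card W / Fintype.card (Fin n → AdjoinRoot P) : ℝ) *
        (1 / (Fintype.card (AdjoinRoot P) - 1)) ≤ θ ∧
      ∀ X : ℝ, X₁ ≤ X → ∃ Qf : Finset B.LP,
        c * (X * g X) ≤ ∑ b ∈ Qf.powerset with
            (sysB B (E 0).toTauF (Spl (M₂ (lv 0)) B.S) (D 0).s0 aτ).Fam b,
          Real.exp (-((sysB B (E 0).toTauF (Spl (M₂ (lv 0)) B.S) (D 0).s0 aτ).nm b / X))

/-- **AL_OMC**.

PROOF. `B`, `D i` from `w0_base` (`Pool/Agent/Helper11/TH/W0.lean`), `Nrml B`. `Zt B (M₂ l)` is the same for all `l` (definition of `Zt`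
and the fourth hypothesis); `W` a complement of it, `IsCompl W (Zt B (M₂ l))`. `n`, `E` from the fifth hypothesis. `ZK` for `(E i).toTauF`:
`Pool.Agent.Helper42.WY.zk_tau` (`Pool/Agent/Helper42/WY/MOM4.lean`). `HypG4`: `Hyp₄` as in `A_HYP4` (`N = NV B J M₂` is `¬ spl` since
`J ≠ K`, `YG P K J = ⊥`), with `g = gK ((p - 1)/[K₁ : K])`, and the fields `htG`, `bl₁G`, `bl₄G` (coefficients `≤ Q^(2|D|)`), compare
`Pool/Agent/Helper11/TH/HYPG.lean`, `A_BL1`, `A_BL4`. `MerN`: as in `AL_ONE`: the density of the labelled primes which are not split is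
`(p - 1)(1/[K₁ : K] - 1/[M₂ : K]) ≥ (p - 1)/[M₂ : K]`, because `[M₂ : K] ≥ p [K₁ : K]` (`[J : K]` is a power of `p`, not `1`). The numbers: `Q = p`
(`OmS.deg`), `dim W = B.r - dim Zt ≤ B.r - 1 ≤ n` (`A_ZT1`, `a_zt1`), so `|W|/|Λ| ≤ 1` and `θ = 1/(p - 1)`. -/
def AL_OMC : Prop :=
  ∀ (p : ℕ) [Fact p.Prime] (K M K₁ M₁ : Type) [Field K]
    [NumberField K] [IsTotallyComplex K] [Field M] [NumberField M] [Field K₁] [NumberField K₁]
    [Field M₁] [NumberField M₁] [Algebra K M] [Algebra K K₁] [Algebra K M₁] [Algebra M M₁]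
    [Algebra K₁ M₁] (J M₂ : ℕ → Type) [∀ l, Field (J l)] [∀ l, NumberField (J l)]
    [∀ l, Field (M₂ l)] [∀ l, NumberField (M₂ l)] [∀ l, Algebra K (J l)] [∀ l, Algebra K (M₂ l)]
    [∀ l, Algebra M (M₂ l)] [∀ l, Algebra K₁ (M₂ l)] [∀ l, Algebra M₁ (M₂ l)]
    [∀ l, Algebra (J l) (M₂ l)] (ε : K₁) (δ : M ≃ₐ[K] M) (P : (ZMod p)[X])
    [Fact (Irreducible P)] [Fintype (AdjoinRoot P)] (a₀ : ∀ l, (M₂ l)ˣ),
    (∀ l, SitB p K M K₁ M₁ (J l) (M₂ l) ε δ P (a₀ l)) → OmS p M₁ ε δ P →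
    (∀ l, finrank K (J l) ≠ 1) →
    (∀ (l l' : ℕ) (y : Mˣ), Pw2 p (M₂ l) y → Pw2 p (M₂ l') y) →
  ∀ T : Set (K →+* ℂ_[p]),
    (∀ B : Base p K M K₁ M₁ ε δ P, ∃ n : ℕ, B.r ≤ n + 1 ∧
      ∀ (l : ℕ) (_ : BaseB B (a₀ l)) (aτ : K₁ˣ), OmType p K ε (aτ : K₁) →
        ∃ E : TauX n B (a₀ l) T aτ, NrmInd E.toTauF (M₂ l)) →
  ALevO p K M K₁ M₁ ε δ P M₂ a₀ T (1 / ((p : ℝ) - 1))

end Pool.Agent.Helper42.TH
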