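import Pool.Agent.Helper38.TH.Defs
import Pool.Agent.Helper42.WY.MOMG

/-!
# Project TH (MP_fc6b1e_nt, T100), class level: definitions

The blocks of the primes of `K`, the densities of sets of primes, the exceptional classes, and the statement of the
arithmetic part (`ALev`): the hypotheses of `CHAIN` hold for the systems of finitely many levels over a common base.
-/

set_option autoImplicit false

namespace Pool.Agent.Helper42.TH

open NumberField Polynomial Module IsDedekindDomain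
open Pool.Agent.Helper51.RP Pool.Agent.Helper42.RD Pool.Agent.Helper42.PP Pool.Agent.Helper42.PP1
open Pool.Agent.Helper42.PB Pool.Agent.Helper42.PW Pool.Agent.Helper11.PP
open Pool.Agent.Helper38.WY
open Pool.Agent.Helper51.SigLeo (IwasawaLog)
open Pool.Agent.Helper38.TH

section primes

variable {K : Type} [Field K] [NumberField K]

/-- The block of the prime `v`: `2^(bv v) ≤ N v < 2^(bv v + 1)`. -/
noncomputable def bv (v : HeightOneSpectrum (𝓞 K)) : ℕ := Nat.log 2 (Ideal.absNorm v.asIdeal)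

/-- Mertens, lower bound, for the set `V` of primes. -/
def MerL (V : Set (HeightOneSpectrum (𝓞 K))) (κ K₀ : ℝ) : Prop :=
  ∀ m n : ℕ, 1 ≤ m → m ≤ n → ∃ F : Finset (HeightOneSpectrum (𝓞 K)),
    (∀ v ∈ F, v ∈ V ∧ m ≤ bv v ∧ bv v < n) ∧
    κ * Real.log (n / m) - K₀ ≤ ∑ v ∈ F, (1 : ℝ) / Ideal.absNorm v.asIdeal

/-- Mertens, upper bound, for the set `V` of primes. -/
def MerU (V : Set (HeightOneSpectrum (𝓞 K))) (ρ K₀ : ℝ) : Prop :=
  ∀ m n : ℕ, 1 ≤ m → m ≤ n → ∀ F : Finset (HeightOneSpectrum (𝓞 K)),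
    (∀ v ∈ F, v ∈ V ∧ m ≤ bv v ∧ bv v < n) →
    ∑ v ∈ F, (1 : ℝ) / Ideal.absNorm v.asIdeal ≤ ρ * Real.log (n / m) + K₀

/-- The sum of `1/N v` over the `v ∈ V` in the blocks `n, ..., T n - 1` is at most `ρ (log T + 2)` for large `n`. -/
def Tail (V : Set (HeightOneSpectrum (𝓞 K))) (ρ : ℝ) : Prop :=
  ∀ T : ℕ, 1 ≤ T → ∃ n₀ : ℕ, ∀ n, n₀ ≤ n → ∀ F : Finset (HeightOneSpectrum (𝓞 K)),
    (∀ v ∈ F, v ∈ V ∧ n ≤ bv v ∧ bv v < T * n) →
    ∑ v ∈ F, (1 : ℝ) / Ideal.absNorm v.asIdeal ≤ ρ * (Real.log T + 2)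

/-- The exceptional classes: `c` is ramified at a large prime of `V`, or at fewer than `r` large primes of `W`. Large
means a block `≥ log₂ (f c)/T`. -/
def ExC {p : ℕ} {K₁ : Type} [Field K₁] [NumberField K₁] [Algebra K K₁]
    (V W : Set (HeightOneSpectrum (𝓞 K))) (Ta Tb r : ℕ) (f : ClP p K₁ → ℕ) : Set (ClP p K₁) :=
  {c | (∃ v ∈ V, ValC c v ∧ Nat.log 2 (f c) ≤ Ta * bv v) ∨
    {v | v ∈ W ∧ ValC c v ∧ Nat.log 2 (f c) ≤ Tb * bv v}.ncard < r}

end primes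

open Classical in
/-- The conclusion of the arithmetic part for the levels `M₂ l`, `a₀ l` (`l ∈ ℕ`): for any sequence `lv` of levels with
finitely many values and any finite set `S₀` of primes there is one base `B` with `S₀ ⊆ B.S` over which all the systems
of these levels exist and satisfy `HypG`, with the same `g`, `ψ`, and the constant `κ = (p - 1)/[M₂ : K]`. The constant of
the moment theorem is at most `θ`, the one of `MTG` or the one of `MTG1` (case `χ₀ = 1`; with the lower bound of Mertens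
for the primes which are not split). -/
def ALev (p : ℕ) [Fact p.Prime] (K M K₁ M₁ : Type) [Field K] [NumberField K] [Field M]
    [NumberField M] [Field K₁] [NumberField K₁] [Field M₁] [NumberField M₁] [Algebra K M]
    [Algebra K K₁] [Algebra K M₁] [Algebra M M₁] [Algebra K₁ M₁] (ε : K₁) (δ : M ≃ₐ[K] M)
    (P : (ZMod p)[X]) [Fact (Irreducible P)] [Fintype (AdjoinRoot P)]
    (M₂ : ℕ → Type) [∀ l, Field (M₂ l)] [∀ l, NumberField (M₂ l)]
    [∀ l, Algebra K (M₂ l)] [∀ l, Algebra M (M₂ l)] [∀ l, Algebra K₁ (M₂ l)]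
    [∀ l, Algebra M₁ (M₂ l)]
    (a₀ : ∀ l, (M₂ l)ˣ) (T : Set (K →+* ℂ_[p])) (θ : ℝ) : Prop :=
  ∀ lv : ℕ → ℕ, (Set.range lv).Finite → ∀ S₀ : Finset (HeightOneSpectrum (𝓞 K)),
  ∃ (B : Base p K M K₁ M₁ ε δ P) (D : ∀ i, BaseB B (a₀ (lv i))) (g : ℝ → ℝ) (K₀ : ℝ),
    S₀ ⊆ B.S ∧ Slow g K₀ ∧ ∀ aτ : K₁ˣ, OmType p K ε (aτ : K₁) →
    ∃ (n : ℕ) (E : ∀ i, TauX n B (a₀ (lv i)) T aτ) (ψ : AddChar (AdjoinRoot P) ℂ)
      (Lk : ℕ → AdjoinRoot P → AdjoinRoot P → Prop)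
      (Cs : ℕ → AdjoinRoot P → AddSubgroup (AdjoinRoot P)) (Mc : ℕ → ℕ) (K' : ℕ → ℕ)
      (c X₁ : ℝ), 0 < c ∧
      (∀ i, HypG (sysB B (E i).toTauF (Spl (M₂ (lv i)) B.S) (D i).s0 aτ) ψ (Lk i) (Cs i) (Mc i)
        (((p : ℝ) - 1) / finrank K (M₂ (lv i))) g (K' i)) ∧
      (Fintype.card (Fin B.r → AdjoinRoot P) / Fintype.card (Fin n → AdjoinRoot P) : ℝ) ≤ 1 ∧
      (∀ i, (Fintype.card (Fin B.r → AdjoinRoot P) / Fintype.card (Fin n → AdjoinRoot P) : ℝ) *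
          (Fintype.card (AdjoinRoot P) / (Mc i * (Fintype.card (AdjoinRoot P) - 1))) ≤ θ ∨
        (∃ (ψ₁ : AddChar (ZMod p) ℂ) (K₂ : ℕ),
          (sysB B (E i).toTauF (Spl (M₂ (lv i)) B.S) (D i).s0 aτ).Hyp ψ ψ₁ g K₂) ∧
        (∃ K₃ : ℝ, ∀ m n' : ℕ, 1 ≤ m → m ≤ n' →
          ((p : ℝ) - 1) / finrank K (M₂ (lv i)) * Real.log (n' / m) - K₃ ≤
          ∑ q ∈ (sysB B (E i).toTauF (Spl (M₂ (lv i)) B.S) (D i).s0 aτ).below n' with
            ¬ (sysB B (E i).toTauF (Spl (M₂ (lv i)) B.S) (D i).s0 aτ).spl q ∧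
            m ≤ (sysB B (E i).toTauF (Spl (M₂ (lv i)) B.S) (D i).s0 aτ).bl q,
          (1 : ℝ) / (sysB B (E i).toTauF (Spl (M₂ (lv i)) B.S) (D i).s0 aτ).N q) ∧
        (Fintype.card (Fin B.r → AdjoinRoot P) / Fintype.card (Fin n → AdjoinRoot P) : ℝ) *
          (Fintype.card (AdjoinRoot P) / (p * (Fintype.card (AdjoinRoot P) - 1))) ≤ θ) ∧
      ∀ X : ℝ, X₁ ≤ X → ∃ Qf : Finset B.LP,
        c * (X * g X) ≤ ∑ b ∈ Qf.powerset with
            (sysB B (E 0).toTauF (Spl (M₂ (lv 0)) B.S) (D 0).s0 aτ).Fam b,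
          Real.exp (-((sysB B (E 0).toTauF (Spl (M₂ (lv 0)) B.S) (D 0).s0 aτ).nm b / X))

end Pool.Agent.Helper42.TH
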