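import Pool.Agent.Helper42.TH.ALG
import Pool.Agent.Helper42.WY.MB1X

/-!
# Project TH: the arithmetic part, `χ₀ = 1`
-/

set_option autoImplicit false

namespace Pool.Agent.Helper42.TH

open NumberField Polynomial Module IsDedekindDomain
open Pool.Agent.Helper51.RP Pool.Agent.Helper42.RD Pool.Agent.Helper42.PP Pool.Agent.Helper42.PP1
open Pool.Agent.Helper51.SigLeo Pool.Agent.Helper11.LE Pool.Agent.Helper11.PP
open Pool.Agent.Helper17.PP (Sys)
open Pool.Agent.Helper77.PPS (gK)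
open Pool.Agent.Helper42.PB Pool.Agent.Helper76.PB Pool.Agent.Helper42.PW Pool.Agent.Helper38.WY
open Pool.Agent.Helper11.PB (tc_up)
open Pool.Agent.Helper38.ND
open Pool.Agent.Helper42.WY
open Pool.Agent.Helper94.PP1 (rank1')
open Pool.Agent.Helper11.M3 (Nrml)
open Pool.Agent.Helper11.TH (w0_base slow_gK kap_one lowG hypG_one hyp1B mernK)
open Pool.Agent.Helper76.PP (psK)
open Pool.Agent.Helper38.TH (HypG)

/-- `J ≠ K` if `[M₂ : K] > [K₁ : K]`. -/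
theorem finJ_ne1 {p : ℕ} [hpF : Fact p.Prime] {K K₁ J M₂ : Type} [Field K] [NumberField K]
    [Field K₁] [NumberField K₁] [Field J] [NumberField J] [Field M₂] [NumberField M₂]
    [Algebra K K₁] [Algebra K J] [Algebra K M₂] [Algebra K₁ M₂] [Algebra J M₂] {ε : K₁}
    {a₀ : M₂ˣ} (hs : SitB p K K K₁ K₁ J M₂ ε (1 : K ≃ₐ[K] K) (X - 1) a₀)
    (h2 : finrank K K₁ < finrank K M₂) : finrank K J ≠ 1 := by
  intro h
  have := tow_K hs
  have := hs.t4
  have := hs.gM₂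
  have hJ : ∀ x : J, ∃ y : K, algebraMap K J y = x := by
    intro x
    obtain ⟨c, hc⟩ := (finrank_eq_one_iff_of_nonzero' (1 : J) one_ne_zero).1 h x
    exact ⟨c, by rw [← hc, Algebra.smul_def, mul_one]⟩
  have hG : IsGalois K₁ M₂ := IsGalois.tower_top_of_isGalois K K₁ M₂
  have hfd : FiniteDimensional K₁ M₂ := Module.Finite.of_restrictScalars_finite K K₁ M₂
  have h1 : ∀ g : M₂ ≃ₐ[K₁] M₂, g = 1 := by
    intro g
    have hg : g.restrictScalars K = 1 := by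
      refine hs.lin₂ _ (fun x => g.commutes x) fun x => ?_
      obtain ⟨y, rfl⟩ := hJ x
      rw [← IsScalarTower.algebraMap_apply K J M₂]
      exact (g.restrictScalars K).commutes y
    ext x
    exact congrArg (fun f : M₂ ≃ₐ[K] M₂ => f x) hg
  have h3 : finrank K₁ M₂ = 1 := by
    rw [← IsGalois.card_aut_eq_finrank K₁ M₂]
    exact Nat.card_eq_one_iff_unique.2 ⟨⟨fun a b => by rw [h1 a, h1 b]⟩, ⟨1⟩⟩
  have h4 := finrank_mul_finrank K K₁ M₂
  rw [h3, mul_one] at h4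
  omega

/-- **AL_ONE**. -/
theorem al_one : AL_ONE := by
  classical
  intro p hpF L K K₁ _ _ _ _ _ _ J M₂ _ _ _ _ _ _ _ _ ε hirr hfin a₀ hs hμ h2 T hTc hTn
  intro lv hlv S₀
  have hp : p.Prime := hpF.out
  have hp2 : p ≠ 2 := Pool.Agent.Helper77.PPO.p_ne_two p K hμ
  have hs0 := (hs 0).sit
  have := hs0.gK
  have hC : Cyc p K K₁ ε := ⟨hs0.prim, hs0.gK, hs0.gen⟩
  have hcK : IsTotallyComplex K₁ := tc_up K K₁
  have hP0 : (X - 1 : (ZMod p)[X]) ≠ 0 := hs0.irr.ne_zero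
  have hfinA : Module.Finite (ZMod p) (AdjoinRoot (X - 1 : (ZMod p)[X])) :=
    (AdjoinRoot.powerBasis hP0).finite
  have hdeg : (X - 1 : (ZMod p)[X]).natDegree = 1 := by
    have h := natDegree_X_sub_C (1 : ZMod p)
    rwa [map_one] at h
  have hcard : Fintype.card (AdjoinRoot (X - 1 : (ZMod p)[X])) = p := by
    rw [Module.card_eq_pow_finrank (K := ZMod p) (V := AdjoinRoot (X - 1 : (ZMod p)[X])),
      ZMod.card, (AdjoinRoot.powerBasis hP0).finrank, AdjoinRoot.powerBasis_dim, hdeg, pow_one]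
  have hnt : NTV p K₁ ε (1 : K ≃ₐ[K] K) (X - 1 : (ZMod p)[X]) := by
    refine Pool.Agent.Helper76.PP.ntv_one p K K₁ ε hC.prim hC.gen ?_
    have h2K := Pool.Agent.Helper90.LE.l_cyc p K K₁ ε hC
    have h2 : 0 < Module.finrank K K₁ := Module.finrank_pos
    rcases Nat.lt_or_ge 1 (Module.finrank K K₁) with h | h
    · exact h
    · exact absurd (h2K.2.2.1.1 (by omega)) hμ
  have hp1 : (1 : ℝ) < p := by exact_mod_cast hp.one_lt
  have hp0 : (0 : ℝ) < p := by linarith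
  have hpp : (0 : ℝ) < (p : ℝ) - 1 := by linarith
  have hθ : (0 : ℝ) ≤ 1 / ((p : ℝ) - 1) := by positivity
  have hd0 : 0 < finrank K K₁ := finrank_pos
  have hJ : ∀ l, finrank K (J l) ≠ 1 := fun l => finJ_ne1 (hs l) (by have := h2 l; omega)
  obtain ⟨N, hN⟩ : ∃ N, ∀ i, lv i < N := by
    obtain ⟨b, hb⟩ := hlv.bddAbove
    exact ⟨b + 1, fun i => Nat.lt_succ_of_le (hb ⟨i, rfl⟩)⟩
  obtain ⟨B, hSB, hNr, hD⟩ := w0_base hs0 J M₂ a₀ N (fun i _ => hs i) S₀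
  have D : ∀ i, BaseB B (a₀ (lv i)) := fun i => (hD (lv i) (hN i)).some
  have hr : B.r ≤ B.S.card + Units.rank K :=
    rank1' Pool.Agent.Helper88.LE.l_sun hC.prim hC.gen hμ B
  refine ⟨B, D, gK (((p : ℝ) - 1) / finrank K K₁), _, hSB, slow_gK _ (kap_one hs0), ?_⟩
  intro aτ haτ
  have hE : ∀ i, ∃ E : TauX (B.S.card + T.ncard - 1) B (a₀ (lv i)) T aτ,
      NrmInd E.toTauF (M₂ (lv i)) := by
    intro i
    refine (y_ex1 a_yext a_fline p hp2 L K K₁ (J (lv i)) (M₂ (lv i)) ε (a₀ (lv i)) (hs (lv i)) T B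
      (D i) aτ haτ).2 ?_
    have h0 : 0 < finrank K (J (lv i)) := finrank_pos
    have := hJ (lv i)
    omega
  choose E hE' using hE
  obtain ⟨c, X₁, hc, hlow⟩ := lowG hs0 B (E 0).toTauF (Spl (M₂ (lv 0)) B.S) (D 0).s0 aτ
  obtain ⟨ψ₁, hψ₁⟩ := Pool.Agent.Helper12.PP.kap_ex p
  choose K' hK' using fun i => hypG_one p K K K₁ K₁ (J (lv i)) (M₂ (lv i)) ε 1 (X - 1)
    (a₀ (lv i)) (hs (lv i)) hnt B (D i) _ (E i).toTauF aτ (hE' i) ψ₁ hψ₁
  have hcd : ∀ n : ℕ, (Fintype.card (Fin n → AdjoinRoot (X - 1 : (ZMod p)[X])) : ℝ) =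
      (p : ℝ) ^ n := by
    intro n
    rw [Fintype.card_fun, hcard, Fintype.card_fin, Nat.cast_pow]
  have h5 : (Fintype.card (Fin B.r → AdjoinRoot (X - 1 : (ZMod p)[X])) /
      Fintype.card (Fin (B.S.card + T.ncard - 1) → AdjoinRoot (X - 1 : (ZMod p)[X])) : ℝ) ≤ 1 := by
    rw [hcd, hcd, div_le_one (by positivity)]
    exact pow_le_pow_right₀ hp1.le (by omega)
  refine ⟨_, E, _, fun _ _ _ => False, fun _ _ => ⊥, fun _ => 1, K', c, X₁, hc, hK', h5,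
    fun i => Or.inr ⟨?_, ?_, ?_⟩, hlow⟩
  · have := tow_K (hs (lv i))
    have hlt : 1 < finrank K₁ (M₂ (lv i)) := by
      have h6 := finrank_mul_finrank K K₁ (M₂ (lv i))
      have h7 := h2 (lv i)
      by_contra h8
      have h9 : finrank K₁ (M₂ (lv i)) ≤ 1 := by omega
      have h10 : finrank K K₁ * finrank K₁ (M₂ (lv i)) ≤ finrank K K₁ * 1 :=
        Nat.mul_le_mul_left _ h9
      omega
    obtain ⟨K₂, hK₂⟩ := hyp1B p K K K₁ K₁ (J (lv i)) (M₂ (lv i)) ε 1 (X - 1) (a₀ (lv i))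
      (hs (lv i)) hnt hlt B (D i) _ (E i).toTauF aτ (hE' i) ψ₁ hψ₁
    exact ⟨ψ₁, K₂, hK₂⟩
  · have := tow_K (hs (lv i))
    have := (hs (lv i)).gM₂
    exact mernK p K K K₁ K₁ (M₂ (lv i)) ε 1 (X - 1) B (E i).toTauF (h2 (lv i)) (D i).s0 aτ
  · have h6 : (Fintype.card (AdjoinRoot (X - 1 : (ZMod p)[X])) : ℝ) /
        (p * ((Fintype.card (AdjoinRoot (X - 1 : (ZMod p)[X])) : ℝ) - 1)) =
        1 / ((p : ℝ) - 1) := by
      rw [hcard]
      field_simp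
    rw [h6]
    calc _ ≤ 1 * (1 / ((p : ℝ) - 1)) := mul_le_mul_of_nonneg_right h5 hθ
      _ = _ := one_mul _

end Pool.Agent.Helper42.TH
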