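import Pool.Agent.Helper42.TH.AsmW
import Pool.Agent.Helper42.TH.AL1

/-!
# Project TH: `WOUT` and `WAt`, without hypotheses
-/

set_option autoImplicit false

namespace Pool.Agent.Helper42.TH

open Pool.Agent.Helper51.SigLeo
open Pool.Agent.Helper38.FW (IsOmega)
open Pool.Agent.Helper38.FY (BaseChr)
open Pool.Agent.Helper38.TH

/-- `WAt` for all the base characters, `p` odd or `κ` not congruent to `ω`. -/
theorem w_at {p : ℕ} [Fact p.Prime] {K : Type} [Field K] [NumberField K]
    {ιinf : AlgebraicClosure K →+* ℂ} {ιp : AlgebraicClosure K →+* ℂ_[p]} (D : BaseChr ιinf ιp)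
    (L : IwasawaLog p ℂ_[p]) (hD : p ≠ 2 ∨ ¬ IsOmega D.κ) : WAt D L :=
  wAt_of al_gen al_sd al_one D L hD

/-- `WOUT`. -/
theorem w_out : WOUT := wout_of al_gen al_sd al_one

end Pool.Agent.Helper42.TH
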