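import Pool.Agent.Helper42.TH.GoalsAL
import Pool.Agent.Helper42.WY.DEN2F
import Pool.Agent.Helper11.TH.HYP1
import Pool.Agent.Helper11.TH.W0

/-!
# Project TH: the arithmetic part in the general, the self-dual and the unitary case
-/

set_option autoImplicit false

namespace Pool.Agent.Helper42.TH

open NumberField Polynomial Module IsDedekindDomain
open Pool.Agent.Helper51.RP Pool.Agent.Helper42.RD Pool.Agent.Helper42.PP Pool.Agent.Helper42.PP1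
open Pool.Agent.Helper51.SigLeo Pool.Agent.Helper11.LE Pool.Agent.Helper11.PP
open Pool.Agent.Helper17.PP (Sys)
open Pool.Agent.Helper77.PPS (gK)
open Pool.Agent.Helper42.PB Pool.Agent.Helper76.PB Pool.Agent.Helper42.PW Pool.Agent.Helper38.WY
open Pool.Agent.Helper11.PB (tc_up)
open Pool.Agent.Helper38.ND
open Pool.Agent.Helper42.WY
open Pool.Agent.Helper11.M3 (Nrml)
open Pool.Agent.Helper11.TH (w0_base slow_gK kap_one lowG hypG_gen hypG_sd)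
open Pool.Agent.Helper76.PP (psK)
open Pool.Agent.Helper38.TH (HypG)

/-- The functionals at all the levels. -/
theorem extG (p : ℕ) [hpF : Fact p.Prime] (L : IwasawaLog p ℂ_[p])
    (K M K₁ M₁ : Type) [Field K] [NumberField K] [IsTotallyComplex K] [Field M] [NumberField M]
    [Field K₁] [NumberField K₁] [Field M₁] [NumberField M₁] [Algebra K M] [Algebra K K₁]
    [Algebra K M₁] [Algebra M M₁] [Algebra K₁ M₁] (J M₂ : ℕ → Type) [∀ l, Field (J l)]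
    [∀ l, NumberField (J l)]
    [∀ l, Field (M₂ l)] [∀ l, NumberField (M₂ l)] [∀ l, Algebra K (J l)] [∀ l, Algebra K (M₂ l)]
    [∀ l, Algebra M (M₂ l)] [∀ l, Algebra K₁ (M₂ l)] [∀ l, Algebra M₁ (M₂ l)]
    [∀ l, Algebra (J l) (M₂ l)] (ε : K₁) (δ : M ≃ₐ[K] M) (P : (ZMod p)[X])
    [Fact (Irreducible P)] (a₀ : ∀ l, (M₂ l)ˣ)
    (hs : ∀ l, SitB p K M K₁ M₁ (J l) (M₂ l) ε δ P (a₀ l))
    (m : ℕ) (ζ : ℂ_[p]) (Φ : ℤ_[p][X]) (hPhi : PhiData p m ζ Φ P) (hfr : finrank K M = m)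
    (htor : TorOK P δ) (T : Set (K →+* ℂ_[p])) (hTc : PlaceClosed T)
    (hd : finrank ℚ K = 2 * T.ncard) (B : Base p K M K₁ M₁ ε δ P) :
    ∃ n : ℕ, B.r ≤ n ∧ ∀ (l : ℕ) (_ : BaseB B (a₀ l)) (aτ : K₁ˣ), OmType p K ε (aτ : K₁) →
      ∃ E : TauX n B (a₀ l) T aτ, NrmInd E.toTauF (M₂ l) := by
  classical
  have hcK : IsTotallyComplex K₁ := tc_up K K₁
  have hcM : IsTotallyComplex M₁ := tc_up K₁ M₁
  have hne : Nonempty (AlgebraicClosure ℚ →+* ℂ_[p]) :=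
    Pool.Agent.Helper35.RD.nonempty_hom ℚ ℂ_[p]
  have hs0 := (hs 0).sit
  have := hs0.gM
  have := hs0.st1
  have := hs0.st2
  have hord : orderOf δ = m := hs0.ord.trans hfr
  have hPX : AdjoinRoot.root P ≠ 1 := by
    intro h
    have h2 := hPhi.cop 1 one_pos hPhi.one_lt (one_dvd _)
    have h3 : P ∣ X ^ 1 - 1 := by
      rw [← AdjoinRoot.mk_eq_zero, pow_one, map_sub, AdjoinRoot.mk_X, map_one, h, sub_self]
    exact hs0.irr.not_isUnit (h2.isUnit_of_dvd' dvd_rfl h3)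
  have lob : S_LOB := Pool.Agent.Helper32.RP.s_lob Pool.Agent.Helper90.RP.s_sub
    Pool.Agent.Helper59.RP.s_bin (Pool.Agent.Helper39.RP.s_sig Pool.Agent.Helper95.RP.s_lat)
    Pool.Agent.Helper99.RP.s_prm
  have hdn : nUr K M ≤ T.ncard := nUr_le_half K M _ hd
  obtain ⟨hSf, hst, hSp, -, -, -, -⟩ := Pool.Agent.Helper16.PP.p_upr p K M B.S
  obtain ⟨s₀, hs₀⟩ := Pool.Agent.Helper90.RP.Dual.dvd_ncard (K := K) m hfr
    {w ∈ up M B.S | FreeP K w} (hSf.subset fun w hw => hw.1)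
    (fun w hw v hv => ⟨hst w hw.1 v hv, free_of_conj hv hw.2⟩)
    (fun w hw => hw.2)
  have hr : B.r ≤ T.ncard + s₀ :=
    rank_leR Pool.Agent.Helper30.PP.p_fun hPhi hord hfr hdn htor B hSf hst hs₀
  refine ⟨T.ncard + s₀, hr, fun l D aτ haτ => ?_⟩
  obtain ⟨E⟩ := a_yext p K M K₁ M₁ (J l) (M₂ l) ε δ P (a₀ l) (hs l) L T B aτ haτ
    (T.ncard + s₀) (fun 𝔪₀ v hv =>
      lob p ℂ_[p] hne L K M m s₀ δ ζ Φ P hPhi hord hfr T hTc (up M B.S) 𝔪₀ v hv hs₀)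
  exact ⟨E, f_aln a_fline p K M K₁ M₁ (J l) (M₂ l) ε δ P (a₀ l) (hs l) hPX B D _ E.toTauF⟩

open Classical in
/-- `ALev` from `HypG` for all the levels. -/
theorem alCore (p : ℕ) [hpF : Fact p.Prime] (L : IwasawaLog p ℂ_[p])
    (K M K₁ M₁ : Type) [Field K] [NumberField K] [IsTotallyComplex K] [Field M] [NumberField M]
    [Field K₁] [NumberField K₁] [Field M₁] [NumberField M₁] [Algebra K M] [Algebra K K₁]
    [Algebra K M₁] [Algebra M M₁] [Algebra K₁ M₁] (J M₂ : ℕ → Type) [∀ l, Field (J l)]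
    [∀ l, NumberField (J l)]
    [∀ l, Field (M₂ l)] [∀ l, NumberField (M₂ l)] [∀ l, Algebra K (J l)] [∀ l, Algebra K (M₂ l)]
    [∀ l, Algebra M (M₂ l)] [∀ l, Algebra K₁ (M₂ l)] [∀ l, Algebra M₁ (M₂ l)]
    [∀ l, Algebra (J l) (M₂ l)] (ε : K₁) (δ : M ≃ₐ[K] M) (P : (ZMod p)[X])
    [Fact (Irreducible P)] [Fintype (AdjoinRoot P)] (a₀ : ∀ l, (M₂ l)ˣ)
    (hs : ∀ l, SitB p K M K₁ M₁ (J l) (M₂ l) ε δ P (a₀ l))
    (m : ℕ) (ζ : ℂ_[p]) (Φ : ℤ_[p][X]) (hPhi : PhiData p m ζ Φ P) (hfr : finrank K M = m)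
    (htor : TorOK P δ) (T : Set (K →+* ℂ_[p])) (hTc : PlaceClosed T)
    (hd : finrank ℚ K = 2 * T.ncard) (j : ℕ)
    (Lk : AdjoinRoot P → AdjoinRoot P → Prop) (Cs : AdjoinRoot P → AddSubgroup (AdjoinRoot P))
    (Mc : ℕ) (hMc : Mc * p ^ j = Fintype.card (AdjoinRoot P))
    (hH : ∀ (l : ℕ) (B : Base p K M K₁ M₁ ε δ P) (D : BaseB B (a₀ l)), Nrml B →
      ∀ (n : ℕ) (E : TauF n B) (aτ : K₁ˣ), NrmInd E (M₂ l) → ∀ ψ₁ : AddChar (ZMod p) ℂ, ψ₁ ≠ 1 →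
      ∃ K' : ℕ, HypG (sysB B E (Spl (M₂ l) B.S) D.s0 aτ)
        (psK (Algebra.trace (ZMod p) (AdjoinRoot P)) ψ₁) Lk Cs Mc
        (((p : ℝ) - 1) / finrank K (M₂ l)) (gK (((p : ℝ) - 1) / finrank K K₁)) K') :
    ALev p K M K₁ M₁ ε δ P M₂ a₀ T ((p : ℝ) ^ j / ((p : ℝ) ^ P.natDegree - 1)) := by
  intro lv hlv S₀
  have hp : p.Prime := hpF.out
  have hs0 := (hs 0).sit
  have hcK : IsTotallyComplex K₁ := tc_up K K₁
  have hP0 : P ≠ 0 := hs0.irr.ne_zero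
  have hfinA : Module.Finite (ZMod p) (AdjoinRoot P) := (AdjoinRoot.powerBasis hP0).finite
  have hcard : Fintype.card (AdjoinRoot P) = p ^ P.natDegree := by
    rw [Module.card_eq_pow_finrank (K := ZMod p) (V := AdjoinRoot P), ZMod.card,
      (AdjoinRoot.powerBasis hP0).finrank, AdjoinRoot.powerBasis_dim]
  have hp1 : (1 : ℝ) < p := by exact_mod_cast hp.one_lt
  have hQ1 : (1 : ℝ) < (p : ℝ) ^ P.natDegree := one_lt_pow₀ hp1 hs0.irr.natDegree_pos.ne'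
  have hθ : (0 : ℝ) ≤ (p : ℝ) ^ j / ((p : ℝ) ^ P.natDegree - 1) := by
    have h2 : (0 : ℝ) ≤ (p : ℝ) ^ P.natDegree - 1 := by linarith
    positivity
  obtain ⟨N, hN⟩ : ∃ N, ∀ i, lv i < N := by
    obtain ⟨b, hb⟩ := hlv.bddAbove
    exact ⟨b + 1, fun i => Nat.lt_succ_of_le (hb ⟨i, rfl⟩)⟩
  obtain ⟨B, hSB, hNr, hD⟩ := w0_base hs0 J M₂ a₀ N (fun i _ => hs i) S₀
  have D : ∀ i, BaseB B (a₀ (lv i)) := fun i => (hD (lv i) (hN i)).some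
  refine ⟨B, D, gK (((p : ℝ) - 1) / finrank K K₁), _, hSB, slow_gK _ (kap_one hs0), ?_⟩
  intro aτ haτ
  obtain ⟨n, hr, hE⟩ := extG p L K M K₁ M₁ J M₂ ε δ P a₀ hs m ζ Φ hPhi hfr htor T hTc hd B
  choose E hE' using fun i => hE (lv i) (D i) aτ haτ
  obtain ⟨c, X₁, hc, hlow⟩ := lowG hs0 B (E 0).toTauF (Spl (M₂ (lv 0)) B.S) (D 0).s0 aτ
  obtain ⟨ψ₁, hψ₁⟩ := Pool.Agent.Helper12.PP.kap_ex p
  choose K' hK' using fun i => hH (lv i) B (D i) hNr n (E i).toTauF aτ (hE' i) ψ₁ hψ₁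
  have h5 : (Fintype.card (Fin B.r → AdjoinRoot P) / Fintype.card (Fin n → AdjoinRoot P) : ℝ) ≤
      1 := by
    rw [Fintype.card_fun, Fintype.card_fun, hcard, Fintype.card_fin, Fintype.card_fin]
    push_cast
    rw [div_le_one (by positivity)]
    exact pow_le_pow_right₀ hQ1.le hr
  refine ⟨n, E, _, fun _ => Lk, fun _ => Cs, fun _ => Mc, K', c, X₁, hc, hK', h5,
    fun i => Or.inl ?_, hlow⟩
  have hMc' : (Mc : ℝ) * p ^ j = (p : ℝ) ^ P.natDegree := by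
    rw [hcard] at hMc
    exact_mod_cast hMc
  have hQ0 : (0 : ℝ) < (p : ℝ) ^ P.natDegree := by linarith
  have hMc0 : (0 : ℝ) < Mc := by
    have h5 : (0 : ℝ) < (Mc : ℝ) * p ^ j := by rw [hMc']; exact hQ0
    have h6 : (0 : ℝ) < (p : ℝ) ^ j := by positivity
    exact (pos_iff_pos_of_mul_pos h5).2 h6
  have h6 : (Fintype.card (AdjoinRoot P) : ℝ) / (Mc * ((Fintype.card (AdjoinRoot P) : ℝ) - 1)) =
      (p : ℝ) ^ j / ((p : ℝ) ^ P.natDegree - 1) := by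
    rw [hcard, Nat.cast_pow]
    have h7 : (p : ℝ) ^ P.natDegree - 1 ≠ 0 := by linarith
    rw [div_eq_div_iff (mul_ne_zero hMc0.ne' h7) h7, ← hMc']
    ring
  rw [h6]
  calc _ ≤ 1 * ((p : ℝ) ^ j / ((p : ℝ) ^ P.natDegree - 1)) := mul_le_mul_of_nonneg_right h5 hθ
    _ = _ := one_mul _

/-- **AL_GEN**. -/
theorem al_gen : AL_GEN := by
  intro p hpF L K M K₁ M₁ _ _ _ _ _ _ _ _ _ _ _ _ _ _ J M₂ _ _ _ _ _ _ _ _ _ _ ε δ P hirr hfin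
    a₀ hs hnt m ζ Φ hPhi hfr htor T hTc hd
  have hcK : IsTotallyComplex K₁ := tc_up K K₁
  have hcM : IsTotallyComplex M₁ := tc_up K₁ M₁
  have h := alCore p L K M K₁ M₁ J M₂ ε δ P a₀ hs m ζ Φ hPhi hfr htor T hTc hd 0 (fun _ _ => True)
    (fun _ => ⊤) (Fintype.card (AdjoinRoot P)) (by rw [pow_zero, mul_one])
    (fun l B D _ n E aτ hN ψ₁ hψ₁ => hypG_gen p K M K₁ M₁ (J l) (M₂ l) ε δ P (a₀ l) (hs l) hnt B D
      n E aτ hN ψ₁ hψ₁)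
  rw [pow_zero] at h
  exact h

/-- **AL_SD**. -/
theorem al_sd : AL_SD := by
  intro p hpF L K M K₁ M₁ _ _ _ _ _ _ _ _ _ _ _ _ _ _ J M₂ _ _ _ _ _ _ _ _ _ _ ε δ P hirr hfin
    a₀ hs hnt j hSD hj m ζ Φ hPhi hfr htor T hTc hd
  have hcK : IsTotallyComplex K₁ := tc_up K K₁
  have hcM : IsTotallyComplex M₁ := tc_up K₁ M₁
  obtain ⟨Lk, Cs, Mc, hMc, hH⟩ := hypG_sd p K M K₁ M₁ ε δ P (hs 0).sit hnt j hSD hj
  exact alCore p L K M K₁ M₁ J M₂ ε δ P a₀ hs m ζ Φ hPhi hfr htor T hTc hd j Lk Cs Mc hMc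
    (fun l B D hNr n E aτ hN ψ₁ hψ₁ => hH (J l) (M₂ l) (a₀ l) (hs l) B D hNr n E aτ hN ψ₁ hψ₁)

end Pool.Agent.Helper42.TH
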