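import Pool.Agent.Helper42.TH.WOutO
import Pool.Agent.Helper23.TH.TCLA
import Pool.Agent.Helper46.TH.TEX2core
import Pool.Agent.Helper57.TH.TCLW
import Pool.Agent.Helper87.TH.TCLB
import Pool.Agent.Helper80.TH.TREL
import Pool.Agent.Helper95.TH.TEX1
import Pool.Agent.Helper88.TH.TEXA

/-!
# Project TH: the class level, assembled; only the arithmetic part `AL_GEN`, `AL_SD`, `AL_ONE` is a hypothesis
-/

set_option autoImplicit false

namespace Pool.Agent.Helper42.TH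

open Pool.Agent.Helper51.SigLeo
open Pool.Agent.Helper38.FW (IsOmega)
open Pool.Agent.Helper38.FY (BaseChr)
open Pool.Agent.Helper38.TH

theorem t_ex2 : T_EX2 := by
  intro p _ B B₀ k U Λ C _ _ _ _ _ _ _ _ S ψ g K hS W κ K₀ hκ hK₀ hmer F Tb r hF hTb
  exact Pool.Agent.Helper46.TH.t_ex2_core p B B₀ k U Λ C S ψ g K hS W κ K₀ hκ hK₀ hmer F Tb r hF
    hTb

theorem clb : CLB :=
  Pool.Agent.Helper87.TH.t_clb (Pool.Agent.Helper23.TH.t_cla Pool.Agent.Helper57.TH.t_clw)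
    Pool.Agent.Helper91.PW.w_cnd

theorem exa : EXA :=
  Pool.Agent.Helper88.TH.t_exa Pool.Agent.Helper95.TH.t_ex1 t_ex2 Pool.Agent.Helper91.PW.w_cnd

/-- `WAt` from the arithmetic part. -/
theorem wAt_of (hG : AL_GEN) (hSD : AL_SD) (hO : AL_ONE) {p : ℕ} [Fact p.Prime] {K : Type}
    [Field K] [NumberField K] {ιinf : AlgebraicClosure K →+* ℂ}
    {ιp : AlgebraicClosure K →+* ℂ_[p]} (D : BaseChr ιinf ιp) (L : IwasawaLog p ℂ_[p])
    (hD : p ≠ 2 ∨ ¬ IsOmega D.κ) : WAt D L :=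
  wAt hG hSD hO Pool.Agent.Helper38.TH.mtg1V clb exa Pool.Agent.Helper80.TH.t_rel D L hD

/-- `WOUT` from the arithmetic part. -/
theorem wout_of (hG : AL_GEN) (hSD : AL_SD) (hO : AL_ONE) : WOUT :=
  wout hG hSD hO Pool.Agent.Helper38.TH.mtg1V clb exa Pool.Agent.Helper80.TH.t_rel

end Pool.Agent.Helper42.TH
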