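import Pool.Agent.Helper42.TH.Lev0
import Pool.Agent.Helper42.WY.ASMX

/-!
# Project TH (MP_fc6b1e_nt): from the classes to the pairs `(N, φ)`, infinitely many levels
-/

set_option autoImplicit false

namespace Pool.Agent.Helper42.TH

open NumberField Polynomial Module IsDedekindDomain TensorProduct Pool.Agent.Helper51.SigLeo
open Pool.Agent.Helper51.RP Pool.Agent.Helper42.RD Pool.Agent.Helper11.LE Pool.Agent.Helper11.PP
open Pool.Agent.Helper42.PP Pool.Agent.Helper42.PP1 Pool.Agent.Helper42.PB Pool.Agent.Helper42.PW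
open Pool.Agent.Helper38.FD (Chr CutsOut LeopoldtFor IsOrdinary isGalois_of_cutsOut)
open Pool.Agent.Helper77.PPB
open Pool.Agent.Helper38.FW (LocE cntE condP G_WT G_ASM momA_mono momA_empty)
open Pool.Agent.Helper38.WY Pool.Agent.Helper42.WY

theorem asmZ (hMAP : D_MAP) (hCHR : B_CHR) (hLDT : W_LDT) (hPRO : W_PRO) (hWT : G_WT)
    (hASM : G_ASM)
    (p : ℕ) [hpF : Fact p.Prime] (K : Type) [Field K] [NumberField K]
    (ιinf : AlgebraicClosure K →+* ℂ) (ιp : AlgebraicClosure K →+* ℂ_[p])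
    (Lg : IwasawaLog p ℂ_[p]) (S : Set (K →+* ℂ))
    (F : ℕ → IntermediateField K (AlgebraicClosure K))
    (χ₀ : Chr K (AlgebraicClosure K) ℂ_[p]) (ψ : ℕ → Chr K (AlgebraicClosure K) ℂ_[p])
    (Z₀ : Set (HeightOneSpectrum (𝓞 K))) (hZ₀ : Z₀.Finite) (hFZ : ∀ v, v ∉ Z₀ → ∀ l, ¬ RamIn (F l) v)
    (hcls : ∀ (K₁ : IntermediateField K (AlgebraicClosure K)) [NumberField K₁]
      (ε : AlgebraicClosure K) (ε₁ : K₁) (εk : ℂ_[p]ˣ)
      (nf : ClP p K₁ → IntermediateField K (AlgebraicClosure K))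
      (cf : ClP p K₁ → Chr K (AlgebraicClosure K) ℂ_[p]),
      IsPrimitiveRoot ε p → K₁ = IntermediateField.adjoin K {ε} →
      (ε₁ : AlgebraicClosure K) = ε → Cyc p K K₁ ε₁ → IsPrimitiveRoot εk p →
      NfRel p ε₁ nf → CfRel ε₁ εk nf cf →
      ClsZ ιinf ιp Lg ε₁ nf cf S F χ₀ ψ (fun Bd => MomA p K ε₁ Bd 0))
    (A : Set (IntermediateField K (AlgebraicClosure K) × Chr K (AlgebraicClosure K) ℂ_[p]))
    (hA : LocC p K A)
    (e : IntermediateField K (AlgebraicClosure K) × Chr K (AlgebraicClosure K) ℂ_[p] → ℕ)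
    (he : LocE p K e) :
  ∀ η : ℝ, 0 < η → ∀ᶠ X : ℕ in Filter.atTop,
    cntE e {x | x ∈ A ∧ ∀ l, ¬ ∀ l' : ℕ, GoodX ιinf ιp Lg S (χ₀ ^ p ^ l') (ψ l) x} X ≤
      η * cntE e A X := by
  classical
  have hp : p.Prime := hpF.out
  have hchar : CharZero (AlgebraicClosure K) :=
    charZero_of_injective_algebraMap (algebraMap K (AlgebraicClosure K)).injective
  have hpne : NeZero p := ⟨hp.ne_zero⟩
  obtain ⟨ε, hε⟩ := HasEnoughRootsOfUnity.exists_primitiveRoot (AlgebraicClosure K) p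
  -- the field `K₁`
  obtain ⟨K₁, hK₁⟩ : ∃ K₁ : IntermediateField K (AlgebraicClosure K),
    K₁ = IntermediateField.adjoin K {ε} := ⟨_, rfl⟩
  have hfK₁ : FiniteDimensional K K₁ := by
    rw [hK₁]
    exact IntermediateField.adjoin.finiteDimensional (Algebra.IsIntegral.isIntegral ε)
  have hnK₁ : NumberField K₁ := NumberField.of_module_finite K K₁
  have hgK₁ : IsGalois K K₁ := by
    rw [hK₁]
    have : IsCyclotomicExtension {p} K (IntermediateField.adjoin K {ε}) :=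
      hε.intermediateField_adjoin_isCyclotomicExtension (K := K)
    exact IsCyclotomicExtension.isGalois {p} K _
  have hmem : ε ∈ K₁ := by rw [hK₁]; exact IntermediateField.mem_adjoin_simple_self K ε
  obtain ⟨ε₁, hε₁⟩ : ∃ ε₁ : K₁, (ε₁ : AlgebraicClosure K) = ε := ⟨⟨ε, hmem⟩, rfl⟩
  have hC : Cyc p K K₁ ε₁ := by
    refine ⟨IsPrimitiveRoot.of_map_of_injective (f := K₁.val) (by
      show IsPrimitiveRoot (ε₁ : AlgebraicClosure K) p
      rw [hε₁]; exact hε) K₁.val.injective, hgK₁, ?_⟩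
    intro σ hσ
    have h1 : (σ : K₁ →ₐ[K] K₁) = AlgHom.id K K₁ := by
      refine IntermediateField.algHom_ext_of_eq_adjoin K (S := K₁) (s := ({ε} : Set _)) hK₁ ?_
      intro x hx
      have hx' : x = ε := hx
      subst hx'
      have h2 : (⟨x, hmem⟩ : K₁) = ε₁ := Subtype.ext hε₁.symm
      show σ (⟨x, _⟩ : K₁) = (⟨x, _⟩ : K₁)
      rw [h2]
      exact hσ
    ext x
    have := congrArg (fun f ↦ f x) h1
    simpa using congrArg Subtype.val this
  -- the root of unity of `ℂ_p`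
  obtain ⟨εk, hεk⟩ : ∃ εk : ℂ_[p]ˣ, IsPrimitiveRoot εk p := by
    have h1 : IsPrimitiveRoot (ιp ε) p := hε.map_of_injective ιp.injective
    exact ⟨(h1.isUnit hp.ne_zero).unit, IsPrimitiveRoot.coe_units_iff.1 h1⟩
  obtain ⟨nf, n1, n2, n3, n4⟩ := hMAP p K K₁ ε₁ hC (K₁.val : K₁ →+* AlgebraicClosure K)
    (fun x => rfl)
  obtain ⟨cf, n5, n6⟩ := hCHR p K K₁ ε₁ hC (K₁.val : K₁ →+* AlgebraicClosure K)
    (fun x => rfl) εk hεk nf n1 n2
  obtain ⟨Bd, hBd, hgd⟩ := hcls K₁ ε ε₁ εk nf cf hε hK₁ hε₁ hC hεk n1 n5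
  -- the primes above `p`
  have hp0 : (p : K) ≠ 0 := by exact_mod_cast hp.ne_zero
  have hSf : {v : HeightOneSpectrum (𝓞 K) | v.valuation K (p : K) < 1}.Finite :=
    (Pool.Agent.Helper99.RS.finite_bad hp0).subset fun v hv => ne_of_lt hv
  set Sp : Finset (HeightOneSpectrum (𝓞 K)) := hSf.toFinset with hSp
  have hSpm : ∀ v, v ∈ Sp ↔ v.valuation K (p : K) < 1 := by
    intro v
    rw [hSp, Set.Finite.mem_toFinset]
    rfl
  obtain ⟨f, hf, hfc⟩ := hWT hLDT p K K₁ ε₁ hC (K₁.val : K₁ →+* AlgebraicClosure K)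
    (fun x => rfl) εk hεk nf cf n1 n5 Sp hSpm (fun _ => 1) ⟨fun _ => le_rfl, fun _ _ _ _ _ => rfl⟩
  have hexu : ∃ a : K₁ˣ, OmType p K ε₁ (a : K₁) ∧ clp p a ∈ (Set.univ : Set (ClP p K₁)) := by
    obtain ⟨x₀, hx₀⟩ := hA.ne
    obtain ⟨c₀, ⟨hc₀, -⟩, -⟩ := n6 x₀.1 (hA.sub hx₀).1 x₀.2 (hA.sub hx₀).2
    obtain ⟨-, a, -, ho⟩ := hc₀
    exact ⟨a, ho, Set.mem_univ _⟩
  have hLU : LocA p K ε₁ Sp (Set.univ : Set (ClP p K₁)) := fun _ _ _ _ _ _ => Set.mem_univ _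
  have hfinU : ∀ X : ℝ, {c | c ∈ BSet p K ε₁ ∧ (f c : ℝ) ≤ X}.Finite := by
    intro X
    refine (hBd Sp Set.univ f hLU hexu hf).1 X |>.subset ?_
    rintro c' ⟨h1, h2⟩
    exact ⟨⟨h1, Set.mem_univ _⟩, h2⟩
  set Z : Set (ClP p K₁) := {c' | c' ∈ BSet p K ε₁ ∧
    ∀ v : HeightOneSpectrum (𝓞 K), RamIn (nf c') v → v ∈ Z₀} with hZ
  have hRamf : ∀ (N : IntermediateField K (AlgebraicClosure K)) [NumberField N],
      {v : HeightOneSpectrum (𝓞 K) | RamIn N v}.Finite := by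
    intro N _
    exact Pool.Agent.Helper95.PP.ram_finite K N
  have hcP : ∀ (N : IntermediateField K (AlgebraicClosure K)) [NumberField N]
      (hN : {v : HeightOneSpectrum (𝓞 K) | RamIn N v ∧ (p : 𝓞 K) ∉ v.asIdeal}.Finite),
      condP p K N = ∏ v ∈ hN.toFinset, Ideal.absNorm v.asIdeal := by
    intro N _ hN
    unfold condP
    exact finprod_mem_eq_finite_toFinset_prod _ hN
  have hZf : Z.Finite := by
    rw [hZ]
    refine (hfinU ((∏ v ∈ hZ₀.toFinset, Ideal.absNorm v.asIdeal : ℕ) : ℝ)).subset ?_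
    rintro c' ⟨h1, h2⟩
    refine ⟨h1, ?_⟩
    obtain ⟨hNc, -⟩ := n1 c' h1
    have hfN : FiniteDimensional K (nf c') := FiniteDimensional.of_finrank_pos (by
      rw [hNc.1]; exact hp.pos)
    have hnN : NumberField (nf c') := NumberField.of_module_finite K (nf c')
    have e1 : f c' = condP p K (nf c') := by rw [hfc c' h1, mul_one]
    rw [e1, hcP (nf c') ((hRamf _).subset fun v hv => hv.1)]
    refine Nat.cast_le.2 (Finset.prod_le_prod_of_subset_of_one_le' ?_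
      fun v _ _ => Pool.Agent.Helper95.PP.norm_pos v)
    intro v hv
    rw [Set.Finite.mem_toFinset] at hv ⊢
    exact h2 v hv.1
  set G : Set (IntermediateField K (AlgebraicClosure K) × Chr K (AlgebraicClosure K) ℂ_[p]) :=
    {x | ∃ l, ∀ l' : ℕ, GoodX ιinf ιp Lg S (χ₀ ^ p ^ l') (ψ l) x} with hG
  -- the claim
  have hclaim : ∀ c' ∈ BSet p K ε₁, (nf c', cf c') ∈ A → c' ∉ Z → (nf c', cf c') ∉ G →
      ∃ t : Fin 1, c' ∈ (fun _ : Fin 1 => Bd) t := by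
    intro c' hc' hcA hcZ hcG
    refine ⟨0, ?_⟩
    by_contra hcon
    apply hcG
    refine hgd c' hc' ?_ hcon
    by_contra h2
    apply hcZ
    refine ⟨hc', fun v hv => ?_⟩
    by_contra h3
    exact h2 ⟨v, hv, hFZ v h3⟩
  obtain ⟨q1, q2, q3⟩ := hASM hLDT hPRO hWT p K K₁ ε₁ hC (K₁.val : K₁ →+* AlgebraicClosure K)
    (fun x => rfl) εk hεk nf cf n1 n3 n5 n6 A hA e he 1 (fun _ => Bd) G Z (fun _ => 0)
    (fun _ => le_rfl) hZf hclaim (fun _ => hBd) (momA_empty le_rfl hBd)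
  intro η hη
  filter_upwards [q2 η hη] with X hX
  have hset : {x | x ∈ A ∧ ∀ l, ¬ ∀ l' : ℕ, GoodX ιinf ιp Lg S (χ₀ ^ p ^ l') (ψ l) x} =
      {x | x ∈ A ∧ x ∉ G} := by
    ext x
    simp only [hG, Set.mem_ofPred_eq, not_exists]
  rw [hset]
  simpa using hX

end Pool.Agent.Helper42.TH
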