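import Pool.Agent.Helper63.TH.Goals

namespace Pool.Agent.Helper42.TH

open MeasureTheory Set Filter Topology
open Pool.Agent.Helper53.PT Pool.Agent.Helper63.TH

/-- The substitution `x = ξ² / n`. -/
lemma subst (h : ℝ → ℝ) (n : ℕ) (hn : 1 ≤ n)
    (hi : IntegrableOn (fun ξ : ℝ => h (1 / (n : ℝ) * ξ ^ 2) / ξ ^ 2) (Ioi 0)) :
    IntegrableOn (fun x => h x / (x * √x)) (Ioi 0) ∧
    ∫ ξ in Ioi (0 : ℝ), h (1 / (n : ℝ) * ξ ^ 2) / ξ ^ 2 =
      1 / (2 * √(n : ℝ)) * ∫ x in Ioi (0 : ℝ), h x / (x * √x) := by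
  have hn0 : (0 : ℝ) < n := by exact_mod_cast hn
  have hs : (0 : ℝ) < √(n : ℝ) := Real.sqrt_pos.2 hn0
  have himg : (fun ξ : ℝ => 1 / (n : ℝ) * ξ ^ 2) '' (Ioi 0) = Ioi 0 := by
    ext y
    simp only [mem_image, mem_Ioi]
    constructor
    · rintro ⟨x, hx, rfl⟩
      positivity
    · intro hy
      refine ⟨√(n * y), Real.sqrt_pos.2 (by positivity), ?_⟩
      rw [Real.sq_sqrt (by positivity)]
      field_simp
  have hder : ∀ x ∈ Ioi (0 : ℝ), HasDerivWithinAt (fun ξ : ℝ => 1 / (n : ℝ) * ξ ^ 2)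
      (1 / (n : ℝ) * (2 * x)) (Ioi 0) x := by
    intro x _
    have h1 : HasDerivAt (fun ξ : ℝ => ξ ^ 2) (2 * x) x := by
      simpa using hasDerivAt_pow 2 x
    exact (h1.const_mul _).hasDerivWithinAt
  have hinj : InjOn (fun ξ : ℝ => 1 / (n : ℝ) * ξ ^ 2) (Ioi 0) := by
    intro x hx y hy hxy
    simp only at hxy
    have h2 : x ^ 2 = y ^ 2 := by
      have := mul_left_cancel₀ (by positivity) hxy
      exact this
    exact (pow_left_inj₀ (le_of_lt hx) (le_of_lt hy) (by norm_num)).1 h2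
  have hpt : ∀ x ∈ Ioi (0 : ℝ), |1 / (n : ℝ) * (2 * x)| • (h (1 / (n : ℝ) * x ^ 2) /
      ((1 / (n : ℝ) * x ^ 2) * √(1 / (n : ℝ) * x ^ 2))) =
      2 * √(n : ℝ) * (h (1 / (n : ℝ) * x ^ 2) / x ^ 2) := by
    intro x hx
    have hx0 : 0 < x := hx
    have h1 : √(1 / (n : ℝ) * x ^ 2) = x / √(n : ℝ) := by
      rw [Real.sqrt_mul (by positivity), Real.sqrt_sq hx0.le, Real.sqrt_div zero_le_one,
        Real.sqrt_one]
      ring
    rw [h1, abs_of_pos (by positivity), smul_eq_mul]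
    have h2 : (n : ℝ) = √(n : ℝ) * √(n : ℝ) := (Real.mul_self_sqrt hn0.le).symm
    field_simp
  have hI : IntegrableOn (fun x => h x / (x * √x)) (Ioi 0) := by
    have h1 := integrableOn_image_iff_integrableOn_abs_deriv_smul measurableSet_Ioi hder hinj
      (fun x => h x / (x * √x))
    rw [himg] at h1
    rw [h1]
    have h2 := hi.const_mul (2 * √(n : ℝ))
    refine IntegrableOn.congr_fun h2 ?_ measurableSet_Ioi
    intro x hx
    exact (hpt x hx).symm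
  refine ⟨hI, ?_⟩
  have h1 := integral_image_eq_integral_abs_deriv_smul measurableSet_Ioi hder hinj
    (fun x => h x / (x * √x))
  rw [himg] at h1
  rw [h1, setIntegral_congr_fun measurableSet_Ioi hpt, integral_const_mul]
  field_simp

/-- The Gaussian integral. -/
lemma gauss : IntegrableOn (fun ξ : ℝ => (1 - Real.exp (-(ξ ^ 2 / 2))) / ξ ^ 2) (Ioi 0) ∧
    ∫ ξ in Ioi (0 : ℝ), (1 - Real.exp (-(ξ ^ 2 / 2))) / ξ ^ 2 = √(Real.pi / 2) := by
  have b0 : ∀ ξ : ℝ, 0 ≤ 1 - Real.exp (-(ξ ^ 2 / 2)) := by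
    intro ξ
    have : Real.exp (-(ξ ^ 2 / 2)) ≤ 1 := Real.exp_le_one_iff.2 (by nlinarith [sq_nonneg ξ])
    linarith
  have b1 : ∀ ξ : ℝ, 1 - Real.exp (-(ξ ^ 2 / 2)) ≤ 1 := by
    intro ξ
    have := Real.exp_pos (-(ξ ^ 2 / 2))
    linarith
  have b2 : ∀ ξ : ℝ, 1 - Real.exp (-(ξ ^ 2 / 2)) ≤ ξ ^ 2 / 2 := by
    intro ξ
    have := Real.add_one_le_exp (-(ξ ^ 2 / 2))
    linarith
  have hI : IntegrableOn (fun ξ : ℝ => (1 - Real.exp (-(ξ ^ 2 / 2))) / ξ ^ 2) (Ioi 0) := by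
    have h1 : Integrable (fun x : ℝ => 3 / 2 * (1 + x ^ 2)⁻¹) :=
      integrable_inv_one_add_sq.const_mul _
    refine (h1.integrableOn (s := Ioi 0)).mono' ?_ ?_
    · apply Measurable.aestronglyMeasurable
      fun_prop
    · refine (ae_restrict_iff' measurableSet_Ioi).2 (Eventually.of_forall ?_)
      intro x hx
      have hx0 : 0 < x := hx
      have hb0 := b0 x
      have hb1 := b1 x
      have hb2 := b2 x
      rw [Real.norm_of_nonneg (by positivity), ← div_eq_mul_inv, div_le_div_iff₀ (by positivity)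
        (by positivity)]
      nlinarith [sq_nonneg x]
  refine ⟨hI, ?_⟩
  have hG : Integrable (fun ξ : ℝ => Real.exp (-(1 / 2) * ξ ^ 2)) :=
    integrable_exp_neg_mul_sq (by norm_num)
  have hG' : ∀ ξ : ℝ, Real.exp (-(1 / 2) * ξ ^ 2) = Real.exp (-(ξ ^ 2 / 2)) := by
    intro ξ; congr 1; ring
  have hGv : ∫ ξ in Ioi (0 : ℝ), Real.exp (-(1 / 2) * ξ ^ 2) = √(Real.pi / 2) := by
    rw [integral_gaussian_Ioi]
    rw [show Real.pi / (1 / 2) = Real.pi / 2 * 2 ^ 2 by ring, Real.sqrt_mul (by positivity),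
      Real.sqrt_sq (by norm_num)]
    ring
  have hF : ∫ ξ in Ioi (0 : ℝ), ((1 - Real.exp (-(ξ ^ 2 / 2))) / ξ ^ 2 -
      Real.exp (-(1 / 2) * ξ ^ 2)) = 0 := by
    have hd : ∀ x ∈ Ioi (0 : ℝ), HasDerivAt
        (fun ξ : ℝ => -((1 - Real.exp (-(ξ ^ 2 / 2))) / ξ))
        ((1 - Real.exp (-(x ^ 2 / 2))) / x ^ 2 - Real.exp (-(1 / 2) * x ^ 2)) x := by
      intro x hx
      have hx0 : x ≠ 0 := ne_of_gt hx
      have h1 : HasDerivAt (fun ξ : ℝ => -(ξ ^ 2 / 2)) (-x) x := by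
        have := ((hasDerivAt_pow 2 x).div_const 2).neg
        refine this.congr_deriv ?_
        simp
      have h2 := (((h1.exp).const_sub 1).div (hasDerivAt_id x) hx0).neg
      refine h2.congr_deriv ?_
      rw [hG']
      simp only [id]
      field_simp
      ring
    have hc : ContinuousWithinAt (fun ξ : ℝ => -((1 - Real.exp (-(ξ ^ 2 / 2))) / ξ)) (Ici 0) 0 := by
      have h0 : (fun ξ : ℝ => -((1 - Real.exp (-(ξ ^ 2 / 2))) / ξ)) 0 = 0 := by simp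
      unfold ContinuousWithinAt
      rw [h0]
      have hl : Tendsto (fun ξ : ℝ => |ξ| / 2) (𝓝[Ici 0] 0) (𝓝 0) := by
        have : Continuous (fun ξ : ℝ => |ξ| / 2) := by fun_prop
        have h3 := this.tendsto 0
        simp only [abs_zero, zero_div] at h3
        exact h3.mono_left nhdsWithin_le_nhds
      apply squeeze_zero_norm' _ hl
      refine Eventually.of_forall ?_
      intro x
      rw [norm_neg, norm_div, Real.norm_eq_abs, Real.norm_eq_abs, abs_of_nonneg (b0 x)]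
      by_cases hx : x = 0
      · simp [hx]
      · have hx1 : 0 < |x| := abs_pos.2 hx
        rw [div_le_iff₀ hx1]
        have h4 := b2 x
        have h5 : |x| / 2 * |x| = x ^ 2 / 2 := by rw [← sq_abs]; ring
        rw [h5]
        exact h4
    have ht : Tendsto (fun ξ : ℝ => -((1 - Real.exp (-(ξ ^ 2 / 2))) / ξ)) atTop (𝓝 0) := by
      apply squeeze_zero_norm' _ tendsto_inv_atTop_zero
      filter_upwards [eventually_gt_atTop 0] with x hx
      rw [norm_neg, Real.norm_of_nonneg (div_nonneg (b0 x) hx.le), div_le_iff₀ hx,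
        inv_mul_cancel₀ hx.ne']
      exact b1 x
    have := integral_Ioi_of_hasDerivAt_of_tendsto hc hd (hI.sub hG.integrableOn) ht
    rw [this]
    simp
  rw [integral_sub hI hG.integrableOn, hGv] at hF
  linarith

theorem gDIF : GDIF := by
  intro θ hθ0 hθ1 n hn
  have hn0 : (0 : ℝ) < n := by exact_mod_cast hn
  have hSx : Sx (fun _ : Fin n => 1 / (n : ℝ)) := by
    refine ⟨fun i => by positivity, ?_⟩
    rw [Finset.sum_const, Finset.card_univ, Fintype.card_fin, nsmul_eq_mul]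
    field_simp
  have hP : ∀ θ ξ, PP θ (fun _ : Fin n => 1 / (n : ℝ)) ξ = f0 θ (1 / (n : ℝ) * ξ ^ 2) ^ n := by
    intro θ ξ
    unfold PP
    rw [Finset.prod_const, Finset.card_univ, Fintype.card_fin]
  have hV : ∀ θ, 1 / 4 ≤ θ → θ < 1 / 2 →
      IntegrableOn (fun ξ : ℝ => (1 - f0 θ (1 / (n : ℝ) * ξ ^ 2) ^ n) / ξ ^ 2) (Ioi 0) ∧
      V θ n = ∫ ξ in Ioi (0 : ℝ), (1 - f0 θ (1 / (n : ℝ) * ξ ^ 2) ^ n) / ξ ^ 2 := by
    intro θ h0 h1
    have h := (aHS (by linarith : 0 < θ) h1 (fun _ : Fin n => 1 / (n : ℝ)) hSx).1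
    simp only [hP] at h
    refine ⟨h, ?_⟩
    unfold V G
    simp only [hP]
  refine ⟨?_, ?_⟩
  · intro θ' h0' h1'
    have e : ∀ ξ : ℝ, (1 - f0 θ' (1 / (n : ℝ) * ξ ^ 2) ^ n) / ξ ^ 2 -
        (1 - f0 θ (1 / (n : ℝ) * ξ ^ 2) ^ n) / ξ ^ 2 =
        (fun x => f0 θ x ^ n - f0 θ' x ^ n) (1 / (n : ℝ) * ξ ^ 2) / ξ ^ 2 := by
      intro ξ
      simp only
      ring
    have hi := (hV θ' h0' h1').1.sub (hV θ hθ0 hθ1).1
    have hi' : IntegrableOn (fun ξ : ℝ => (fun x => f0 θ x ^ n - f0 θ' x ^ n)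
        (1 / (n : ℝ) * ξ ^ 2) / ξ ^ 2) (Ioi 0) := by
      refine IntegrableOn.congr_fun hi ?_ measurableSet_Ioi
      intro x _
      exact e x
    obtain ⟨h1, h2⟩ := subst (fun x => f0 θ x ^ n - f0 θ' x ^ n) n hn hi'
    refine ⟨h1, ?_⟩
    rw [← h2, (hV θ' h0' h1').2, (hV θ hθ0 hθ1).2, ← integral_sub (hV θ' h0' h1').1
      (hV θ hθ0 hθ1).1]
    exact integral_congr_ae (Eventually.of_forall e)
  · have e : ∀ ξ : ℝ, (1 - f0 θ (1 / (n : ℝ) * ξ ^ 2) ^ n) / ξ ^ 2 -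
        (1 - Real.exp (-(ξ ^ 2 / 2))) / ξ ^ 2 =
        (fun x => Real.exp (-(x / 2)) ^ n - f0 θ x ^ n) (1 / (n : ℝ) * ξ ^ 2) / ξ ^ 2 := by
      intro ξ
      simp only
      rw [← Real.exp_nat_mul]
      have : (n : ℝ) * -(1 / (n : ℝ) * ξ ^ 2 / 2) = -(ξ ^ 2 / 2) := by field_simp
      rw [this]
      ring
    have hi := (hV θ hθ0 hθ1).1.sub gauss.1
    have hi' : IntegrableOn (fun ξ : ℝ => (fun x => Real.exp (-(x / 2)) ^ n - f0 θ x ^ n)
        (1 / (n : ℝ) * ξ ^ 2) / ξ ^ 2) (Ioi 0) := by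
      refine IntegrableOn.congr_fun hi ?_ measurableSet_Ioi
      intro x _
      exact e x
    obtain ⟨h1, h2⟩ := subst (fun x => Real.exp (-(x / 2)) ^ n - f0 θ x ^ n) n hn hi'
    refine ⟨h1, ?_⟩
    rw [← h2, (hV θ hθ0 hθ1).2, ← gauss.2, ← integral_sub (hV θ hθ0 hθ1).1 gauss.1]
    exact integral_congr_ae (Eventually.of_forall e)

end Pool.Agent.Helper42.TH
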