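import Pool.Agent.Helper57.TH.DFINA
import Pool.Agent.Helper22.PP.DPRD
import Pool.Agent.Helper38.FD.Split
import Pool.Agent.Helper11.PP.DefsD

/-!
# Project TH: the fields of the levels of a tower
-/

set_option autoImplicit false

namespace Pool.Agent.Helper42.TH

open NumberField Module IsDedekindDomain
open Pool.Agent.Helper51.SigLeo Pool.Agent.Helper51.RP Pool.Agent.Helper42.RD
open Pool.Agent.Helper38.FD (Chr CutsOut LeopoldtFor isGalois_of_cutsOut exists_cutsOut
  exists_faithful exists_lift pow_card_desc)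
open Pool.Agent.Helper11.PP (RamIn)
open Pool.Agent.Helper22.PP (ram_sup le_of_fix)
open Pool.Agent.Helper38.TH
open Pool.Agent.Helper57.TH (tower_pow tower_ord)

variable {p : ℕ} [hpF : Fact p.Prime] {K : Type} [Field K] [NumberField K]

theorem deg_ppow {χ : Chr K (AlgebraicClosure K) ℂ_[p]}
    {H : IntermediateField K (AlgebraicClosure K)} [FiniteDimensional K H] (h : CutsOut χ H)
    {s : ℕ} (hs : ∀ g, (χ g) ^ p ^ s = 1) : ∃ l : ℕ, finrank K H = p ^ l := by
  have hg : IsGalois K H := isGalois_of_cutsOut h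
  obtain ⟨χ', hinj, hχ'⟩ := exists_faithful h
  have h1 : IsPGroup p (H ≃ₐ[K] H) := by
    intro x
    obtain ⟨g, hgx⟩ := exists_lift (H := H) x
    refine ⟨s, hinj ?_⟩
    rw [map_pow, map_one, ← hχ' g x hgx, hs g]
  have h2 := IsPGroup.iff_card.1 h1
  rw [IsGalois.card_aut_eq_finrank] at h2
  exact h2

/-- The field of `ψ₀ η m`. -/
theorem tow_F (hUNR : D_UNR) {η : ℕ → Chr K (AlgebraicClosure K) ℂ_[p]} (hη : IsTower η)
    (F₀ : IntermediateField K (AlgebraicClosure K)) (ψ₀ : Chr K (AlgebraicClosure K) ℂ_[p])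
    (hψ : CutsOut ψ₀ F₀) {s : ℕ} (hF : finrank K F₀ = p ^ s) (m : ℕ) :
    ∃ F : IntermediateField K (AlgebraicClosure K), CutsOut (ψ₀ * η m) F ∧
      (∃ l : ℕ, finrank K F = p ^ l) ∧
      ∀ v : HeightOneSpectrum (𝓞 K), RamIn F v → RamIn F₀ v ∨ (p : 𝓞 K) ∈ v.asIdeal := by
  have hp : p.Prime := hpF.out
  have hfF : FiniteDimensional K F₀ := FiniteDimensional.of_finrank_pos (by
    rw [hF]; exact pow_pos hp.pos s)
  obtain ⟨H, hfH, hH⟩ := hη.fin m
  have hfS : FiniteDimensional K (F₀ ⊔ H : IntermediateField K (AlgebraicClosure K)) :=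
    IntermediateField.finiteDimensional_sup F₀ H
  have h1 : ∀ g : AlgebraicClosure K ≃ₐ[K] AlgebraicClosure K,
      (∀ x ∈ (F₀ ⊔ H : IntermediateField K (AlgebraicClosure K)), g x = x) →
      (ψ₀ * η m) g = 1 := by
    intro g hg
    rw [MonoidHom.mul_apply, (hψ g).2 fun x hx => hg x ((le_sup_left : F₀ ≤ F₀ ⊔ H) hx),
      (hH g).2 fun x hx => hg x ((le_sup_right : H ≤ F₀ ⊔ H) hx), one_mul]
  obtain ⟨F, hfFF, hFc⟩ := exists_cutsOut (ψ₀ * η m) (F₀ ⊔ H) h1
  have hle : F ≤ F₀ ⊔ H := le_of_fix fun g hg => (hFc g).1 (h1 g hg)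
  refine ⟨F, hFc, ?_, ?_⟩
  · refine deg_ppow hFc (s := s + m) fun g => ?_
    have h2 : (ψ₀ g) ^ p ^ s = 1 := by rw [← hF]; exact pow_card_desc hψ g
    have h3 : (η m g) ^ p ^ m = 1 := tower_ord hη m g
    rw [MonoidHom.mul_apply, mul_pow, pow_add, pow_mul, h2, one_pow, one_mul, mul_comm, pow_mul,
      h3, one_pow]
  · intro v hv
    have hnF : NumberField F₀ := NumberField.of_module_finite K F₀
    have hnH : NumberField H := NumberField.of_module_finite K H
    have hnFF : NumberField F := NumberField.of_module_finite K F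
    have hnS : NumberField (F₀ ⊔ H : IntermediateField K (AlgebraicClosure K)) :=
      NumberField.of_module_finite K _
    have hgF : IsGalois K F₀ := isGalois_of_cutsOut hψ
    have hgH : IsGalois K H := isGalois_of_cutsOut hH
    let A1 : Algebra F₀ (F₀ ⊔ H : IntermediateField K (AlgebraicClosure K)) :=
      (IntermediateField.inclusion le_sup_left).toRingHom.toAlgebra
    let A2 : Algebra H (F₀ ⊔ H : IntermediateField K (AlgebraicClosure K)) :=
      (IntermediateField.inclusion le_sup_right).toRingHom.toAlgebra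
    let A3 : Algebra F (F₀ ⊔ H : IntermediateField K (AlgebraicClosure K)) :=
      (IntermediateField.inclusion hle).toRingHom.toAlgebra
    have t1 : IsScalarTower K F₀ (F₀ ⊔ H : IntermediateField K (AlgebraicClosure K)) :=
      IsScalarTower.of_algebraMap_eq fun x => rfl
    have t2 : IsScalarTower K H (F₀ ⊔ H : IntermediateField K (AlgebraicClosure K)) :=
      IsScalarTower.of_algebraMap_eq fun x => rfl
    have t3 : IsScalarTower K F (F₀ ⊔ H : IntermediateField K (AlgebraicClosure K)) :=
      IsScalarTower.of_algebraMap_eq fun x => rfl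
    have hgS : IsGalois K (F₀ ⊔ H : IntermediateField K (AlgebraicClosure K)) := inferInstance
    rcases ram_sup (K := K) (N := F₀) (N' := H) (N'' := F)
      (L := (F₀ ⊔ H : IntermediateField K (AlgebraicClosure K))) (by
        intro g hg1 hg2
        obtain ⟨g', hg'⟩ := exists_lift
          (H := (F₀ ⊔ H : IntermediateField K (AlgebraicClosure K))) g
        have h5 : ∀ x ∈ F₀, g' x = x := by
          intro x hx
          have h6 := hg' (⟨x, (le_sup_left : F₀ ≤ F₀ ⊔ H) hx⟩ : _)
          have h7 := hg1 ⟨x, hx⟩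
          rw [show (algebraMap F₀ (F₀ ⊔ H : IntermediateField K (AlgebraicClosure K)))
            ⟨x, hx⟩ = ⟨x, (le_sup_left : F₀ ≤ F₀ ⊔ H) hx⟩ from rfl] at h7
          rw [h7] at h6
          exact h6
        have h5' : ∀ x ∈ H, g' x = x := by
          intro x hx
          have h6 := hg' (⟨x, (le_sup_right : H ≤ F₀ ⊔ H) hx⟩ : _)
          have h7 := hg2 ⟨x, hx⟩
          rw [show (algebraMap H (F₀ ⊔ H : IntermediateField K (AlgebraicClosure K)))
            ⟨x, hx⟩ = ⟨x, (le_sup_right : H ≤ F₀ ⊔ H) hx⟩ from rfl] at h7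
          rw [h7] at h6
          exact h6
        have h8 : (F₀ ⊔ H : IntermediateField K (AlgebraicClosure K)) ≤
            IntermediateField.fixedField (Subgroup.zpowers g') := by
          refine sup_le ?_ ?_
          · intro x hx
            rw [IntermediateField.mem_fixedField_iff]
            intro y hy
            obtain ⟨k, rfl⟩ := Subgroup.mem_zpowers_iff.1 hy
            have h9 : g' ∈ F₀.fixingSubgroup :=
              (IntermediateField.mem_fixingSubgroup_iff _ _).2 h5
            exact (IntermediateField.mem_fixingSubgroup_iff _ _).1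
              (Subgroup.zpow_mem _ h9 k) x hx
          · intro x hx
            rw [IntermediateField.mem_fixedField_iff]
            intro y hy
            obtain ⟨k, rfl⟩ := Subgroup.mem_zpowers_iff.1 hy
            have h9 : g' ∈ H.fixingSubgroup :=
              (IntermediateField.mem_fixingSubgroup_iff _ _).2 h5'
            exact (IntermediateField.mem_fixingSubgroup_iff _ _).1
              (Subgroup.zpow_mem _ h9 k) x hx
        ext x
        have h10 := IntermediateField.mem_fixedField_iff _ _ |>.1 (h8 x.2) g'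
          (Subgroup.mem_zpowers g')
        have h11 := hg' x
        rw [AlgEquiv.one_apply]
        show ((g x : (F₀ ⊔ H : IntermediateField K (AlgebraicClosure K))) : AlgebraicClosure K) = x
        exact h11.symm.trans h10) v hv with h | h
    · exact Or.inl h
    · right
      by_contra hpv
      obtain ⟨V, -, hV⟩ := h
      exact hUNR p K η hη m H hH v hpv V hV

/-- The degrees of the levels. -/
theorem tow_deg {η : ℕ → Chr K (AlgebraicClosure K) ℂ_[p]} (hη : IsTower η)
    {ψ₀ : Chr K (AlgebraicClosure K) ℂ_[p]} {s : ℕ} (hψ : ∀ g, (ψ₀ g) ^ p ^ s = 1) (m : ℕ)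
    {J : IntermediateField K (AlgebraicClosure K)} [FiniteDimensional K J]
    (hJ : CutsOut ((ψ₀ * η m) ^ p) J) : p ^ m ≤ p ^ (s + 1) * finrank K J := by
  have hp : p.Prime := hpF.out
  have hD : 0 < finrank K J := finrank_pos
  have h1 : ∀ g, (η m g) ^ (p ^ (s + 1) * finrank K J) = 1 := by
    intro g
    have h2 := pow_card_desc hJ g
    rw [MonoidHom.pow_apply, MonoidHom.mul_apply] at h2
    have h3 : ((ψ₀ g) ^ p ^ s) ^ (p * finrank K J) * (η m g) ^ (p ^ (s + 1) * finrank K J) =
        (((ψ₀ g * η m g) ^ p) ^ finrank K J) ^ p ^ s := by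
      rw [← pow_mul, ← pow_mul, ← pow_mul, mul_pow]
      congr 1
      · congr 1
        ring
      · congr 1
        ring
    rw [h2, hψ g, one_pow, one_pow, one_mul] at h3
    exact h3
  rcases Nat.eq_zero_or_pos m with rfl | hm
  · rw [pow_zero]
    exact Nat.succ_le_of_lt (Nat.mul_pos (pow_pos hp.pos _) hD)
  · obtain ⟨g₀, hg₀⟩ : ∃ g, η 1 g ≠ 1 := by
      by_contra hcon
      push Not at hcon
      exact hη.one_ne (MonoidHom.ext hcon)
    have h4 : orderOf (η m g₀) = p ^ m := by
      obtain ⟨m', rfl⟩ : ∃ m', m = m' + 1 := ⟨m - 1, by omega⟩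
      refine orderOf_eq_prime_pow ?_ (tower_ord hη (m' + 1) g₀)
      have h5 := tower_pow hη 1 m' g₀
      rw [Nat.add_comm 1 m'] at h5
      rw [h5]
      exact hg₀
    have h6 : p ^ m ∣ p ^ (s + 1) * finrank K J := by
      rw [← h4]
      exact orderOf_dvd_of_pow_eq_one (h1 g₀)
    exact Nat.le_of_dvd (Nat.mul_pos (pow_pos hp.pos _) hD) h6

omit hpF in
theorem deg_tend {p : ℕ} (hp : 1 < p) (s n₀ : ℕ) (d : ℕ → ℕ)
    (h : ∀ l, p ^ (n₀ + l) ≤ p ^ (s + 1) * d l) :
    Filter.Tendsto (fun l => (d l : ℝ)) Filter.atTop Filter.atTop := by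
  have hp1 : (1 : ℝ) < p := by exact_mod_cast hp
  have h1 : Filter.Tendsto (fun l : ℕ => (p : ℝ) ^ l / (p : ℝ) ^ (s + 1)) Filter.atTop
      Filter.atTop :=
    (tendsto_pow_atTop_atTop_of_one_lt hp1).atTop_div_const (by positivity)
  refine Filter.tendsto_atTop_mono (fun l => ?_) h1
  rw [div_le_iff₀ (by positivity), mul_comm]
  have h2 : ((p : ℝ)) ^ (n₀ + l) ≤ (p : ℝ) ^ (s + 1) * d l := by exact_mod_cast h l
  exact (pow_le_pow_right₀ hp1.le (by omega)).trans h2

end Pool.Agent.Helper42.TH
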