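import Pool.Agent.Helper42.TH.MomZ
import Pool.Agent.Helper42.TH.GoalsAL
import Pool.Agent.Helper42.TH.AsmZ
import Pool.Agent.Helper42.TH.Tow
import Pool.Agent.Helper11.TH.ZDEN
import Pool.Agent.Helper42.WY.DEN2I
import Pool.Agent.Helper38.FY.Cnj
import Pool.Agent.Helper38.TH.AsmD

/-!
# Project TH: the density theorem for infinitely many levels (`WOUT`)
-/

set_option autoImplicit false

namespace Pool.Agent.Helper42.TH

open NumberField Polynomial Module IsDedekindDomain TensorProduct Pool.Agent.Helper51.SigLeo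
open Pool.Agent.Helper51.RP Pool.Agent.Helper42.RD Pool.Agent.Helper11.LE Pool.Agent.Helper11.PP
open Pool.Agent.Helper42.PP Pool.Agent.Helper42.PP1 Pool.Agent.Helper42.PB Pool.Agent.Helper42.PW
open Pool.Agent.Helper38.FD (Chr CutsOut LeopoldtFor IsOrdinary isGalois_of_cutsOut)
open Pool.Agent.Helper77.PPB
open Pool.Agent.Helper11.R (NTV2)
open Pool.Agent.Helper11.PB (tc_up)
open Pool.Agent.Helper38.FW (G_WT G_ASM momA_mono IsOmega OmegaAt not_isOmega norm_chr LocE cntE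
  condP)
open Pool.Agent.Helper38.WY Pool.Agent.Helper42.WY
open Pool.Agent.Helper38.TH

theorem zden' : ZDEN := fun K E _ _ _ _ _ _ => Pool.Agent.Helper11.TH.zden K E ∅

/-- The order of the residue field is larger than `2`. -/
theorem q_gt {p m : ℕ} (hp : p.Prime) (hm : 1 < m) (hc : m.Coprime p) :
    (2 : ℝ) < (p : ℝ) ^ orderOf (p : ZMod m) := by
  have : NeZero m := ⟨by omega⟩
  have h1 : 0 < orderOf (p : ZMod m) := by
    obtain ⟨u, hu⟩ := (ZMod.isUnit_iff_coprime p m).2 hc.symm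
    rw [← hu, orderOf_units]
    exact orderOf_pos u
  have h2 : 2 < p ^ orderOf (p : ZMod m) := by
    rcases Nat.lt_or_ge 2 p with h | h
    · calc 2 < p := h
        _ = p ^ 1 := (pow_one p).symm
        _ ≤ _ := Nat.pow_le_pow_right hp.pos h1
    · have hp2 : p = 2 := le_antisymm h hp.two_le
      subst hp2
      have h3 : orderOf ((2 : ℕ) : ZMod m) ≠ 1 := by
        intro h4
        rw [orderOf_eq_one_iff] at h4
        have h5 : ((2 : ℕ) : ZMod m) = ((1 : ℕ) : ZMod m) := by rw [h4, Nat.cast_one]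
        rw [ZMod.natCast_eq_natCast_iff'] at h5
        rcases Nat.lt_or_ge 2 m with h6 | h6
        · rw [Nat.mod_eq_of_lt h6, Nat.mod_eq_of_lt (by omega)] at h5
          omega
        · have h7 : m = 2 := by omega
          rw [h7] at hc
          norm_num at hc
      have h8 : 2 ≤ orderOf ((2 : ℕ) : ZMod m) := by omega
      calc 2 < 2 ^ 2 := by norm_num
        _ ≤ _ := Nat.pow_le_pow_right (by norm_num) h8
  exact_mod_cast h2

section

variable {p : ℕ} [hpF : Fact p.Prime] {K : Type} [Field K] [NumberField K]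

/-- The degrees of the fields `M₂ l` tend to infinity. -/
theorem deg_M₂ {η : ℕ → Chr K (AlgebraicClosure K) ℂ_[p]} (hη : IsTower η)
    {ψ₀ : Chr K (AlgebraicClosure K) ℂ_[p]} {s : ℕ} (hψ : ∀ g, (ψ₀ g) ^ p ^ s = 1) (n₀ : ℕ)
    (J : ℕ → IntermediateField K (AlgebraicClosure K)) [∀ l, NumberField (J l)]
    (hJ : ∀ l, CutsOut ((ψ₀ * η (n₀ + l)) ^ p) (J l)) (l : ℕ) :
    p ^ (n₀ + l) ≤ p ^ (s + 1) * finrank K (J l) := by
  have : FiniteDimensional K (J l) := Module.Finite.of_restrictScalars_finite ℚ K (J l)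
  exact tow_deg hη hψ (n₀ + l) (hJ l)

omit hpF in
theorem fin_le {J M₂ : Type} [Field J] [NumberField J] [Field M₂] [NumberField M₂]
    [Algebra K J] [Algebra K M₂] [Algebra J M₂] [IsScalarTower K J M₂] :
    finrank K J ≤ finrank K M₂ := by
  have h1 := Module.finrank_mul_finrank K J M₂
  have : FiniteDimensional J M₂ := Module.Finite.of_restrictScalars_finite ℚ J M₂
  have h2 : 0 < finrank J M₂ := finrank_pos
  rw [← h1]
  exact Nat.le_mul_of_pos_right _ h2

end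

/-- The density theorem for infinitely many levels. -/
theorem denZ (hG : AL_GEN) (hSD : AL_SD) (hO : AL_ONE) (hM1 : MTG1V) (hCLB : CLB) (hEXA : EXA)
    (hREL : T_REL) (p : ℕ) [hpF : Fact p.Prime] (K : Type) [Field K] [NumberField K]
    (ιinf : AlgebraicClosure K →+* ℂ) (ιp : AlgebraicClosure K →+* ℂ_[p])
    (Lg : IwasawaLog p ℂ_[p]) (S : Set (K →+* ℂ)) (hCM : IsCMType S) (hord : IsOrdinary ιinf ιp S)
    (M F₀ : IntermediateField K (AlgebraicClosure K))
    (χ₀ ψ₀ : Chr K (AlgebraicClosure K) ℂ_[p]) [hfM : FiniteDimensional K M] (hχ : CutsOut χ₀ M)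
    (hcop : (finrank K M).Coprime p) (hom : ¬ IsOmega χ₀) (hψ : CutsOut ψ₀ F₀) {s : ℕ}
    (hF : finrank K F₀ = p ^ s) (η : ℕ → Chr K (AlgebraicClosure K) ℂ_[p]) (hη : IsTower η)
    (n₀ : ℕ) (hn₀ : s + 2 ≤ n₀)
    (A : Set (IntermediateField K (AlgebraicClosure K) × Chr K (AlgebraicClosure K) ℂ_[p]))
    (hA : LocC p K A)
    (e : IntermediateField K (AlgebraicClosure K) × Chr K (AlgebraicClosure K) ℂ_[p] → ℕ)
    (he : LocE p K e) :
  ∀ η' : ℝ, 0 < η' → ∀ᶠ X : ℕ in Filter.atTop,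
    cntE e {x | x ∈ A ∧ ∀ l, ¬ ∀ l' : ℕ,
      GoodX ιinf ιp Lg S (χ₀ ^ p ^ l') (ψ₀ * η (n₀ + l)) x} X ≤ η' * cntE e A X := by
  classical
  have hp : p.Prime := hpF.out
  have hSW := Pool.Agent.Helper74.PPB.b_swt
  have hNT := Pool.Agent.Helper58.PPB.b_ntv
  have hNT2 := Pool.Agent.Helper91.PPB.b_ntv2
  have hPH := Pool.Agent.Helper22.RP.s_phi
  have hNS := Pool.Agent.Helper11.RP.s_nsp
  have hFR := Pool.Agent.Helper20.RD.e_frb
  have htc : IsTotallyComplex K := Pool.Agent.Helper35.RD.totallyComplex_of_cm hCM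
  have hcl : PlaceClosed (TSet ιinf ιp S) := Pool.Agent.Helper35.RD.tset_closed ιinf ιp S hord
  have hcard : finrank ℚ K = 2 * (TSet ιinf ιp S).ncard := by
    rw [Pool.Agent.Helper35.RD.tset_ncard, Pool.Agent.Helper35.RD.two_mul_ncard_cm hCM]
  have hrk : Units.rank K + 1 ≤ (TSet ιinf ιp S).ncard := Pool.Agent.Helper32.LE.rank_cm ιinf ιp S hCM
  have hp0 : (0 : ℝ) < p := by exact_mod_cast hp.pos
  have hp1 : (1 : ℝ) < p := by exact_mod_cast hp.one_lt
  have hfF : FiniteDimensional K F₀ := FiniteDimensional.of_finrank_pos (by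
    rw [hF]; exact pow_pos hp.pos s)
  have hnF₀ : NumberField F₀ := NumberField.of_module_finite K F₀
  have hψs : ∀ g, (ψ₀ g) ^ p ^ s = 1 := fun g => by
    rw [← hF]; exact Pool.Agent.Helper38.FD.pow_card_desc hψ g
  -- the fields
  choose F hFc hFd hFr using fun l : ℕ => tow_F Pool.Agent.Helper32.TH.d_unr hη F₀ ψ₀ hψ hF (n₀ + l)
  have hpK : (p : K) ≠ 0 := by exact_mod_cast hp.ne_zero
  have hSf : {v : HeightOneSpectrum (𝓞 K) | v.valuation K (p : K) < 1}.Finite :=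
    (Pool.Agent.Helper99.RS.finite_bad hpK).subset fun v hv => ne_of_lt hv
  have hpv : ∀ v : HeightOneSpectrum (𝓞 K), (p : 𝓞 K) ∈ v.asIdeal →
      v.valuation K (p : K) < 1 := by
    intro v hv
    have h1 := (HeightOneSpectrum.valuation_lt_one_iff_mem (K := K) v (p : 𝓞 K)).2 hv
    simpa using h1
  refine asmZ Pool.Agent.Helper77.PPL.d_map Pool.Agent.Helper39.PPB.b_chr
    Pool.Agent.Helper14.PW.w_ldt Pool.Agent.Helper5.PW.w_pro Pool.Agent.Helper32.FW.g_wt
    Pool.Agent.Helper49.FW.g_asm p K ιinf ιp Lg S F χ₀ (fun l => ψ₀ * η (n₀ + l))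
    ({v | RamIn F₀ v} ∪ {v : HeightOneSpectrum (𝓞 K) | v.valuation K (p : K) < 1})
    ((Pool.Agent.Helper95.PP.ram_finite K F₀).union hSf)
    (fun v hv l hl => hv ((hFr l v hl).imp id (hpv v))) ?_ A hA e he
  intro K₁ _ ε ε₁ εk nf cf hε hK₁ hε₁ hC hεk n1 n5
  have hgK : IsGalois K K₁ := hC.gal
  have htc₁ : IsTotallyComplex K₁ := tc_up K K₁
  have hnz : ∃ (g : AlgebraicClosure K ≃ₐ[K] AlgebraicClosure K) (r : ℕ),
      (∀ ξ : AlgebraicClosure K, ξ ^ p = 1 → g ξ = ξ ^ r) ∧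
      ‖((χ₀ g : ℂ_[p]ˣ) : ℂ_[p]) - r‖ = 1 := not_isOmega hom (norm_chr hχ)
  have hset : ∀ (B : ℕ → Set (ClP p K₁)), {c | ∀ l, c ∈ B l} = {c | ∀ n, 0 ≤ n → c ∈ B n} := by
    intro B
    ext c
    exact ⟨fun h n _ => h n, fun h n => h n (Nat.zero_le n)⟩
  by_cases hM : M = ⊥
  · -- `χ₀ = 1`, no roots of unity
    have hχ1 : χ₀ = 1 := by
      ext g
      have h1 : χ₀ g = 1 := by
        rw [hχ g, hM]
        intro x hx
        obtain ⟨y, rfl⟩ := IntermediateField.mem_bot.1 hx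
        exact g.commutes y
      rw [h1]
      rfl
    have hμ := no_root hχ1 hnz
    have hp3 : 3 ≤ p := by
      by_contra hlt
      have hp2 : p = 2 := by have := hp.two_le; omega
      subst hp2
      exact hμ ⟨-1, IsPrimitiveRoot.neg_one 0 (by norm_num)⟩
    rw [hχ1]
    refine y_cls0Z a_ykum a_zgl0 p K ιinf ιp Lg hμ K₁ ε₁ hC εk hεk nf cf n1 n5 S hcl F _
      hFc hFd _ ?_
    intro J M₂ _ _ _ _ a₀ hJ hM₂ hval hB
    have hgJ := deg_M₂ hη hψs n₀ J hJ
    have := hB 0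
    have hirr : Fact (Irreducible (X - 1 : (ZMod p)[X])) := ⟨(hB 0).sit.irr⟩
    have hP0 : (X - 1 : (ZMod p)[X]) ≠ 0 := (hB 0).sit.irr.ne_zero
    have hfinA : Module.Finite (ZMod p) (AdjoinRoot (X - 1 : (ZMod p)[X])) :=
      (AdjoinRoot.powerBasis hP0).finite
    have hfA : Finite (AdjoinRoot (X - 1 : (ZMod p)[X])) := Module.finite_of_finite (ZMod p)
    let instA : Fintype (AdjoinRoot (X - 1 : (ZMod p)[X])) := Fintype.ofFinite _
    have hp3r : (3 : ℝ) ≤ p := by exact_mod_cast hp3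
    rw [hset]
    refine momZ hM1 hCLB hEXA hREL a_ysel' zden' p Lg K K K₁ K₁ (fun l => J l) (fun l => M₂ l)
      ε₁ (1 : K ≃ₐ[K] K) (X - 1) a₀ hB ?_ (TSet ιinf ιp S) (1 / ((p : ℝ) - 1))
      (by have : (0 : ℝ) < (p : ℝ) - 1 := by linarith
          positivity)
      (by rw [div_lt_one (by linarith)]; linarith)
      (hO p Lg K K₁ (fun l => J l) (fun l => M₂ l) ε₁ a₀ hB hμ ?_ (TSet ιinf ιp S) hcl hrk) 0
    · refine deg_tend hp.one_lt s n₀ _ fun l => (hgJ l).trans (Nat.mul_le_mul_left _ ?_)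
      have := (hB l).t4
      exact fin_le
    · intro l
      have t4 := (hB l).t4
      have hgM₂ := (hB l).gM₂
      obtain ⟨d, hd⟩ := (hB l).degJ
      have t3 : IsScalarTower K K₁ (M₂ l) := (hB l).t1
      have hcopK : (finrank K K₁).Coprime p := by
        have h1 := Pool.Agent.Helper14.RD.finrank_dvd_pred p K K₁ ε₁ hC.prim hC.gen
        exact Nat.Coprime.coprime_dvd_left h1 ((Nat.coprime_self_sub_left
          (Fact.out : p.Prime).one_le).2 (Nat.coprime_one_left p))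
      have h1 : finrank K K₁ ∣ finrank K (M₂ l) :=
        ⟨_, (Module.finrank_mul_finrank K K₁ (M₂ l)).symm⟩
      have h2 : finrank K (J l) ∣ finrank K (M₂ l) :=
        ⟨_, (Module.finrank_mul_finrank K (J l) (M₂ l)).symm⟩
      have h3 : Nat.Coprime (finrank K K₁) (finrank K (J l)) := by
        rw [hd]
        exact Nat.Coprime.pow_right d hcopK
      have h4 := Nat.Coprime.mul_dvd_of_dvd_of_dvd h3 h1 h2
      have h5 : 0 < finrank K (M₂ l) := finrank_pos
      have h6 : finrank K K₁ * finrank K (J l) ≤ finrank K (M₂ l) := Nat.le_of_dvd h5 h4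
      have h7 : 2 ≤ finrank K (J l) := by
        have h8 : p ^ (s + 1) * p ≤ p ^ (s + 1) * finrank K (J l) := by
          refine le_trans ?_ (hgJ l)
          rw [← pow_succ]
          exact Nat.pow_le_pow_right hp.pos (by omega)
        have h9 := Nat.le_of_mul_le_mul_left h8 (pow_pos hp.pos _)
        exact hp.two_le.trans h9
      calc 2 * finrank K K₁ = finrank K K₁ * 2 := mul_comm _ _
        _ ≤ finrank K K₁ * finrank K (J l) := Nat.mul_le_mul_left _ h7
        _ ≤ _ := h6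
  · -- `χ₀ ≠ 1`
    have hm1 : 1 < finrank K M := by
      have h1 : 0 < finrank K M := finrank_pos
      by_contra h2
      exact hM (IntermediateField.finrank_eq_one_iff.1 (by omega))
    have hQ := q_gt hp hm1 hcop
    refine y_cls1Z a_ykum hSW hNT a_zgl1 hPH hNS hFR p K ιinf ιp Lg K₁ ε hε hK₁ ε₁ hε₁ εk hεk
      nf cf n1 n5 S hcl M χ₀ hχ hcop hnz hM F _ hFc hFd (fun Bd => MomA p K ε₁ Bd 0) ?_
    intro M₁ J M₂ _ _ _ _ _ _ _ _ _ _ _ χM δ Φ P a₀ hχM hJ hb
    have hgJ := deg_M₂ hη hψs n₀ J hJ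
    have hirr : Fact (Irreducible P) := ⟨(hb 0).sit.sit.irr⟩
    have hP0 : P ≠ 0 := (hb 0).sit.sit.irr.ne_zero
    have hfinA : Module.Finite (ZMod p) (AdjoinRoot P) := (AdjoinRoot.powerBasis hP0).finite
    have hfA : Finite (AdjoinRoot P) := Module.finite_of_finite (ZMod p)
    let instA : Fintype (AdjoinRoot P) := Fintype.ofFinite _
    have hdg := Pool.Agent.Helper77.PPL.phi_deg (hb 0).phi
    have hQ' : (2 : ℝ) < (p : ℝ) ^ P.natDegree := by rw [hdg]; exact hQ
    have hdeg : Filter.Tendsto (fun l => (finrank K (M₂ l) : ℝ)) Filter.atTop Filter.atTop := by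
      refine deg_tend hp.one_lt s n₀ _ fun l => (hgJ l).trans (Nat.mul_le_mul_left _ ?_)
      have := (hb l).sit.t4
      exact fin_le
    have hωM : ∃ (g : AlgebraicClosure K ≃ₐ[K] AlgebraicClosure K) (r : ℕ),
        (∀ ξ : AlgebraicClosure K, ξ ^ p = 1 → g ξ = ξ ^ r) ∧
        ‖((χM (AlgEquiv.restrictNormalHom M g) : ℂ_[p]ˣ) : ℂ_[p]) - r‖ = 1 := by
      obtain ⟨g, r, h4, h5⟩ := hnz
      exact ⟨g, r, h4, by rw [← hχM g]; exact h5⟩
    rw [hset]
    by_cases hsd : ∃ j : ℕ, IsOmega (χ₀ ^ (1 + p ^ j))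
    · -- the self-dual or unitary case
      obtain ⟨j, hj, hj', hlt⟩ : ∃ j : ℕ, IsOmega (χ₀ ^ (1 + p ^ j)) ∧
          (j = 0 ∨ P.natDegree = 2 * j) ∧
          (p : ℝ) ^ j / ((p : ℝ) ^ P.natDegree - 1) < 1 := by
        by_cases h2 : IsOmega (χ₀ ^ 2)
        · refine ⟨0, by rw [pow_zero]; exact h2, Or.inl rfl, ?_⟩
          rw [pow_zero, div_lt_one (by linarith)]
          linarith
        · obtain ⟨j, hj1, hj2⟩ := Pool.Agent.Helper38.FY.unitary hχ hcop hsd h2
          refine ⟨j, hj1, Or.inr (by rw [hdg, hj2]), ?_⟩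
          rw [div_lt_one (by linarith), hdg, hj2, mul_comm 2 j, pow_mul]
          rw [hj2, mul_comm 2 j, pow_mul] at hQ
          have h6 : (1 : ℝ) ≤ (p : ℝ) ^ j := one_le_pow₀ hp1.le
          have h7 : (2 : ℝ) ≤ (p : ℝ) ^ j := by
            rcases Nat.eq_zero_or_pos j with h8 | h8
            · rw [h8] at hQ
              norm_num at hQ
            · have h9 : (2 : ℝ) ≤ p := by exact_mod_cast hp.two_le
              calc (2 : ℝ) ≤ p := h9
                _ = (p : ℝ) ^ 1 := (pow_one _).symm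
                _ ≤ _ := pow_le_pow_right₀ hp1.le h8
          nlinarith
      obtain ⟨hnt3, hsd3⟩ := Pool.Agent.Helper62.WY.y_nt3 p K M K₁ M₁ (hb 0).v1 (hb 0).v2 ε₁ δ P
        (hb 0).sit.sit χM Φ (hb 0).ord (hb 0).phi hωM
      exact momZ hM1 hCLB hEXA hREL a_ysel' zden' p Lg K M K₁ M₁ (fun l => J l) (fun l => M₂ l)
        ε₁ δ P a₀ (fun l => (hb l).sit) hdeg (TSet ιinf ιp S) _
        (div_nonneg (by positivity) (by linarith)) hlt
        (hSD p Lg K M K₁ M₁ (fun l => J l) (fun l => M₂ l) ε₁ δ P a₀ (fun l => (hb l).sit) hnt3 j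
          (hsd3 j (fun g r hg => by
            have h5 := hj g r hg
            rw [← hχM g, ← Units.val_pow_eq_pow_val, ← MonoidHom.pow_apply]
            exact h5)) hj' _ _ Φ (hb 0).phi rfl (hb 0).tor (TSet ιinf ιp S) hcl hcard) 0
    · -- the general case
      push Not at hsd
      have hntv2 := hNT2 p K M K₁ M₁ (hb 0).v1 (hb 0).v2 ε₁ δ P (hb 0).sit.sit χM Φ (hb 0).ord
        (hb 0).phi hωM (by
        intro j
        have h9 : ∀ g, ‖(((χ₀ ^ (1 + p ^ j)) g : ℂ_[p]ˣ) : ℂ_[p])‖ = 1 := fun g ↦ by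
          rw [MonoidHom.pow_apply, Units.val_pow_eq_pow_val, norm_pow, norm_chr hχ g, one_pow]
        obtain ⟨g, r, h4, h5⟩ := not_isOmega (hsd j) h9
        refine ⟨g, r, h4, ?_⟩
        rw [← hχM g, ← Units.val_pow_eq_pow_val, ← MonoidHom.pow_apply]
        exact h5)
      exact momZ hM1 hCLB hEXA hREL a_ysel' zden' p Lg K M K₁ M₁ (fun l => J l) (fun l => M₂ l)
        ε₁ δ P a₀ (fun l => (hb l).sit) hdeg (TSet ιinf ιp S) _
        (div_nonneg (by positivity) (by linarith))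
        (by rw [div_lt_one (by linarith)]; linarith)
        (hG p Lg K M K₁ M₁ (fun l => J l) (fun l => M₂ l) ε₁ δ P a₀ (fun l => (hb l).sit) hntv2
          _ _ Φ (hb 0).phi rfl (hb 0).tor (TSet ιinf ιp S) hcl hcard) 0

end Pool.Agent.Helper42.TH
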