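import Pool.Agent.Helper42.WY.DEN2F
import Pool.Agent.Helper96.M3.AOMS

/-!
# Project TH: the functionals at all the levels, `χ₀ ≡ ω`
-/

set_option autoImplicit false

namespace Pool.Agent.Helper42.TH

open NumberField Polynomial Module IsDedekindDomain
open Pool.Agent.Helper51.RP Pool.Agent.Helper42.RD Pool.Agent.Helper42.PP Pool.Agent.Helper42.PP1
open Pool.Agent.Helper51.SigLeo Pool.Agent.Helper11.LE Pool.Agent.Helper11.PP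
open Pool.Agent.Helper17.PP (Sys)
open Pool.Agent.Helper42.PB Pool.Agent.Helper76.PB Pool.Agent.Helper42.PW Pool.Agent.Helper38.WY
open Pool.Agent.Helper11.PB (tc_up)
open Pool.Agent.Helper38.ND
open Pool.Agent.Helper42.WY
open Pool.Agent.Helper94.PP1 (rank1)

/-- `χ₀ ≡ ω ≠ 1`. -/
theorem extO (p : ℕ) [hpF : Fact p.Prime] (L : IwasawaLog p ℂ_[p])
    (K K₁ : Type) [Field K] [NumberField K] [IsTotallyComplex K] [Field K₁] [NumberField K₁]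
    [Algebra K K₁] (J M₂ : ℕ → Type) [∀ l, Field (J l)] [∀ l, NumberField (J l)]
    [∀ l, Field (M₂ l)] [∀ l, NumberField (M₂ l)] [∀ l, Algebra K (J l)] [∀ l, Algebra K (M₂ l)]
    [∀ l, Algebra K₁ (M₂ l)] [∀ l, Algebra (J l) (M₂ l)] (ε : K₁)
    (δ : K₁ ≃ₐ[K] K₁) (i : ℕ) (a₀ : ∀ l, (M₂ l)ˣ)
    (hs : ∀ l, SitB p K K₁ K₁ K₁ (J l) (M₂ l) ε δ (X - C (i : ZMod p)) (a₀ l))
    (ζ : ℂ_[p]) (Φ : ℤ_[p][X]) (hPhi : PhiData p (finrank K K₁) ζ Φ (X - C (i : ZMod p)))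
    (T : Set (K →+* ℂ_[p])) (hTc : PlaceClosed T) (hd : finrank ℚ K = 2 * T.ncard)
    (B : Base p K K₁ K₁ K₁ ε δ (X - C (i : ZMod p))) :
    ∃ n : ℕ, B.r ≤ n + 1 ∧ ∀ (l : ℕ) (_ : BaseB B (a₀ l)) (aτ : K₁ˣ), OmType p K ε (aτ : K₁) →
      ∃ E : TauX n B (a₀ l) T aτ, NrmInd E.toTauF (M₂ l) := by
  classical
  have hcK : IsTotallyComplex K₁ := tc_up K K₁
  have hne : Nonempty (AlgebraicClosure ℚ →+* ℂ_[p]) :=
    Pool.Agent.Helper35.RD.nonempty_hom ℚ ℂ_[p]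
  have := (hs 0).sit.gM
  have hord : orderOf δ = finrank K K₁ := (hs 0).sit.ord
  have hPX : AdjoinRoot.root (X - C (i : ZMod p)) ≠ 1 := by
    intro h
    have h2 := hPhi.cop 1 one_pos hPhi.one_lt (one_dvd _)
    have h3 : (X - C (i : ZMod p)) ∣ X ^ 1 - 1 := by
      rw [← AdjoinRoot.mk_eq_zero, pow_one, map_sub, AdjoinRoot.mk_X, map_one, h, sub_self]
    exact (hs 0).sit.irr.not_isUnit (h2.isUnit_of_dvd' dvd_rfl h3)
  have lob : S_LOB := Pool.Agent.Helper32.RP.s_lob Pool.Agent.Helper90.RP.s_sub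
    Pool.Agent.Helper59.RP.s_bin (Pool.Agent.Helper39.RP.s_sig Pool.Agent.Helper95.RP.s_lat)
    Pool.Agent.Helper99.RP.s_prm
  obtain ⟨hSf, hst, hSp, -, -, -, -⟩ := Pool.Agent.Helper16.PP.p_upr p K K₁ B.S
  obtain ⟨s₀, hs₀⟩ := Pool.Agent.Helper90.RP.Dual.dvd_ncard (K := K) (finrank K K₁) rfl
    {w ∈ up K₁ B.S | FreeP K w} (hSf.subset fun w hw => hw.1)
    (fun w hw v hv => ⟨hst w hw.1 v hv, free_of_conj hv hw.2⟩)
    (fun w hw => hw.2)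
  have hr : B.r ≤ T.ncard + s₀ + 1 :=
    f_rnk p ℂ_[p] K K₁ K₁ K₁ ε (finrank K K₁) T.ncard s₀ δ ζ Φ (X - C (i : ZMod p)) hPhi
      (natDegree_X_sub_C _) hord rfl hd B hSf hst hs₀
  refine ⟨T.ncard + s₀, hr, fun l D aτ haτ => ?_⟩
  obtain ⟨E⟩ := a_yext p K K₁ K₁ K₁ (J l) (M₂ l) ε δ (X - C (i : ZMod p)) (a₀ l) (hs l) L T B aτ
    haτ (T.ncard + s₀) (fun 𝔪₀ v hv =>
      lob p ℂ_[p] hne L K K₁ (finrank K K₁) s₀ δ ζ Φ (X - C (i : ZMod p)) hPhi hord rfl T hTc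
        (up K₁ B.S) 𝔪₀ v hv hs₀)
  exact ⟨E, f_aln a_fline p K K₁ K₁ K₁ (J l) (M₂ l) ε δ (X - C (i : ZMod p)) (a₀ l) (hs l) hPX B
    D _ E.toTauF⟩

/-- `χ₀ = 1 ≡ ω`. -/
theorem extO0 (p : ℕ) [hpF : Fact p.Prime] (hp2 : p ≠ 2) (L : IwasawaLog p ℂ_[p])
    (K K₁ : Type) [Field K] [NumberField K] [IsTotallyComplex K] [Field K₁] [NumberField K₁]
    [Algebra K K₁] (J M₂ : ℕ → Type) [∀ l, Field (J l)] [∀ l, NumberField (J l)]
    [∀ l, Field (M₂ l)] [∀ l, NumberField (M₂ l)] [∀ l, Algebra K (J l)] [∀ l, Algebra K (M₂ l)]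
    [∀ l, Algebra K₁ (M₂ l)] [∀ l, Algebra (J l) (M₂ l)] (ε : K₁) (a₀ : ∀ l, (M₂ l)ˣ)
    (hs : ∀ l, SitB p K K K₁ K₁ (J l) (M₂ l) ε (1 : K ≃ₐ[K] K) (X - 1) (a₀ l))
    (hε : ∃ ε₀ : K, algebraMap K K₁ ε₀ = ε) (hJ : ∀ l, finrank K (J l) ≠ 1)
    (T : Set (K →+* ℂ_[p])) (hd : finrank ℚ K = 2 * T.ncard)
    (B : Base p K K K₁ K₁ ε (1 : K ≃ₐ[K] K) (X - 1)) :
    ∃ n : ℕ, B.r ≤ n + 1 ∧ ∀ (l : ℕ) (_ : BaseB B (a₀ l)) (aτ : K₁ˣ), OmType p K ε (aτ : K₁) →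
      ∃ E : TauX n B (a₀ l) T aτ, NrmInd E.toTauF (M₂ l) := by
  classical
  obtain ⟨ε₀, hε₀⟩ := hε
  have := (hs 0).sit.gK
  have hC : Cyc p K K₁ ε := ⟨(hs 0).sit.prim, (hs 0).sit.gK, (hs 0).sit.gen⟩
  have hr := rank1 Pool.Agent.Helper88.LE.l_sun hC.prim hC.gen B
  have hu : urk p K = Units.rank K + 1 := by
    unfold urk
    rw [if_pos]
    exact ⟨ε₀, IsPrimitiveRoot.of_map_of_injective (f := algebraMap K K₁)
      (by rw [hε₀]; exact hC.prim) (algebraMap K K₁).injective⟩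
  have hT : Units.rank K + 1 = T.ncard := by
    have h1 := IsTotallyComplex.finrank K
    have h2 : Fintype.card (InfinitePlace K) =
        InfinitePlace.nrRealPlaces K + InfinitePlace.nrComplexPlaces K :=
      InfinitePlace.card_eq_nrRealPlaces_add_nrComplexPlaces K
    rw [IsTotallyComplex.nrRealPlaces_eq_zero, zero_add] at h2
    unfold Units.rank
    have hT0 : 0 < finrank ℚ K := finrank_pos
    omega
  rw [hu, hT] at hr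
  refine ⟨B.S.card + T.ncard - 1, by omega, fun l D aτ haτ => ?_⟩
  refine (y_ex1 a_yext a_fline p hp2 L K K₁ (J l) (M₂ l) ε (a₀ l) (hs l) T B D aτ haτ).2 ?_
  have h0 : 0 < finrank K (J l) := finrank_pos
  have := hJ l
  omega

end Pool.Agent.Helper42.TH
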