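import Pool.Agent.Helper42.TH.LevO

/-!
# Project TH (MP_fc6b1e_nt): one level, and one class with infinitely many levels, `χ₀ = 1 ≡ ω`
-/

set_option autoImplicit false

namespace Pool.Agent.Helper42.TH

open NumberField Polynomial Module IsDedekindDomain TensorProduct Pool.Agent.Helper51.SigLeo
open Pool.Agent.Helper51.RP Pool.Agent.Helper42.RD Pool.Agent.Helper11.LE Pool.Agent.Helper11.PP
open Pool.Agent.Helper38.FD (Chr CutsOut LeopoldtFor IsOrdinary isGalois_of_cutsOut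
  free_of_splits splits_of_free ordv_of_unram exists_cutsOut exists_faithful exists_lift fix_sup
  pow_card_desc Restricts)
open Pool.Agent.Helper42.PP (LocS)
open Pool.Agent.Helper42.PP1 (SitW NTV sitW_one above_self)
open Pool.Agent.Helper42.PB (SitB)
open Pool.Agent.Helper77.PPB
open Pool.Agent.Helper22.PP (ram_sup le_of_fix)
open Pool.Agent.Helper42.PW (eq_one_of_pow)
open Pool.Agent.Helper38.FW (OmegaAt IsOmega)
open Pool.Agent.Helper38.WY Pool.Agent.Helper42.WY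

/-- One level, `χ₀ = 1 ≡ ω`. -/
theorem levO0 (hKU : Y_KUM) (hGL : O_GL0)
    (p : ℕ) [hpF : Fact p.Prime] (hp2 : p ≠ 2) (K : Type) [Field K] [NumberField K]
    (ιinf : AlgebraicClosure K →+* ℂ) (ιp : AlgebraicClosure K →+* ℂ_[p]) (Lg : IwasawaLog p ℂ_[p])
    (K₁ : IntermediateField K (AlgebraicClosure K)) [NumberField K₁] (ε₁ : K₁)
    (hC : Cyc p K K₁ ε₁) (h1K : K₁ = ⊥) (εk : ℂ_[p]ˣ) (hεk : IsPrimitiveRoot εk p)
    (nf : ClP p K₁ → IntermediateField K (AlgebraicClosure K))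
    (cf : ClP p K₁ → Chr K (AlgebraicClosure K) ℂ_[p])
    (n1 : ∀ c ∈ BSet p K ε₁, nf c ∈ CycN p K ∧
      ∀ a : (K₁)ˣ, clp p a = c → Gen p (K₁.val : K₁ →+* AlgebraicClosure K) a (nf c))
    (n5 : ∀ c ∈ BSet p K ε₁, CutsOut (cf c) (nf c) ∧ ∀ a : (K₁)ˣ, clp p a = c →
      ∀ s : AlgebraicClosure K, s ^ p = (K₁.val : K₁ →+* AlgebraicClosure K) (a : K₁) →
      ∀ g : AlgebraicClosure K ≃ₐ[K] AlgebraicClosure K,
        (∀ x : K₁, g ((K₁.val : K₁ →+* AlgebraicClosure K) x) =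
          (K₁.val : K₁ →+* AlgebraicClosure K) x) → ∀ i : ℕ,
        g s = (K₁.val : K₁ →+* AlgebraicClosure K) ε₁ ^ i * s → cf c g = εk ^ i)
    (S : Set (K →+* ℂ)) (hcl : PlaceClosed (TSet ιinf ιp S))
    (F₀ : IntermediateField K (AlgebraicClosure K)) (ψ₀ : Chr K (AlgebraicClosure K) ℂ_[p])
    (hψ : CutsOut ψ₀ F₀) (hF : ∃ l : ℕ, finrank K F₀ = p ^ l) :
    (∃ ε₀ : K, algebraMap K K₁ ε₀ = ε₁) ∧
    ∃ (J M₂ : IntermediateField K (AlgebraicClosure K)) (_ : NumberField J) (_ : NumberField M₂)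
      (_ : Algebra K₁ M₂) (_ : Algebra J M₂) (a₀ : (M₂)ˣ),
      CutsOut (ψ₀ ^ p) J ∧ M₂ = K₁ ⊔ J ∧
      (∀ x : K₁, ((algebraMap K₁ M₂ x : M₂) : AlgebraicClosure K) = x) ∧
      SitB p K K K₁ K₁ J M₂ ε₁ (1 : K ≃ₐ[K] K) (X - 1) a₀ ∧
      ∀ c ∈ BSet p K ε₁, (∃ v : HeightOneSpectrum (𝓞 K), RamIn (nf c) v ∧ ¬ RamIn F₀ v) →
        c ∉ BdO (TSet ιinf ιp S) (X - 1 : (ZMod p)[X]) (1 : K ≃ₐ[K] K) ε₁ a₀ → ∀ l : ℕ,
        GoodX ιinf ιp Lg S ((1 : Chr K (AlgebraicClosure K) ℂ_[p]) ^ p ^ l) ψ₀ (nf c, cf c) := by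
  classical
  have hp : p.Prime := hpF.out
  have hgK : IsGalois K K₁ := hC.gal
  have hfK₁ : FiniteDimensional K K₁ := Module.Finite.of_restrictScalars_finite ℚ K K₁
  have hSit := Pool.Agent.Helper42.PP1.sitW_one p K K₁ ε₁ hC.prim hC.gen
  obtain ⟨ε₀, hε₀⟩ : ∃ ε₀ : K, algebraMap K K₁ ε₀ = ε₁ := by
    have h1 : (ε₁ : AlgebraicClosure K) ∈ (⊥ : IntermediateField K (AlgebraicClosure K)) := by
      rw [← h1K]; exact ε₁.2
    obtain ⟨y, hy⟩ := IntermediateField.mem_bot.1 h1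
    exact ⟨y, Subtype.ext hy⟩
  -- the field `J`
  obtain ⟨J, hfJ, hcJ, hJF, hdJ, -, -⟩ := exists_J p hψ hF
  have hnJ : NumberField J := NumberField.of_module_finite K J
  obtain ⟨l₀, hl₀⟩ := id hF
  have hfF : FiniteDimensional K F₀ := FiniteDimensional.of_finrank_pos (by
    rw [hl₀]; exact pow_pos hp.pos l₀)
  have hnF : NumberField F₀ := NumberField.of_module_finite K F₀
  have hgF : IsGalois K F₀ := isGalois_of_cutsOut hψ
  have hgJ : IsGalois K J := isGalois_of_cutsOut hcJ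
  obtain ⟨M₂, hM₂⟩ : ∃ M₂ : IntermediateField K (AlgebraicClosure K), M₂ = K₁ ⊔ J := ⟨_, rfl⟩
  have hfM₂ : FiniteDimensional K M₂ := by
    rw [hM₂]; exact IntermediateField.finiteDimensional_sup K₁ J
  have hnM₂ : NumberField M₂ := NumberField.of_module_finite K M₂
  have hle2 : K₁ ≤ M₂ := by rw [hM₂]; exact le_sup_left
  have hleJ : J ≤ M₂ := by rw [hM₂]; exact le_sup_right
  have hM₂J : M₂ = J := by rw [hM₂, h1K, bot_sup_eq]
  let A2 : Algebra K₁ M₂ := (IntermediateField.inclusion hle2).toRingHom.toAlgebra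
  let A4 : Algebra J M₂ := (IntermediateField.inclusion hleJ).toRingHom.toAlgebra
  obtain ⟨a₀, s₀, hB, m0, p0, r0⟩ := hKU p K K K₁ K₁ ε₁ (1 : K ≃ₐ[K] K) (X - 1) hSit
    (K₁.val : K₁ →+* AlgebraicClosure K) K₁ (fun x => rfl)
    (fun y => ⟨fun hy => ⟨⟨y, hy⟩, rfl⟩, by rintro ⟨x, rfl⟩; exact x.2⟩) εk hεk ψ₀ F₀ hψ hF
    J M₂ (fun x => rfl) (fun x => rfl) (fun x => rfl) (fun x => rfl) hcJ hM₂
  have hcopK : (finrank K K₁).Coprime p := by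
    have h1 := Pool.Agent.Helper14.RD.finrank_dvd_pred p K K₁ ε₁ hC.prim hC.gen
    exact Nat.Coprime.coprime_dvd_left h1 ((Nat.coprime_self_sub_left
      (Fact.out : p.Prime).one_le).2 (Nat.coprime_one_left p))
  refine ⟨⟨ε₀, hε₀⟩, J, M₂, hnJ, hnM₂, A2, A4, a₀, hcJ, hM₂, fun x => rfl, hB, ?_⟩
  intro c hc hv hcB l n hpn
  obtain ⟨v₀, hv1, hv2⟩ := hv
  obtain ⟨hc1, a, hac, hom⟩ := hc
  have hcBS : c ∈ BSet p K ε₁ := ⟨hc1, a, hac, hom⟩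
  obtain ⟨hNc, hgen⟩ := n1 c hcBS
  obtain ⟨hcut, hrel⟩ := n5 c hcBS
  have hgN : IsGalois K (nf c) := hNc.2
  have hfN : FiniteDimensional K (nf c) := FiniteDimensional.of_finrank_pos (by
    rw [hNc.1]; exact hp.pos)
  have hnN : NumberField (nf c) := NumberField.of_module_finite K (nf c)
  have D : Dat p K₁ K₁ J M₂ F₀ (nf c) ε₁ εk ψ₀ (cf c) a₀ s₀ a v₀ :=
    { KM := fun x => rfl
      le1 := le_rfl
      eq2 := hM₂
      leJ := hJF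
      prim := hC.prim
      primk := hεk
      cop := hcopK
      cut0 := hψ
      cutJ := hcJ
      cutN := hcut
      degN := hNc.1
      deg0 := hF
      mem0 := m0
      pow0 := p0
      rel0 := fun g hg i hi => r0 g hg i hi
      gen := hgen a hac
      rel := fun s hs g hg i hi => hrel a hac s hs g (fun x => hg _ x.2) i hi
      ram := hv1
      nram := hv2 }
  have hnB : NumberField (⊥ : IntermediateField K (AlgebraicClosure K)) :=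
    NumberField.of_module_finite K _
  have hgB : IsGalois K (⊥ : IntermediateField K (AlgebraicClosure K)) := inferInstance
  obtain ⟨-, -, -, c4⟩ := comp_props (Pool.Agent.Helper38.FW.comp_bot (p := p)
    (⊥ : IntermediateField K (AlgebraicClosure K)) F₀ (nf c))
  obtain ⟨g, hg1, hg2⟩ := D.exg ⊥ (c4 v₀ hv1)
  obtain ⟨-, q2, q3⟩ := D.psi
  have hψg : (ψ₀ * cf c) g ≠ 1 := by
    rw [MonoidHom.mul_apply, (hψ g).2 fun x hx => hg1 x ((le_sup_left : F₀ ≤ F₀ ⊔ ⊥) hx), one_mul]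
    exact hg2
  -- the power `n`
  have hpw : ∀ g', (∀ x ∈ J, g' x = x) → ((ψ₀ * cf c) g') ^ n = 1 → (ψ₀ * cf c) g' = 1 :=
    fun g' hg' h1 => eq_one_of_pow hp hpn h1 (q3 g' hg')
  obtain ⟨l₁, hl₁⟩ := q2
  have hom2 : OmType p K (algebraMap K₁ M₂ ε₁)
      ((a₀ * Units.map (algebraMap K₁ M₂ : K₁ →* M₂) a : (M₂)ˣ) : M₂) := by
    have t3 : IsScalarTower K K₁ M₂ := IsScalarTower.of_algebraMap_eq fun x => rfl
    exact om_both hp hC.prim a.ne_zero hB.om hom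
  have hql : ((ψ₀ * cf c) ^ n) ^ p ^ l₁ = 1 := by
    refine MonoidHom.ext fun g' => ?_
    have h := DFunLike.congr_fun hl₁ g'
    rw [MonoidHom.pow_apply] at h
    rw [MonoidHom.pow_apply, MonoidHom.pow_apply, ← pow_mul, mul_comm, pow_mul, h]
    exact one_pow n
  have hφp : (cf c) ^ p = 1 := by
    ext g'
    have h2 := pow_card_desc hcut g'
    rw [hNc.1] at h2
    rw [MonoidHom.pow_apply, h2]
    rfl
  have hψp : ∃ l : ℕ, ψ₀ ^ p ^ l = 1 := by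
    refine ⟨l₀, ?_⟩
    ext g'
    have h2 := pow_card_desc hψ g'
    rw [hl₀] at h2
    rw [MonoidHom.pow_apply, h2]
    rfl
  have hfin := hGL p hp2 K ιinf ιp Lg S hcl J M₂ hM₂J hdJ ((ψ₀ * cf c) ^ n)
    ⟨l₁, hql⟩ (cutsOut_pow_mul hcJ hφp hψp hpn)
    ⟨g, fun x hx => hg1 x ((le_sup_of_le_left hJF : J ≤ F₀ ⊔ ⊥) hx), ?_⟩
    (algebraMap K₁ M₂ ε₁) (a₀ * Units.map (algebraMap K₁ M₂ : K₁ →* M₂) a)
    (hC.prim.map_of_injective (algebraMap K₁ M₂).injective)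
    ⟨ε₀, by rw [← hε₀]; rfl⟩ hom2
    (D.npw g (fun x hx => hg1 x ((le_sup_left : F₀ ≤ F₀ ⊔ ⊥) hx)) hg2)
    (fun s hs g' hg' h1 => D.aut s hs g' hg' (hpw g' (fun x hx => hg' x (hleJ hx)) (by
      rw [← MonoidHom.pow_apply]; exact h1)))
    (by
      intro x hx
      by_contra hxp
      push Not at hxp
      exact hcB ⟨x, a, hac, hx, fun j => by
        rintro ⟨w, hw⟩
        exact hxp j w hw⟩)
  · have e : (1 : Chr K (AlgebraicClosure K) ℂ_[p]) ^ p ^ l * (ψ₀ * cf c) ^ n =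
        (ψ₀ * cf c) ^ n := by
      refine MonoidHom.ext fun g' => ?_
      rw [MonoidHom.mul_apply, MonoidHom.pow_apply, MonoidHom.one_apply, one_pow, one_mul]
    show LeopoldtFor ιinf ιp Lg S
      ((1 : Chr K (AlgebraicClosure K) ℂ_[p]) ^ p ^ l * (ψ₀ * cf c) ^ n)
    rw [e]
    exact hfin
  · rw [MonoidHom.pow_apply]
    intro h1
    exact hψg (hpw g (fun x hx => hg1 x ((le_sup_of_le_left hJF : J ≤ F₀ ⊔ ⊥) hx)) h1)

/-- One class, `χ₀ = 1 ≡ ω`, infinitely many levels, from a moment theorem. -/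
theorem y_clsO0Z (hKU : Y_KUM) (hGL : O_GL0)
    (p : ℕ) [hpF : Fact p.Prime] (hp2 : p ≠ 2) (K : Type) [Field K] [NumberField K]
    (ιinf : AlgebraicClosure K →+* ℂ) (ιp : AlgebraicClosure K →+* ℂ_[p]) (Lg : IwasawaLog p ℂ_[p])
    (K₁ : IntermediateField K (AlgebraicClosure K)) [NumberField K₁] (ε₁ : K₁)
    (hC : Cyc p K K₁ ε₁) (h1K : K₁ = ⊥) (εk : ℂ_[p]ˣ) (hεk : IsPrimitiveRoot εk p)
    (nf : ClP p K₁ → IntermediateField K (AlgebraicClosure K))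
    (cf : ClP p K₁ → Chr K (AlgebraicClosure K) ℂ_[p])
    (n1 : ∀ c ∈ BSet p K ε₁, nf c ∈ CycN p K ∧
      ∀ a : (K₁)ˣ, clp p a = c → Gen p (K₁.val : K₁ →+* AlgebraicClosure K) a (nf c))
    (n5 : ∀ c ∈ BSet p K ε₁, CutsOut (cf c) (nf c) ∧ ∀ a : (K₁)ˣ, clp p a = c →
      ∀ s : AlgebraicClosure K, s ^ p = (K₁.val : K₁ →+* AlgebraicClosure K) (a : K₁) →
      ∀ g : AlgebraicClosure K ≃ₐ[K] AlgebraicClosure K,
        (∀ x : K₁, g ((K₁.val : K₁ →+* AlgebraicClosure K) x) =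
          (K₁.val : K₁ →+* AlgebraicClosure K) x) → ∀ i : ℕ,
        g s = (K₁.val : K₁ →+* AlgebraicClosure K) ε₁ ^ i * s → cf c g = εk ^ i)
    (S : Set (K →+* ℂ)) (hcl : PlaceClosed (TSet ιinf ιp S))
    (F : ℕ → IntermediateField K (AlgebraicClosure K))
    (ψ : ℕ → Chr K (AlgebraicClosure K) ℂ_[p])
    (hψ : ∀ l, CutsOut (ψ l) (F l)) (hF : ∀ l, ∃ s : ℕ, finrank K (F l) = p ^ s)
    (Q : Set (ClP p K₁) → Prop)
    (hMB : ∀ (J M₂ : ℕ → IntermediateField K (AlgebraicClosure K)) [∀ l, NumberField (J l)]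
      [∀ l, NumberField (M₂ l)] [∀ l, Algebra K₁ (M₂ l)] [∀ l, Algebra (J l) (M₂ l)]
      (a₀ : ∀ l, (M₂ l)ˣ), (∃ ε₀ : K, algebraMap K K₁ ε₀ = ε₁) →
      (∀ l, CutsOut ((ψ l) ^ p) (J l)) → (∀ l, M₂ l = K₁ ⊔ J l) →
      (∀ l, ∀ x : K₁, ((algebraMap K₁ (M₂ l) x : M₂ l) : AlgebraicClosure K) = x) →
      (∀ l, SitB p K K K₁ K₁ (J l) (M₂ l) ε₁ (1 : K ≃ₐ[K] K) (X - 1) (a₀ l)) →
      Q {c | ∀ l, c ∈ BdO (TSet ιinf ιp S) (X - 1 : (ZMod p)[X]) (1 : K ≃ₐ[K] K) ε₁ (a₀ l)}) :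
    ClsZ ιinf ιp Lg ε₁ nf cf S F 1 ψ Q := by
  choose h0 J M₂ i1 i2 i3 i4 a₀ h1 h2 h3 h4 h5 using fun l => levO0 hKU hGL p hp2 K ιinf ιp Lg K₁
    ε₁ hC h1K εk hεk nf cf n1 n5 S hcl (F l) (ψ l) (hψ l) (hF l)
  refine ⟨_, hMB J M₂ a₀ (h0 0) h1 h2 h3 h4, ?_⟩
  rintro c hc ⟨v, hv1, hv2⟩ hcB
  have h6 : ∃ l, c ∉ BdO (TSet ιinf ιp S) (X - 1 : (ZMod p)[X]) (1 : K ≃ₐ[K] K) ε₁ (a₀ l) := by
    by_contra h7
    push Not at h7
    exact hcB h7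
  obtain ⟨l, hl⟩ := h6
  exact ⟨l, h5 l c hc ⟨v, hv1, hv2 l⟩ hl⟩

end Pool.Agent.Helper42.TH
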