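import Pool.Agent.Helper42.TH.MomZ
import Pool.Agent.Helper42.TH.GoalsALO
import Pool.Agent.Helper42.WY.MOM4

/-!
# Project TH: the moment theorem for infinitely many levels, `χ₀ ≡ ω`
-/

set_option autoImplicit false

namespace Pool.Agent.Helper42.TH

open NumberField Polynomial Module IsDedekindDomain
open Pool.Agent.Helper51.RP Pool.Agent.Helper42.RD Pool.Agent.Helper42.PP Pool.Agent.Helper42.PP1
open Pool.Agent.Helper42.PB Pool.Agent.Helper42.PW Pool.Agent.Helper11.PP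
open Pool.Agent.Helper38.WY Pool.Agent.Helper42.WY
open Pool.Agent.Helper51.SigLeo (IwasawaLog)
open Pool.Agent.Helper17.PP (Sys lg)
open Pool.Agent.Helper11.M3 (HypW subS Zt Bad₄ NV)
open Pool.Agent.Helper11.LE (Cyc)
open Pool.Agent.Helper11.PB (tc_up)
open Pool.Agent.Helper38.TH
open Pool.Agent.Helper38.ND

section

variable {p : ℕ} [Fact p.Prime] {B B₀ k U Λ C : Type} [Field k] [Fintype k]
    [Algebra (ZMod p) k] [AddCommGroup U] [Module k U] [Finite U] [AddCommGroup Λ] [Module k Λ]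
    [Fintype Λ] [AddCommGroup C] [Finite C] {S : Sys p B B₀ k U Λ C}

/-- `MW` from `MTG4` and `G4_NV`. -/
theorem mw_of_mtg4 (hM : MTG4) (hNV : G4_NV) {ψ : AddChar k ℂ} {e : B → k} {g : ℝ → ℝ} {K : ℕ}
    (hG : HypG4 S ψ e (fun q => ¬ S.spl q) g K) {κ : ℝ} (hκ : 0 < κ) (hN : MerN S κ)
    {V : B → Prop} {ρ K₂ : ℝ} (hS : Spr S V ρ K₂) (h8 : 8 * ((Fintype.card k : ℝ) + 1) * ρ ≤ κ)
    {θ : ℝ} (hUL : (Nat.card U / Fintype.card Λ : ℝ) ≤ 1)
    (hθ : (Nat.card U / Fintype.card Λ : ℝ) * (1 / (Fintype.card k - 1)) ≤ θ) {T₀ : ℕ} (r₀ : ℕ)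
    (hT : 1 ≤ T₀) : MW S V θ T₀ r₀ g := by
  let instU : Fintype U := Fintype.ofFinite U
  rw [Nat.card_eq_fintype_card] at hUL hθ
  obtain ⟨K', hK'⟩ := hNV p B B₀ k U Λ C S ψ e g K hG κ hκ hN V ρ K₂ hS h8
  exact mw_of_bound hUL hθ (hM p B B₀ k U Λ C S ψ e _ g K' hK' V (fun q hq => hq.2) T₀ r₀ hT)

end

theorem selOB (hGRP : N_GRP) (hCHG : N_CHG) (hSGB : Y_SGB) (hPWA : Y_PWA) (hTri : O_TRI)
    {p : ℕ} [hp : Fact p.Prime] {K M K₁ M₁ J M₂ : Type} [Field K] [NumberField K] [Field M]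
    [NumberField M] [Field K₁] [NumberField K₁] [Field M₁] [NumberField M₁] [Field J]
    [NumberField J] [Field M₂] [NumberField M₂] [Algebra K M] [Algebra K K₁] [Algebra K M₁]
    [Algebra M M₁] [Algebra K₁ M₁] [Algebra K J] [Algebra K M₂] [Algebra M M₂] [Algebra K₁ M₂]
    [Algebra M₁ M₂] [Algebra J M₂] {ε : K₁} {δ : M ≃ₐ[K] M} {P : (ZMod p)[X]} {a₀ : M₂ˣ}
    (hp2 : p ≠ 2) (i : ℕ) (hP : P = X - C (i : ZMod p)) [Fact (Irreducible P)]
    (hB : SitB p K M K₁ M₁ J M₂ ε δ P a₀)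
    (hε : ∃ ε₀ : M, algebraMap M M₂ ε₀ = algebraMap K₁ M₂ ε ∧ δ ε₀ = ε₀ ^ i)
    (hM₁ : ∀ z : M₁, ∃ y : M, algebraMap M M₁ y = z) (T : Set (K →+* ℂ_[p]))
    (B : Base p K M K₁ M₁ ε δ P) (D : BaseB B a₀)
    (aτ : K₁ˣ) {n : ℕ} (E : TauX n B a₀ T aτ)
    (W : Submodule (AdjoinRoot P) (Fin B.r → AdjoinRoot P)) (hW : W ⊔ Zt B M₂ = ⊤)
    (a : K₁ˣ) (hcl : clp p a ∈ BdO T P δ ε a₀)
    (ha : OmType p K ε (a : K₁)) (hloc : LocS p (up K₁ B.S) (a / aτ)) :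
    (subS (sysB B E.toTauF (Spl M₂ B.S) D.s0 aτ) W).Bad (B.lab a) := by
  subst hP
  obtain ⟨x, c', h1, h2, -⟩ := selO hGRP hCHG hSGB hPWA hTri hp2 hB hε hM₁ T
    B D aτ E W hW a hcl ha hloc
  exact ⟨x, c', h1, h2⟩

open Classical in
/-- **MOMZO**. The classes which are bad for all the levels `n ≥ n₀` have density `0`, `χ₀ ≡ ω`. -/
theorem momZO (hM4 : MTG4) (hNV : G4_NV) (hCLB : CLB) (hEXA : EXA) (hREL : T_REL)
    (hGRP : N_GRP) (hCHG : N_CHG) (hSGB : Y_SGB) (hPWA : Y_PWA) (hTri : O_TRI) (hZD : ZDEN)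
    (p : ℕ) [hpF : Fact p.Prime] (hp2 : p ≠ 2) (L : IwasawaLog p ℂ_[p]) (K M K₁ M₁ : Type)
    [Field K]
    [NumberField K] [IsTotallyComplex K] [Field M] [NumberField M] [Field K₁] [NumberField K₁]
    [Field M₁] [NumberField M₁] [Algebra K M] [Algebra K K₁] [Algebra K M₁] [Algebra M M₁]
    [Algebra K₁ M₁] (J M₂ : ℕ → Type) [∀ l, Field (J l)] [∀ l, NumberField (J l)]
    [∀ l, Field (M₂ l)] [∀ l, NumberField (M₂ l)] [∀ l, Algebra K (J l)] [∀ l, Algebra K (M₂ l)]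
    [∀ l, Algebra M (M₂ l)] [∀ l, Algebra K₁ (M₂ l)] [∀ l, Algebra M₁ (M₂ l)]
    [∀ l, Algebra (J l) (M₂ l)] (ε : K₁) (δ : M ≃ₐ[K] M) (P : (ZMod p)[X]) (i₀ : ℕ)
    (hP : P = X - C (i₀ : ZMod p))
    [Fact (Irreducible P)] [Fintype (AdjoinRoot P)] (a₀ : ∀ l, (M₂ l)ˣ)
    (hs : ∀ l, SitB p K M K₁ M₁ (J l) (M₂ l) ε δ P (a₀ l))
    (hε : ∀ l, ∃ ε₀ : M, algebraMap M (M₂ l) ε₀ = algebraMap K₁ (M₂ l) ε ∧ δ ε₀ = ε₀ ^ i₀)
    (hM₁ : ∀ z : M₁, ∃ y : M, algebraMap M M₁ y = z)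
    (hdeg : Filter.Tendsto (fun l => (finrank K (M₂ l) : ℝ)) Filter.atTop Filter.atTop)
    (T : Set (K →+* ℂ_[p])) (θ : ℝ) (hθ0 : 0 ≤ θ) (hθ1 : θ < 1)
    (hAL : ALevO p K M K₁ M₁ ε δ P M₂ a₀ T θ) (n₀ : ℕ) :
    MomA p K ε {c | ∀ n, n₀ ≤ n → c ∈ BdO T P δ ε (a₀ n)} 0 := by
  intro S A f hA hne hf
  have hp : p.Prime := hpF.out
  have hp1 : (1 : ℝ) < p := by exact_mod_cast hp.one_lt
  have hcK : IsTotallyComplex K₁ := tc_up K K₁
  have hC : Cyc p K K₁ ε := ⟨(hs 0).sit.prim, (hs 0).sit.gK, (hs 0).sit.gen⟩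
  have hQ : (0 : ℝ) < (Fintype.card (AdjoinRoot P) : ℝ) := by
    exact_mod_cast Fintype.card_pos
  have hQ1 : (1 : ℝ) < (Fintype.card (AdjoinRoot P) : ℝ) := by
    exact_mod_cast Fintype.one_lt_card
  obtain ⟨hfin, ⟨Cd, Xd, hXd, hdbl⟩, hinf, -⟩ := momT p L K K₁ ε hC 1 le_rfl ∅ S A f hA hne hf
  obtain ⟨C', hC'0, hC'⟩ := hCLB (max Cd 1) (le_max_right _ _)
  obtain ⟨C₀, hC₀0, hC₀⟩ := hEXA p L K K₁ ε hC S A f hA hne hf
  refine ⟨hfin, ⟨Cd, Xd, hXd, hdbl⟩, hinf, ?_⟩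
  intro η hη
  -- the parameters
  obtain ⟨N, hN, hNθ⟩ := pow_ex C' θ (η / 4) hθ0 hθ1 (by positivity)
  have hNr : (0 : ℝ) < N := by exact_mod_cast hN
  obtain ⟨r, -, hr⟩ := pow_ex (C' * (2 * N))
    (1 / (Fintype.card (AdjoinRoot P) : ℝ)) (η / 4)
    (by positivity) (by rw [div_lt_one hQ]; exact hQ1) (by positivity)
  set δ' : ℝ := η / (8 * N * C') with hδ'
  have hδ'0 : 0 < δ' := by positivity
  have hgal : ∀ l, IsGalois K (M₂ l) := fun l => (hs l).gM₂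
  have hZ : ∀ l, _ := fun l => hZD K (M₂ l)
  choose KL hKL using fun l => (hZ l).1
  choose KU hKU using fun l => (hZ l).2.1
  have hTl := fun l => (hZ l).2.2
  have hdp : ∀ l, (0 : ℝ) < finrank K (M₂ l) := fun l => by
    have : 0 < finrank K (M₂ l) := finrank_pos
    exact_mod_cast this
  obtain ⟨Tb, lv, hlv0, hlvf, hlvm, hTb1, hTb2, hρ1, hρ2⟩ := par_ex
    (fun l => (finrank K (M₂ l) : ℝ)) (fun l => 1 / (finrank K (M₂ l) : ℝ))
    (fun l => max (KL l) 0) hdeg hdp (fun l => by have := hdp l; positivity) C₀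
    ((p : ℝ) ^ r) (Fintype.card (AdjoinRoot P) : ℝ) ((p : ℝ) - 1) δ' hC₀0
    (by positivity) hQ.le (by linarith) hδ'0 n₀ N hN
  have hsub : ∀ l, Spl (M₂ l) (∅ : Finset (HeightOneSpectrum (𝓞 K))) ⊆ Spl K₁ ∅ := by
    intro l
    have := (hs l).sit.st2
    have := (hs l).sit.gK
    have := (hs l).t1
    have := (hs l).t3
    have := hgal l
    have : IsScalarTower K K₁ (M₂ l) := IsScalarTower.of_algebraMap_eq fun x => by
      rw [IsScalarTower.algebraMap_apply K M₁ (M₂ l), IsScalarTower.algebraMap_apply K K₁ M₁,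
        ← IsScalarTower.algebraMap_apply K₁ M₁ (M₂ l)]
    exact Pool.Agent.Helper60.PPS.vis_sub (K₁ := K₁) (M₁ := M₂ l) ∅
  -- the exceptional classes
  let Vc : ℕ → Set (HeightOneSpectrum (𝓞 K)) := fun i =>
    {v | ∃ i' ∈ (Finset.range N).filter (fun i' => i < i'),
      v ∈ Spl (M₂ (lv i')) (∅ : Finset (HeightOneSpectrum (𝓞 K)))}
  let Wc : ℕ → Set (HeightOneSpectrum (𝓞 K)) := fun i =>
    Spl (M₂ (lv i)) (∅ : Finset (HeightOneSpectrum (𝓞 K)))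
  let Exc : ℕ → Set (ClP p K₁) := fun i => ExC (Vc i) (Wc i) (9 * Tb i) (Tb i) r f
  have hTail : ∀ i, Tail (Vc i) (∑ i' ∈ (Finset.range N).filter (fun i' => i < i'),
      4 / (finrank K (M₂ (lv i')) : ℝ)) := fun i => tail_un _ _ _ (fun i' _ => hTl (lv i'))
  have hEx1 : ∀ i < N, ∀ᶠ X : ℝ in Filter.atTop,
      cV f (BSet p K ε ∩ A ∩ Exc i) X ≤ δ' / N * cV f (BSet p K ε ∩ A) X := by
    intro i hi
    have h1 := hC₀ (Vc i) (Wc i) (∑ i' ∈ (Finset.range N).filter (fun i' => i < i'),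
      4 / (finrank K (M₂ (lv i')) : ℝ)) (1 / (finrank K (M₂ (lv i)) : ℝ)) (max (KL (lv i)) 0)
      (Finset.sum_nonneg fun i' _ => by have := hdp (lv i'); positivity)
      (by have := hdp (lv i); positivity) (le_max_right _ _) (hTail i)
      ((hKL (lv i)).mono (le_max_left _ _)) (hsub (lv i)) (9 * Tb i) (Tb i) r
      (by have := hTb1 i; omega) (hTb1 i) (δ' / (3 * N))
      (by positivity)
    filter_upwards [h1] with X hX
    refine hX.trans (mul_le_mul_of_nonneg_right ?_ ?_)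
    · have h2 := hρ1 i hi
      have h3 := hTb2 i
      calc _ = C₀ * ((∑ i' ∈ (Finset.range N).filter (fun i' => i < i'),
              4 / (finrank K (M₂ (lv i')) : ℝ)) *
              (Real.log (4 * ((9 * Tb i : ℕ) : ℝ)) + 2)) +
            C₀ * ((p : ℝ) ^ r * Real.exp (max (KL (lv i)) 0) *
              (4 / (Tb i : ℝ)) ^ (1 / (finrank K (M₂ (lv i)) : ℝ) / 2)) + δ' / (3 * N) := by
            ring
        _ ≤ δ' / (3 * N) + δ' / (3 * N) + δ' / (3 * N) := by gcongr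
        _ = δ' / N := by field_simp; ring
    · unfold cV; positivity
  have hEx2 : ∀ᶠ X : ℝ in Filter.atTop,
      cV f (BSet p K ε ∩ A ∩ {c | ∃ i < N, c ∈ Exc i}) X ≤ δ' * cV f (BSet p K ε ∩ A) X := by
    have h1 : ∀ᶠ X : ℝ in Filter.atTop, ∀ i ∈ Finset.range N,
        cV f (BSet p K ε ∩ A ∩ Exc i) X ≤ δ' / N * cV f (BSet p K ε ∩ A) X := by
      rw [Filter.eventually_all_finset]
      exact fun i hi => hEx1 i (Finset.mem_range.1 hi)
    filter_upwards [h1] with X hX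
    refine (cV_un f _ X N Exc).trans ((Finset.sum_le_sum hX).trans (le_of_eq ?_))
    rw [Finset.sum_const, Finset.card_range, nsmul_eq_mul]
    field_simp
  -- the base for all the levels
  obtain ⟨B, D, g, K₀, W, hSB, hslow, hW, hE⟩ := hAL lv hlvf S
  have hfinal := hC' p L K M K₁ M₁ ε δ _ (hs 0).sit B g K₀ hslow
    (θ ^ N + 2 * N * (1 / (Fintype.card (AdjoinRoot P) : ℝ)) ^ r) (2 * N) δ'
    (by positivity) (by positivity) hδ'0.le S A
    {c | ∀ n, n₀ ≤ n → c ∈ BdO T P δ ε (a₀ n)} {c | ∃ i < N, c ∈ Exc i} f hSB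
    hA hne hf
    ⟨Xd, hXd, fun X hX => (hdbl X hX).trans (mul_le_mul_of_nonneg_right (le_max_left _ _)
      (by unfold cV; positivity))⟩ hEx2 (by
    intro aτ haτ _
    obtain ⟨n, E, c, X₁, hc, hH, hr1, hrθ, hlow⟩ := hE aτ haτ
    let S' : ℕ → Sys p B.LP (HeightOneSpectrum (𝓞 K)) (AdjoinRoot P) W
        (Fin n → AdjoinRoot P) (Fin B.t → ZMod p) := fun i =>
      subS (sysB B (E i).toTauF (Spl (M₂ (lv i)) B.S) (D i).s0 aτ) W
    obtain ⟨ψ0, e0, K0', hH0⟩ := (hH 0).1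
    obtain ⟨Kc, c', X₁', hc', hana⟩ := anhG B (E 0).toTauF (Spl (M₂ (lv 0)) B.S) (D 0).s0 aτ
      (fun _ => False) ψ0 g K0' (hypW_sub hH0.toHyp₄.toHypW) K₀ hslow c X₁ hc hlow 0
      le_rfl (by
        intro w hw ε' hε'
        refine ⟨1, fun X hX Q => ?_⟩
        have hX0 : (0 : ℝ) ≤ X := by linarith
        have hg := hslow.one X
        have h1 : 0 ≤ ε' * (X * g X) := by positivity
        simpa using h1)
    have hmU : ∀ i, MerU (Vc i) (∑ i' ∈ (Finset.range N).filter (fun i' => i < i'),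
        1 / (finrank K (M₂ (lv i')) : ℝ))
        (∑ i' ∈ (Finset.range N).filter (fun i' => i < i'), KU (lv i')) :=
      fun i => merU_un _ _ _ _ (fun i' _ => hKU (lv i'))
    have hVV : ∀ i (q : B.LP), VU S' N i q → q.1.1 ∈ Vc i := by
      rintro i q ⟨i', h1, h2, h3⟩
      refine ⟨i', Finset.mem_filter.2 ⟨Finset.mem_range.2 h2, h1⟩, ?_⟩
      exact ⟨Finset.notMem_empty _, h3.2⟩
    have hMW : ∀ i < N, MW (S' i) (VU S' N i) θ (3 * Tb i) r g := by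
      intro i hi
      have hT3 : 1 ≤ 3 * Tb i := by have := hTb1 i; omega
      have hspr := spr_lab B (E i).toTauF (Spl (M₂ (lv i)) B.S) (D i).s0 aτ (Vc i) _ _
        (Finset.sum_nonneg fun i' _ => by have := hdp (lv i'); positivity) (hmU i) _ (hVV i)
      have hspr' : Spr (S' i) (VU S' N i) (((p : ℝ) - 1) *
          ∑ i' ∈ (Finset.range N).filter (fun i' => i < i'),
            1 / (finrank K (M₂ (lv i')) : ℝ))
          (((p : ℝ) - 1) * ∑ i' ∈ (Finset.range N).filter (fun i' => i < i'), KU (lv i')) :=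
        ⟨hspr.nonneg, hspr.up⟩
      obtain ⟨⟨ψ, e, K', hG⟩, hN'⟩ := hH i
      refine mw_of_mtg4 hM4 hNV hG ?_ hN' hspr' (hρ2 i hi) hr1 hrθ r hT3
      have := hdp (lv i)
      exact div_pos (by linarith) this
    have hchain := chainW p B.LP (HeightOneSpectrum (𝓞 K)) (AdjoinRoot P)
      W (Fin n → AdjoinRoot P) (Fin B.t → ZMod p) N S' g hslow.one
      ⟨fun _ => rfl, fun _ => rfl, fun _ => rfl, fun _ => rfl, fun _ => rfl⟩ θ hθ0 hθ1.le
      (fun i => 3 * Tb i) (fun _ => r) hMW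
    have hrel : ∀ i, ∃ X₀ : ℝ, ∀ X : ℝ, X₀ ≤ X → ∀ a : K₁ˣ, OmType p K ε (a : K₁) →
        LocS p (up K₁ B.S) (a / aτ) →
        ExX (sysB B (E i).toTauF (Spl (M₂ (lv i)) B.S) (D i).s0 aτ) (VU S' N i)
          (3 * Tb i) r (lg X) (B.lab a) →
        √X ≤ (sysB B (E i).toTauF (Spl (M₂ (lv i)) B.S) (D i).s0 aτ).nm (B.lab a) →
        ((sysB B (E i).toTauF (Spl (M₂ (lv i)) B.S) (D i).s0 aτ).nm (B.lab a) : ℝ) ≤ X ^ 2 →
        clp p a ∈ ExC (Vc i) (Wc i) (9 * Tb i) (Tb i) r f := fun i =>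
      hREL Pool.Agent.Helper91.PW.w_cnd p L K M K₁ M₁ ε δ _ (hs 0).sit B n (E i).toTauF
        (Spl (M₂ (lv i)) B.S) (D i).s0 aτ haτ S f hSB hf _ (Vc i) (Wc i) (Tb i) r (hTb1 i)
        (hVV i) (fun v hv hvS => ⟨hvS, hv.2⟩)
    choose Xr hXr using hrel
    refine ⟨n, (E 0).toTauF, Spl (M₂ (lv 0)) B.S, (D 0).s0,
      fun b => ∀ i < N, (S' i).Bad b,
      fun X b => ∃ i < N, ExX (S' i) (VU S' N i) (3 * Tb i) r (lg X) b, Kc, c', X₁', hc', hana.1,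
      hana.2.1, ?_, ?_, ?_⟩
    · intro ε' hε'
      obtain ⟨X₀, hX₀⟩ := hchain ε' hε'
      refine ⟨X₀, fun X hX Pf => ?_⟩
      have h1 := hX₀ X hX Pf
      exact chain_sum Pf.powerset
        (sysB B (E 0).toTauF (Spl (M₂ (lv 0)) B.S) (D 0).s0 aτ).Fam
        (fun b => Real.exp
          (-((sysB B (E 0).toTauF (Spl (M₂ (lv 0)) B.S) (D 0).s0 aτ).nm b / X)))
        (fun b => (Real.exp_pos _).le)
        (fun b => ∀ i < N, (S' i).Bad b)
        (fun b => ∃ i < N, ExX (S' i) (VU S' N i) (3 * Tb i) r (lg X) b)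
        (fun i b => ExX (S' i) (VU S' N i) (3 * Tb i) r (lg X) b) N (θ ^ N)
        ((1 / (Fintype.card (AdjoinRoot P) : ℝ)) ^ r)
        (ε' * (X * g X)) (fun i hi b hb => ⟨i, hi, hb⟩)
        ((le_of_eq (sum_dec _ _ _ _ _)).trans h1)
    · intro a hcl ha hl i _
      exact selOB hGRP hCHG hSGB hPWA hTri hp2 i₀ hP (hs (lv i)) (hε (lv i)) hM₁ T
        B (D i) aτ (E i) W (hW i) a (hcl (lv i) (hlv0 i)) ha hl
    · refine ⟨∑ i ∈ Finset.range N, |Xr i|, fun X hX a ha hl ⟨i, hi, hex⟩ h1 h2 => ?_⟩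
      exact ⟨i, hi, hXr i X (((le_abs_self _).trans (Finset.single_le_sum
        (f := fun i => |Xr i|) (fun i _ => abs_nonneg _) (Finset.mem_range.2 hi))).trans hX)
        a ha hl hex h1 h2⟩) (η / 4) (by positivity)
  filter_upwards [hfinal] with X hX
  refine hX.trans (mul_le_mul_of_nonneg_right ?_ (by unfold cV; positivity))
  have e1 : C' * (2 * N * δ') = η / 4 := by
    rw [hδ']
    field_simp
    norm_num
  calc _ = C' * θ ^ N + C' * (2 * N) *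
        (1 / (Fintype.card (AdjoinRoot P) : ℝ)) ^ r +
        C' * (2 * N * δ') + η / 4 := by ring
    _ ≤ η / 4 + η / 4 + η / 4 + η / 4 := by rw [e1]; gcongr
    _ = 0 + η := by ring

end Pool.Agent.Helper42.TH
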