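import Pool.Agent.Helper42.TH.Tow
import Pool.Agent.Helper38.FD.Twist

/-!
# Project TH: the same elements become `p`-th powers at all the levels
-/

set_option autoImplicit false

namespace Pool.Agent.Helper42.TH

open NumberField Module IsDedekindDomain
open Pool.Agent.Helper51.SigLeo Pool.Agent.Helper51.RP Pool.Agent.Helper42.RD
open Pool.Agent.Helper38.FD (Chr CutsOut LeopoldtFor isGalois_of_cutsOut exists_cutsOut
  exists_faithful exists_lift pow_card_desc fix_sup)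
open Pool.Agent.Helper22.PP (ram_sup le_of_fix pow_fix)
open Pool.Agent.Helper38.TH
open Pool.Agent.Helper57.TH (tower_pow tower_ord)

variable {p : ℕ} [hpF : Fact p.Prime] {K : Type} [Field K] [NumberField K]

omit [NumberField K] in
/-- `(ψ₀ η_n)^(p^j) = η_(n-j)` if `s ≤ j ≤ n`. -/
theorem tow_pow {η : ℕ → Chr K (AlgebraicClosure K) ℂ_[p]} (hη : IsTower η)
    {ψ₀ : Chr K (AlgebraicClosure K) ℂ_[p]} {s : ℕ} (hψ : ∀ g, (ψ₀ g) ^ p ^ s = 1) {a j : ℕ}
    (hj : s ≤ j) (g : AlgebraicClosure K ≃ₐ[K] AlgebraicClosure K) :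
    ((ψ₀ * η (a + j)) g) ^ p ^ j = η a g := by
  obtain ⟨d, rfl⟩ := Nat.exists_eq_add_of_le hj
  rw [MonoidHom.mul_apply, mul_pow, tower_pow hη a (s + d) g, pow_add, pow_mul, hψ g, one_pow,
    one_mul]

theorem pws {η : ℕ → Chr K (AlgebraicClosure K) ℂ_[p]} (hη : IsTower η)
    {ψ₀ : Chr K (AlgebraicClosure K) ℂ_[p]} {s : ℕ} (hψ : ∀ g, (ψ₀ g) ^ p ^ s = 1)
    (K₁ : IntermediateField K (AlgebraicClosure K)) [NumberField K₁] [IsGalois K K₁]
    (hcop : (finrank K K₁).Coprime p) {ε : AlgebraicClosure K} (hε : IsPrimitiveRoot ε p)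
    (hεK : ε ∈ K₁) {n n' : ℕ} (hn : s + 2 ≤ n) (hn' : s + 2 ≤ n')
    {J J' : IntermediateField K (AlgebraicClosure K)} (hJ : CutsOut ((ψ₀ * η n) ^ p) J)
    (hJ' : CutsOut ((ψ₀ * η n') ^ p) J') {w : AlgebraicClosure K} (hw : w ∈ K₁ ⊔ J)
    (hwp : w ^ p ∈ K₁) : w ∈ K₁ ⊔ J' := by
  have hp : p.Prime := hpF.out
  by_cases hw0 : w = 0
  · rw [hw0]; exact zero_mem _
  -- the powers of the characters
  have hθ : ∀ {m : ℕ}, s + 2 ≤ m → ∀ g : AlgebraicClosure K ≃ₐ[K] AlgebraicClosure K,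
      (((ψ₀ * η m) ^ p) g) ^ p ^ (m - 2) = η 1 g := by
    intro m hm g
    rw [MonoidHom.pow_apply, ← pow_mul, ← pow_succ']
    have h1 := tow_pow hη hψ (a := 1) (j := m - 2 + 1) (by omega) g
    have h2 : 1 + (m - 2 + 1) = m := by omega
    rw [h2] at h1
    exact h1
  -- an element of the group of `K₁` which generates
  obtain ⟨g₁, hg₁⟩ : ∃ g, η 1 g ≠ 1 := by
    by_contra hcon
    push Not at hcon
    exact hη.one_ne (MonoidHom.ext hcon)
  have hη1 : ∀ g, (η 1 g) ^ p = 1 := by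
    intro g
    have h1 := hη.pow 0
    have h2 := DFunLike.congr_fun h1 g
    rw [MonoidHom.pow_apply, hη.zero, MonoidHom.one_apply] at h2
    exact h2
  obtain ⟨h₀, hh1, hh2⟩ : ∃ h₀ : AlgebraicClosure K ≃ₐ[K] AlgebraicClosure K,
      (∀ x ∈ K₁, h₀ x = x) ∧ η 1 h₀ ≠ 1 := by
    refine ⟨g₁ ^ finrank K K₁, fun x hx => ?_, ?_⟩
    · exact pow_fix (K₁.val : K₁ →+* AlgebraicClosure K) (fun _ => rfl) g₁ ⟨x, hx⟩
    · rw [map_pow]
      intro h1
      have h2 := Nat.dvd_gcd (orderOf_dvd_of_pow_eq_one h1) (orderOf_dvd_of_pow_eq_one (hη1 g₁))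
      rw [(hcop : (finrank K K₁).gcd p = 1)] at h2
      exact hg₁ (orderOf_eq_one_iff.1 (Nat.dvd_one.1 h2))
  obtain ⟨m, rfl⟩ : ∃ m, n = m + 2 := ⟨n - 2, by omega⟩
  set θ : Chr K (AlgebraicClosure K) ℂ_[p] := (ψ₀ * η (m + 2)) ^ p with hθd
  have hθ1 : ∀ g, (θ g) ^ p ^ m = η 1 g := fun g => hθ hn g
  have hθ2 : ∀ g, (θ g) ^ p ^ (m + 1) = 1 := fun g => by
    rw [pow_succ, pow_mul, hθ1 g, hη1 g]
  have hord : orderOf (θ h₀) = p ^ (m + 1) :=
    orderOf_eq_prime_pow (by rw [hθ1 h₀]; exact hh2) (hθ2 h₀)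
  have hprim : IsPrimitiveRoot ((θ h₀ : ℂ_[p]ˣ) : ℂ_[p]) (p ^ (m + 1)) := by
    rw [IsPrimitiveRoot.coe_units_iff, ← hord]
    exact IsPrimitiveRoot.orderOf _
  -- `h₀^p` fixes `w`
  have hh3 : (h₀ ^ p) w = w := by
    have h1 : (h₀ w / w) ^ p = 1 := by
      rw [div_pow, ← map_pow, hh1 _ hwp, div_self (pow_ne_zero _ hw0)]
    have : NeZero p := ⟨hp.ne_zero⟩
    obtain ⟨a, -, ha⟩ := hε.eq_pow_of_pow_eq_one h1
    have h2 : h₀ w = ε ^ a * w := by rw [ha, div_mul_cancel₀ _ hw0]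
    have h3 : ∀ j : ℕ, (h₀ ^ j) w = ε ^ (a * j) * w := by
      intro j
      induction j with
      | zero => simp
      | succ j ih =>
        rw [pow_succ', AlgEquiv.mul_apply, ih, map_mul, map_pow, hh1 ε hεK, h2, mul_add, pow_add,
          mul_one]
        ring
    rw [h3 p, mul_comm a p, pow_mul, hε.pow_eq_one, one_pow, one_mul]
  -- the claim
  have hcl : ∀ g : AlgebraicClosure K ≃ₐ[K] AlgebraicClosure K, (∀ x ∈ K₁, g x = x) →
      η 1 g = 1 → g w = w := by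
    intro g hg1 hg2
    have : NeZero (p ^ (m + 1)) := ⟨(pow_pos hp.pos _).ne'⟩
    obtain ⟨k, -, hk⟩ := hprim.eq_pow_of_pow_eq_one (ξ := ((θ g : ℂ_[p]ˣ) : ℂ_[p])) (by
      rw [← Units.val_pow_eq_pow_val, hθ2 g, Units.val_one])
    have hk' : θ g = (θ h₀) ^ k := by
      ext
      rw [Units.val_pow_eq_pow_val, hk]
    have h1 : p ^ (m + 1) ∣ k * p ^ m := by
      rw [← hord]
      refine orderOf_dvd_of_pow_eq_one ?_
      rw [pow_mul, ← hk', hθ1 g, hg2]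
    have h2 : p ∣ k := by
      rw [pow_succ, mul_comm] at h1
      exact Nat.dvd_of_mul_dvd_mul_right (pow_pos hp.pos m) h1
    obtain ⟨k', rfl⟩ := h2
    have hkj : ∀ j : ℕ, ((h₀ ^ p) ^ j) w = w := by
      intro j
      induction j with
      | zero => simp
      | succ j ih => rw [pow_succ, AlgEquiv.mul_apply, hh3, ih]
    have hkw : (h₀ ^ (p * k')) w = w := by
      rw [pow_mul]
      exact hkj k'
    have hkx : ∀ x ∈ K₁, (h₀ ^ (p * k')) x = x := by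
      intro x hx
      have h3 : h₀ ^ (p * k') ∈ K₁.fixingSubgroup :=
        Subgroup.pow_mem _ ((IntermediateField.mem_fixingSubgroup_iff _ _).2 hh1) _
      exact (IntermediateField.mem_fixingSubgroup_iff _ _).1 h3 x hx
    have hσ : ∀ x ∈ K₁ ⊔ J, (g * (h₀ ^ (p * k'))⁻¹) x = x := by
      refine fix_sup _ (fun x hx => ?_) ?_
      · rw [AlgEquiv.mul_apply]
        have h4 : ((h₀ ^ (p * k'))⁻¹ : AlgebraicClosure K ≃ₐ[K] AlgebraicClosure K) x = x := by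
          rw [AlgEquiv.aut_inv, AlgEquiv.symm_apply_eq, hkx x hx]
        rw [h4, hg1 x hx]
      · refine (hJ _).1 ?_
        rw [map_mul, map_inv, map_pow]
        show θ g * (θ h₀ ^ (p * k'))⁻¹ = 1
        rw [hk', mul_inv_cancel]
    have h5 := hσ w hw
    rw [AlgEquiv.mul_apply] at h5
    have h6 : ((h₀ ^ (p * k'))⁻¹ : AlgebraicClosure K ≃ₐ[K] AlgebraicClosure K) w = w := by
      rw [AlgEquiv.aut_inv, AlgEquiv.symm_apply_eq, hkw]
    rwa [h6] at h5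
  -- the conclusion
  rw [← InfiniteGalois.fixedField_fixingSubgroup (K₁ ⊔ J'), IntermediateField.mem_fixedField_iff]
  intro g hg
  have hg' := (IntermediateField.mem_fixingSubgroup_iff _ g).1 hg
  refine hcl g (fun x hx => hg' x ((le_sup_left : K₁ ≤ K₁ ⊔ J') hx)) ?_
  have h7 := (hJ' g).2 fun x hx => hg' x ((le_sup_right : J' ≤ K₁ ⊔ J') hx)
  rw [← hθ hn' g, h7, one_pow]

end Pool.Agent.Helper42.TH
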