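import Pool.Agent.Helper42.TH.DenZ
import Pool.Agent.Helper42.TH.MomZO
import Pool.Agent.Helper42.TH.LevO0
import Pool.Agent.Helper42.TH.PwS
import Pool.Agent.Helper42.TH.ExtO
import Pool.Agent.Helper38.TH.OMC
import Pool.Agent.Helper38.TH.Asm4

/-!
# Project TH: the density theorem for infinitely many levels, `χ₀ ≡ ω`, `p` odd
-/

set_option autoImplicit false

namespace Pool.Agent.Helper42.TH

open NumberField Polynomial Module IsDedekindDomain TensorProduct Pool.Agent.Helper51.SigLeo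
open Pool.Agent.Helper51.RP Pool.Agent.Helper42.RD Pool.Agent.Helper11.LE Pool.Agent.Helper11.PP
open Pool.Agent.Helper42.PP Pool.Agent.Helper42.PP1 Pool.Agent.Helper42.PB Pool.Agent.Helper42.PW
open Pool.Agent.Helper38.FD (Chr CutsOut LeopoldtFor IsOrdinary isGalois_of_cutsOut)
open Pool.Agent.Helper77.PPB
open Pool.Agent.Helper11.PB (tc_up)
open Pool.Agent.Helper38.FW (G_WT G_ASM momA_mono IsOmega OmegaAt not_isOmega norm_chr LocE cntE
  condP)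
open Pool.Agent.Helper38.WY Pool.Agent.Helper42.WY
open Pool.Agent.Helper38.TH (IsTower)

/-- The density theorem for infinitely many levels, `χ₀ ≡ ω`, `p` odd. -/
theorem denZO (hCLB : CLB) (hEXA : EXA) (hREL : T_REL) (p : ℕ) [hpF : Fact p.Prime] (hp2 : p ≠ 2)
    (K : Type) [Field K] [NumberField K]
    (ιinf : AlgebraicClosure K →+* ℂ) (ιp : AlgebraicClosure K →+* ℂ_[p])
    (Lg : IwasawaLog p ℂ_[p]) (S : Set (K →+* ℂ)) (hCM : IsCMType S) (hord : IsOrdinary ιinf ιp S)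
    (M F₀ : IntermediateField K (AlgebraicClosure K))
    (χ₀ ψ₀ : Chr K (AlgebraicClosure K) ℂ_[p]) [hfM : FiniteDimensional K M] (hχ : CutsOut χ₀ M)
    (hcop : (finrank K M).Coprime p) (hom : IsOmega χ₀) (hψ : CutsOut ψ₀ F₀) {s : ℕ}
    (hF : finrank K F₀ = p ^ s) (η : ℕ → Chr K (AlgebraicClosure K) ℂ_[p]) (hη : IsTower η)
    (n₀ : ℕ) (hn₀ : s + 2 ≤ n₀)
    (A : Set (IntermediateField K (AlgebraicClosure K) × Chr K (AlgebraicClosure K) ℂ_[p]))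
    (hA : LocC p K A)
    (e : IntermediateField K (AlgebraicClosure K) × Chr K (AlgebraicClosure K) ℂ_[p] → ℕ)
    (he : LocE p K e) :
  ∀ η' : ℝ, 0 < η' → ∀ᶠ X : ℕ in Filter.atTop,
    cntE e {x | x ∈ A ∧ ∀ l, ¬ ∀ l' : ℕ,
      GoodX ιinf ιp Lg S (χ₀ ^ p ^ l') (ψ₀ * η (n₀ + l)) x} X ≤ η' * cntE e A X := by
  classical
  have hp : p.Prime := hpF.out
  have hPH := Pool.Agent.Helper22.RP.s_phi
  have hNS := Pool.Agent.Helper11.RP.s_nsp
  have htc : IsTotallyComplex K := Pool.Agent.Helper35.RD.totallyComplex_of_cm hCM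
  have hcl : PlaceClosed (TSet ιinf ιp S) := Pool.Agent.Helper35.RD.tset_closed ιinf ιp S hord
  have hcard : finrank ℚ K = 2 * (TSet ιinf ιp S).ncard := by
    rw [Pool.Agent.Helper35.RD.tset_ncard, Pool.Agent.Helper35.RD.two_mul_ncard_cm hCM]
  have hp3 : 3 ≤ p := by
    have := hp.two_le
    omega
  have hp3r : (3 : ℝ) ≤ p := by exact_mod_cast hp3
  have hθ0 : (0 : ℝ) ≤ 1 / ((p : ℝ) - 1) := by
    have : (0 : ℝ) < (p : ℝ) - 1 := by linarith
    positivity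
  have hθ1 : 1 / ((p : ℝ) - 1) < 1 := by rw [div_lt_one (by linarith)]; linarith
  have hfF : FiniteDimensional K F₀ := FiniteDimensional.of_finrank_pos (by
    rw [hF]; exact pow_pos hp.pos s)
  have hnF₀ : NumberField F₀ := NumberField.of_module_finite K F₀
  have hψs : ∀ g, (ψ₀ g) ^ p ^ s = 1 := fun g => by
    rw [← hF]; exact Pool.Agent.Helper38.FD.pow_card_desc hψ g
  -- the fields
  choose F hFc hFd hFr using fun l : ℕ => tow_F Pool.Agent.Helper32.TH.d_unr hη F₀ ψ₀ hψ hF (n₀ + l)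
  have hpK : (p : K) ≠ 0 := by exact_mod_cast hp.ne_zero
  have hSf : {v : HeightOneSpectrum (𝓞 K) | v.valuation K (p : K) < 1}.Finite :=
    (Pool.Agent.Helper99.RS.finite_bad hpK).subset fun v hv => ne_of_lt hv
  have hpv : ∀ v : HeightOneSpectrum (𝓞 K), (p : 𝓞 K) ∈ v.asIdeal →
      v.valuation K (p : K) < 1 := by
    intro v hv
    have h1 := (HeightOneSpectrum.valuation_lt_one_iff_mem (K := K) v (p : 𝓞 K)).2 hv
    simpa using h1
  refine asmZ Pool.Agent.Helper77.PPL.d_map Pool.Agent.Helper39.PPB.b_chr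
    Pool.Agent.Helper14.PW.w_ldt Pool.Agent.Helper5.PW.w_pro Pool.Agent.Helper32.FW.g_wt
    Pool.Agent.Helper49.FW.g_asm p K ιinf ιp Lg S F χ₀ (fun l => ψ₀ * η (n₀ + l))
    ({v | RamIn F₀ v} ∪ {v : HeightOneSpectrum (𝓞 K) | v.valuation K (p : K) < 1})
    ((Pool.Agent.Helper95.PP.ram_finite K F₀).union hSf)
    (fun v hv l hl => hv ((hFr l v hl).imp id (hpv v))) ?_ A hA e he
  intro K₁ _ ε ε₁ εk nf cf hε hK₁ hε₁ hC hεk n1 n5
  have hgK : IsGalois K K₁ := hC.gal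
  have htc₁ : IsTotallyComplex K₁ := tc_up K K₁
  have hcopK : (finrank K K₁).Coprime p := by
    have h1 := Pool.Agent.Helper14.RD.finrank_dvd_pred p K K₁ ε₁ hC.prim hC.gen
    exact Nat.Coprime.coprime_dvd_left h1 ((Nat.coprime_self_sub_left
      (Fact.out : p.Prime).one_le).2 (Nat.coprime_one_left p))
  have hεK : ε ∈ K₁ := by rw [← hε₁]; exact ε₁.2
  have hset : ∀ (B : ℕ → Set (ClP p K₁)), {c | ∀ l, c ∈ B l} = {c | ∀ n, 0 ≤ n → c ∈ B n} := by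
    intro B
    ext c
    exact ⟨fun h n _ => h n, fun h n => h n (Nat.zero_le n)⟩
  -- the levels
  have hJ1 : ∀ (J : ℕ → IntermediateField K (AlgebraicClosure K)) [∀ l, NumberField (J l)],
      (∀ l, CutsOut ((ψ₀ * η (n₀ + l)) ^ p) (J l)) → ∀ l, finrank K (J l) ≠ 1 := by
    intro J _ hJ l h1
    have h2 := deg_M₂ hη hψs n₀ J hJ l
    rw [h1, mul_one] at h2
    have h3 : s + 1 < n₀ + l := by omega
    exact absurd h2 (not_le.2 (Nat.pow_lt_pow_right hp.one_lt h3))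
  have hpw : ∀ (J M₂ : ℕ → IntermediateField K (AlgebraicClosure K)) [∀ l, NumberField (J l)]
      [∀ l, NumberField (M₂ l)] [∀ l, Algebra K₁ (M₂ l)],
      (∀ l, CutsOut ((ψ₀ * η (n₀ + l)) ^ p) (J l)) → (∀ l, M₂ l = K₁ ⊔ J l) →
      (∀ l, ∀ x : K₁, ((algebraMap K₁ (M₂ l) x : M₂ l) : AlgebraicClosure K) = x) →
      ∀ (l l' : ℕ) (y : K₁), (∃ w : M₂ l, w ^ p = algebraMap K₁ (M₂ l) y) →
        ∃ w : M₂ l', w ^ p = algebraMap K₁ (M₂ l') y := by
    intro J M₂ _ _ _ hJ hM₂ hval l l' y ⟨w, hw⟩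
    have h1 : (w : AlgebraicClosure K) ^ p = (y : AlgebraicClosure K) := by
      rw [← hval l y, ← hw]
      rfl
    have h2 : (w : AlgebraicClosure K) ∈ K₁ ⊔ J l' := by
      refine pws hη hψs K₁ hcopK hε hεK (n := n₀ + l) (n' := n₀ + l') (by omega) (by omega)
        (hJ l) (hJ l') ?_ ?_
      · rw [← hM₂ l]; exact w.2
      · rw [h1]; exact y.2
    refine ⟨⟨w, by rw [hM₂ l']; exact h2⟩, Subtype.ext ?_⟩
    rw [hval l' y]
    exact h1
  have hMK : M = K₁ := field_omega hε hK₁ hχ hcop hom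
  have hχK : CutsOut χ₀ K₁ := hMK ▸ hχ
  by_cases h1 : 1 < finrank K K₁
  · -- `ω ≠ 1`
    refine y_clsOZ a_ykum a_ogl hPH hNS p hp2 K ιinf ιp Lg K₁ ε₁ hC h1 εk hεk nf cf n1 n5 S hcl
      χ₀ hχK hom F _ hFc hFd (fun Bd => MomA p K ε₁ Bd 0) ?_
    intro J M₂ _ _ _ _ δ i a₀ ζ Φ hδ hJ hM₂ hval hB hPhi
    have hirr : Fact (Irreducible (X - C (i : ZMod p))) := ⟨(hB 0).sit.irr⟩
    have hP0 : (X - C (i : ZMod p)) ≠ 0 := (hB 0).sit.irr.ne_zero
    have hfinA : Module.Finite (ZMod p) (AdjoinRoot (X - C (i : ZMod p))) :=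
      (AdjoinRoot.powerBasis hP0).finite
    have hfA : Finite (AdjoinRoot (X - C (i : ZMod p))) := Module.finite_of_finite (ZMod p)
    let instA : Fintype (AdjoinRoot (X - C (i : ZMod p))) := Fintype.ofFinite _
    have hgJ := deg_M₂ hη hψs n₀ J hJ
    have homs : Pool.Agent.Helper11.M3.OmS p K₁ ε₁ δ (X - C (i : ZMod p)) :=
      Pool.Agent.Helper96.M3.a_oms p K K₁ K₁ K₁ ε₁ δ (X - C (i : ZMod p)) (hB 0).sit hp2
        (finrank_self K₁) i ε₁ rfl rfl hδ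
    rw [hset]
    refine momZO Pool.Agent.Helper38.TH.mtg4 Pool.Agent.Helper65.TH.g4_nv hCLB hEXA hREL
      a_grp a_chg Pool.Agent.Helper96.WY.y_sgb a_ypwa Pool.Agent.Helper39.WY.o_tri zden' p hp2 Lg
      K K₁ K₁ K₁ (fun l => J l) (fun l => M₂ l) ε₁ δ (X - C (i : ZMod p)) i rfl a₀ hB
      (fun l => ⟨ε₁, rfl, hδ⟩) (fun z => ⟨z, rfl⟩) ?_ (TSet ιinf ιp S) (1 / ((p : ℝ) - 1)) hθ0 hθ1
      (Pool.Agent.Helper38.TH.al_omc p K K₁ K₁ K₁ (fun l => J l) (fun l => M₂ l) ε₁ δ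
        (X - C (i : ZMod p)) a₀ hB homs (hJ1 J hJ) ?_ (TSet ιinf ιp S)
        (extO p Lg K K₁ (fun l => J l) (fun l => M₂ l) ε₁ δ i a₀ hB ζ Φ hPhi (TSet ιinf ιp S) hcl
          hcard)) 0
    · refine deg_tend hp.one_lt s n₀ _ fun l => (hgJ l).trans (Nat.mul_le_mul_left _ ?_)
      have := (hB l).t4
      exact fin_le
    · intro l l' y hy
      exact hpw J M₂ hJ hM₂ hval l l' y hy
  · -- `ω = 1`
    have hfK₁ : FiniteDimensional K K₁ := Module.Finite.of_restrictScalars_finite ℚ K K₁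
    have h2 : finrank K K₁ = 1 := by
      have : 0 < finrank K K₁ := finrank_pos
      omega
    have hbot : K₁ = ⊥ := IntermediateField.finrank_eq_one_iff.1 h2
    have hχ1 : χ₀ = 1 := by
      ext g
      have h3 : χ₀ g = 1 := by
        rw [hχ g, hMK, hbot]
        intro x hx
        obtain ⟨y, rfl⟩ := IntermediateField.mem_bot.1 hx
        exact g.commutes y
      rw [h3]
      rfl
    rw [hχ1]
    refine y_clsO0Z a_ykum a_ogl0 p hp2 K ιinf ιp Lg K₁ ε₁ hC hbot εk hεk nf cf n1 n5 S hcl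
      F _ hFc hFd (fun Bd => MomA p K ε₁ Bd 0) ?_
    intro J M₂ _ _ _ _ a₀ hε₀ hJ hM₂ hval hB
    have hirr : Fact (Irreducible (X - 1 : (ZMod p)[X])) := ⟨(hB 0).sit.irr⟩
    have hP0 : (X - 1 : (ZMod p)[X]) ≠ 0 := (hB 0).sit.irr.ne_zero
    have hfinA : Module.Finite (ZMod p) (AdjoinRoot (X - 1 : (ZMod p)[X])) :=
      (AdjoinRoot.powerBasis hP0).finite
    have hfA : Finite (AdjoinRoot (X - 1 : (ZMod p)[X])) := Module.finite_of_finite (ZMod p)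
    let instA : Fintype (AdjoinRoot (X - 1 : (ZMod p)[X])) := Fintype.ofFinite _
    have hgJ := deg_M₂ hη hψs n₀ J hJ
    obtain ⟨ε₀, hε₀'⟩ := id hε₀
    have hK₁s : ∀ z : K₁, ∃ y : K, algebraMap K K₁ y = z := by
      intro z
      have h2 : ∀ σ : K₁ ≃ₐ[K] K₁, σ = 1 := fun σ =>
        (hB 0).sit.gen σ (by rw [← hε₀']; exact σ.commutes ε₀)
      have h5 := (IsGalois.mem_bot_iff_fixed (F := K) (E := K₁) z).2 (fun σ => by rw [h2 σ]; rfl)
      obtain ⟨y, hy⟩ := IntermediateField.mem_bot.1 h5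
      exact ⟨y, hy⟩
    have homs : Pool.Agent.Helper11.M3.OmS p K₁ ε₁ (1 : K ≃ₐ[K] K) (X - 1 : (ZMod p)[X]) :=
      Pool.Agent.Helper96.M3.a_oms p K K K₁ K₁ ε₁ 1 (X - 1) (hB 0).sit hp2 (finrank_self K₁) 1 ε₀
        (by simp) (by rw [hε₀']; rfl) (by rw [pow_one]; rfl)
    rw [hset]
    refine momZO Pool.Agent.Helper38.TH.mtg4 Pool.Agent.Helper65.TH.g4_nv hCLB hEXA hREL
      a_grp a_chg Pool.Agent.Helper96.WY.y_sgb a_ypwa Pool.Agent.Helper39.WY.o_tri zden' p hp2 Lg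
      K K K₁ K₁ (fun l => J l) (fun l => M₂ l) ε₁ (1 : K ≃ₐ[K] K) (X - 1) 1 (by simp) a₀ hB
      (fun l => ⟨ε₀, ?_, by rw [pow_one]; rfl⟩) hK₁s ?_ (TSet ιinf ιp S) (1 / ((p : ℝ) - 1)) hθ0
      hθ1
      (Pool.Agent.Helper38.TH.al_omc p K K K₁ K₁ (fun l => J l) (fun l => M₂ l) ε₁
        (1 : K ≃ₐ[K] K) (X - 1) a₀ hB homs (hJ1 J hJ) ?_ (TSet ιinf ιp S)
        (extO0 p hp2 Lg K K₁ (fun l => J l) (fun l => M₂ l) ε₁ a₀ hB hε₀ (hJ1 J hJ)
          (TSet ιinf ιp S) hcard)) 0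
    · have := tow_K (hB l)
      rw [← hε₀', ← IsScalarTower.algebraMap_apply K K₁ (M₂ l)]
    · refine deg_tend hp.one_lt s n₀ _ fun l => (hgJ l).trans (Nat.mul_le_mul_left _ ?_)
      have := (hB l).t4
      exact fin_le
    · intro l l' y hy
      have t1 := tow_K (hB l)
      have t2 := tow_K (hB l')
      obtain ⟨w, hw⟩ := hy
      obtain ⟨w', hw'⟩ := hpw J M₂ hJ hM₂ hval l l' (algebraMap K K₁ (y : K)) ⟨w, by
        rw [hw, ← IsScalarTower.algebraMap_apply K K₁ (M₂ l)]⟩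
      exact ⟨w', by rw [hw', ← IsScalarTower.algebraMap_apply K K₁ (M₂ l')]⟩

end Pool.Agent.Helper42.TH
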