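import Pool.Agent.Helper42.TH.Defs

/-!
# Project TH (MP_fc6b1e_nt, T100), class level: goals

Every statement is a `def ... : Prop` with its complete proof in the docstring. `e(z) = exp(-z)`.
-/

set_option autoImplicit false

namespace Pool.Agent.Helper42.TH

open NumberField Polynomial Module IsDedekindDomain
open Pool.Agent.Helper51.RP Pool.Agent.Helper42.RD Pool.Agent.Helper42.PP Pool.Agent.Helper42.PP1
open Pool.Agent.Helper42.PB Pool.Agent.Helper42.PW Pool.Agent.Helper11.PP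
open Pool.Agent.Helper38.WY
open Pool.Agent.Helper51.SigLeo (IwasawaLog)
open Pool.Agent.Helper17.PP (Sys lg)
open Pool.Agent.Helper11.M3 (HypW)
open Pool.Agent.Helper11.LE (Cyc)
open Pool.Agent.Helper38.TH

/-- **T_CLW** (a weighted sum is at most a weighted sum over layers). The elements of the finite set `G` are in `A`.

PROOF. Let `M₀` be larger than all `n b/X`, `b ∈ G`. For `b ∈ G` let `k` be the least natural number with `n b ≤ (k + 1) X`; then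
`k < M₀` (or `k = 0`; take `M₀ ≥ 1`), and `n b > k X` if `k > 0`, so `e(n b/X) ≤ e(k)` (for `k = 0` because `n b ≥ 0`). So
`e(n b/X) ≤ ∑_{k < M} e(k) 1[n b ≤ (k+1) X]` for every `M ≥ M₀`; sum over `b ∈ G`: `#{b ∈ G : n b ≤ (k+1) X} ≤
#{b ∈ A : n b ≤ (k+1) X}`. -/
def T_CLW : Prop :=
  ∀ (β : Type) (n : β → ℕ) (A : Set β) (G : Finset β) (X : ℝ), 0 < X →
    (∀ Y : ℝ, {b | b ∈ A ∧ (n b : ℝ) ≤ Y}.Finite) → (∀ b ∈ G, b ∈ A) →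
  ∃ M₀ : ℕ, ∀ M, M₀ ≤ M → ∑ b ∈ G, Real.exp (-(n b / X)) ≤
    ∑ k ∈ Finset.range M, Real.exp (-(k : ℝ)) *
      ({b | b ∈ A ∧ (n b : ℝ) ≤ ((k : ℝ) + 1) * X}.ncard : ℝ)

open Classical in
/-- **CLA** (from weighted sums in finitely many families to the number of the elements of one family; compare `N_ABS`). The
constant `C'` depends only on the doubling constant `C`. -/
def CLA : Prop :=
  ∀ C : ℝ, 1 ≤ C → ∃ C' : ℝ, 0 < C' ∧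
  ∀ (𝒯 : Type) [Fintype 𝒯] [Nonempty 𝒯] (β : 𝒯 → Type) (n : ∀ τ, β τ → ℕ)
    (bad : ∀ τ, Set (β τ)) (exb : ∀ τ, ℝ → Set (β τ)) (F : 𝒯 → ℕ) (g : ℝ → ℝ)
    (K c X₁ θ C₁ δ : ℝ), (∀ τ, 1 ≤ F τ) → 0 < c → 0 ≤ θ → 0 ≤ C₁ → 0 ≤ δ → Slow g K →
    (∀ τ, ∀ X : ℝ, 0 < X → {b : β τ | (n τ b : ℝ) ≤ X}.Finite ∧
      ({b : β τ | (n τ b : ℝ) ≤ X}.ncard : ℝ) ≤ K * (X * g X)) →
    (∀ τ, ∀ X : ℝ, 0 < X → X₁ ≤ X → c * (X * g X) ≤ {b : β τ | (n τ b : ℝ) ≤ X}.ncard) →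
    (∀ ε : ℝ, 0 < ε → ∃ X₀ : ℝ, ∀ τ, ∀ X : ℝ, X₀ ≤ X → ∃ G : Finset (β τ),
      (∀ b, (n τ b : ℝ) ≤ X → b ∈ G) ∧
      ∑ b ∈ G with b ∈ bad τ, Real.exp (-(n τ b / X)) ≤
        θ * ∑ b ∈ G, Real.exp (-(n τ b / X)) +
        C₁ * ∑ b ∈ G with b ∈ exb τ X, Real.exp (-(n τ b / X)) + ε * (X * g X)) →
  ∀ (ι : Type) (f : ι → ℕ) (Bd Ex : Set ι) (Φ : ι → Σ τ, β τ), Function.Injective Φ →
    (Set.range Φ)ᶜ.Finite → (∀ i, f i = F (Φ i).1 * n (Φ i).1 (Φ i).2) →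
    (∀ i ∈ Bd, (Φ i).2 ∈ bad (Φ i).1) →
    (∃ X₀ : ℝ, ∀ X : ℝ, X₀ ≤ X → ∀ i, (Φ i).2 ∈ exb (Φ i).1 X →
      √X ≤ n (Φ i).1 (Φ i).2 → (n (Φ i).1 (Φ i).2 : ℝ) ≤ X ^ 2 → i ∈ Ex) →
    (∃ X₀ : ℝ, 0 < X₀ ∧ ∀ X : ℝ, X₀ ≤ X →
      ({i | (f i : ℝ) ≤ 2 * X}.ncard : ℝ) ≤ C * {i | (f i : ℝ) ≤ X}.ncard) →
    (∀ᶠ X : ℝ in Filter.atTop,
      ({i | i ∈ Ex ∧ (f i : ℝ) ≤ X}.ncard : ℝ) ≤ δ * {i | (f i : ℝ) ≤ X}.ncard) →
  ∀ η : ℝ, 0 < η → ∀ᶠ X : ℝ in Filter.atTop,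
    ({i | i ∈ Bd ∧ (f i : ℝ) ≤ X}.ncard : ℝ) ≤
      (C' * (θ + C₁ * δ) + η) * {i | (f i : ℝ) ≤ X}.ncard

/-- **T_CLA**.

PROOF (from `T_CLW`). `W = ∑_k e(k) C^(Nat.log 2 (k+1) + 1)`, convergent (`C ≤ 2^a`, `a ∈ ℕ`, so `C^(Nat.log 2 (k+1)) ≤ (k+1)^a`, because
`2^(Nat.log 2 (k+1)) ≤ k+1`), and `C' = e W`, `e = exp 1`. Let `N(X) = #{i : f i ≤ X}` (finite, increasing), `h` the number of the
elements not in the range of `Φ`, `X_τ = X/F_τ`. As in `N_ABS` (`n_abs`, `Pool/Agent/Helper50/ND/`, use its first steps): `f i ≤ X` iff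
`n b ≤ X_τ` for `Φ i = (τ, b)`; `∑_τ #{b : n b ≤ X_τ} ≤ N(X) + h`; there is `c' > 0` with `c' X g(X) ≤ N(X)` for large `X`; so `N(X) → ∞`. By the
doubling hypothesis `N((k+1) X) ≤ C^(Nat.log 2 (k+1) + 1) N(X)` for `X ≥ X₀` (`k + 1 ≤ 2^(Nat.log 2 (k+1) + 1)`). Let `ε > 0` and let `X` be large
(in terms of `ε`; all `X_τ ≥ X/max F` are large), `G_τ` as given for `X_τ`.
(0) `#{i ∈ Bd : f i ≤ X} ≤ ∑_τ #{b ∈ bad τ : n b ≤ X_τ} ≤ e ∑_τ ∑_{b ∈ G_τ, bad} e(n b/X_τ) ≤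
e [θ ∑_τ ∑_{G_τ} e(n b/X_τ) + C₁ ∑_τ ∑_{G_τ, exb} e(n b/X_τ) + ε ∑_τ X_τ g(X_τ)]` (`e(n b/X_τ) ≥ e(1)` if `n b ≤ X_τ`).
(1) `T_CLW` (with `A = univ`; a common `M` for all `τ`): `∑_τ ∑_{G_τ} e(n b/X_τ) ≤ ∑_{k < M} e(k) ∑_τ #{b : n b ≤ (k+1) X_τ} ≤
∑_k e(k) (N((k+1) X) + h) ≤ W N(X) + 2 h` (`∑_k e(k) ≤ 2`).
(2) The sum over `b ∈ G_τ`, `b ∈ exb τ X_τ` is at most the sum of four parts, `Y = X_τ ≥ 1`: `n b < √Y`: at most `#{n b ≤ √Y} ≤ K √Y g(√Y) ≤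
K² √Y g(Y)`. `n b > Y²`: `e(n b/Y) ≤ e(Y/2) e(n b/(2Y))`, and by `T_CLW` `∑_{G_τ} e(n b/(2Y)) ≤ ∑_k e(k) K (k+1) 2Y g((k+1) 2Y) ≤ K'' Y g(Y)`
with `K''` depending on `K` only (`g((k+1) 2Y) ≤ K · K^(Nat.log 2 (k+1) + 2) g(Y)` by `Slow.dbl`, `Slow.mono`; `K ≥ 1`), so this part is at most
`e(Y/2) K'' Y g(Y)`. `√Y ≤ n b ≤ Y²`, `(τ, b)` not in the range of `Φ`: at most `h` in all. `√Y ≤ n b ≤ Y²` and `(τ, b) = Φ i`: then `i ∈ Ex`; the sum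
over `τ` of these parts is by `T_CLW` (`A` the set of these `b`) at most `∑_k e(k) #{i ∈ Ex : f i ≤ (k+1) X} ≤ ∑_k e(k) δ N((k+1) X) ≤ δ W N(X)`.
(3) `∑_τ X_τ g(X_τ) ≤ |𝒯| K X g(X) ≤ (|𝒯| K/c') N(X)`; the first two parts in (2) are at most `ε' X g(X) ≤ (ε'/c') N(X)` for large `X`; `h ≤ ε' N(X)`.
Altogether `#{i ∈ Bd : f i ≤ X} ≤ (e W (θ + C₁ δ) + (a constant) (ε + ε')) N(X)`. -/
def T_CLA : Prop := T_CLW → CLA

open Classical in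
/-- **CLB** (from the labels to the classes; compare `W_MOMV` and `w_momG` in `Pool/Agent/Helper42/WY/WMOMG.lean`). The constant
`C'` depends only on the doubling constant `C` of the family. -/
def CLB : Prop :=
  ∀ C : ℝ, 1 ≤ C → ∃ C' : ℝ, 0 < C' ∧
  ∀ (p : ℕ) [Fact p.Prime] (_ : IwasawaLog p ℂ_[p]) (K M K₁ M₁ : Type) [Field K]
    [NumberField K] [Field M] [NumberField M] [Field K₁] [NumberField K₁] [Field M₁]
    [NumberField M₁] [Algebra K M] [Algebra K K₁] [Algebra K M₁] [Algebra M M₁] [Algebra K₁ M₁]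
    (ε : K₁) (δ : M ≃ₐ[K] M) (P : (ZMod p)[X]) [Fact (Irreducible P)],
    SitW p K M K₁ M₁ ε δ P →
  ∀ (B : Base p K M K₁ M₁ ε δ P) (g : ℝ → ℝ) (K₀ : ℝ), Slow g K₀ →
  ∀ (θ C₁ δ' : ℝ), 0 ≤ θ → 0 ≤ C₁ → 0 ≤ δ' →
  ∀ (S₀ : Finset (HeightOneSpectrum (𝓞 K))) (A Bd Ex : Set (ClP p K₁))
    (f : ClP p K₁ → ℕ), S₀ ⊆ B.S → LocA p K ε S₀ A →
    (∃ a : K₁ˣ, OmType p K ε (a : K₁) ∧ clp p a ∈ A) → IsWt p K ε S₀ f →
    (∃ X₀ : ℝ, 0 < X₀ ∧ ∀ X : ℝ, X₀ ≤ X →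
      cV f (BSet p K ε ∩ A) (2 * X) ≤ C * cV f (BSet p K ε ∩ A) X) →
    (∀ᶠ X : ℝ in Filter.atTop,
      cV f (BSet p K ε ∩ A ∩ Ex) X ≤ δ' * cV f (BSet p K ε ∩ A) X) →
    (∀ aτ : K₁ˣ, OmType p K ε (aτ : K₁) → clp p aτ ∈ A →
      ∃ (n : ℕ) (E : TauF n B) (V : Set (HeightOneSpectrum (𝓞 K)))
        (s0 : HeightOneSpectrum (𝓞 K) → ZMod p) (bad : Finset B.LP → Prop)
        (exb : ℝ → Finset B.LP → Prop) (Kc c X₁ : ℝ), 0 < c ∧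
        (∀ X : ℝ, 0 < X → {b | (sysB B E V s0 aτ).Fam b ∧
            ((sysB B E V s0 aτ).nm b : ℝ) ≤ X}.Finite ∧
          ({b | (sysB B E V s0 aτ).Fam b ∧ ((sysB B E V s0 aτ).nm b : ℝ) ≤ X}.ncard : ℝ) ≤
            Kc * (X * g X)) ∧
        (∀ X : ℝ, 0 < X → X₁ ≤ X → c * (X * g X) ≤
          {b | (sysB B E V s0 aτ).Fam b ∧ ((sysB B E V s0 aτ).nm b : ℝ) ≤ X}.ncard) ∧
        (∀ ε' : ℝ, 0 < ε' → ∃ X₀ : ℝ, ∀ X : ℝ, X₀ ≤ X → ∀ Pf : Finset B.LP,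
          ∑ b ∈ Pf.powerset with ((sysB B E V s0 aτ).Fam b ∧ bad b),
              Real.exp (-((sysB B E V s0 aτ).nm b / X)) ≤
            θ * ∑ b ∈ Pf.powerset with (sysB B E V s0 aτ).Fam b,
              Real.exp (-((sysB B E V s0 aτ).nm b / X)) +
            C₁ * ∑ b ∈ Pf.powerset with ((sysB B E V s0 aτ).Fam b ∧ exb X b),
              Real.exp (-((sysB B E V s0 aτ).nm b / X)) + ε' * (X * g X)) ∧
        (∀ a : K₁ˣ, clp p a ∈ Bd → OmType p K ε (a : K₁) → LocS p (up K₁ B.S) (a / aτ) →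
          bad (B.lab a)) ∧
        (∃ X₀ : ℝ, ∀ X : ℝ, X₀ ≤ X → ∀ a : K₁ˣ, OmType p K ε (a : K₁) →
          LocS p (up K₁ B.S) (a / aτ) → exb X (B.lab a) →
          √X ≤ (sysB B E V s0 aτ).nm (B.lab a) →
          ((sysB B E V s0 aτ).nm (B.lab a) : ℝ) ≤ X ^ 2 → clp p a ∈ Ex)) →
  ∀ η : ℝ, 0 < η → ∀ᶠ X : ℝ in Filter.atTop,
    cV f (BSet p K ε ∩ A ∩ Bd) X ≤ (C' * (θ + C₁ * δ') + η) * cV f (BSet p K ε ∩ A) X

/-- **T_CLB**.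

PROOF (from `CLA`, `W_CND`; compare `coreV` in `Pool/Agent/Helper87/PW/WMOMV.lean` and `w_momG` in `Pool/Agent/Helper42/WY/WMOMG.lean`, which can be
followed line by line). `C'` is the constant of `CLA`. The set `F₀` of representatives, the constants common to all `τ ∈ F₀` (`common`), the
numbers `F_τ`, the map `Φ c = (τ, lab a)`, its injectivity, range and the weights are as there, with `β τ = {b : Finset B.LP // Fam τ b}`,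
`bad τ = {b | bad b}`, `exb τ X = {b | exb X b}`. The finite set `G` for `X` is the set of all `b ⊆ upto X` with `Fam b`
(`Pf = (sysB ..).upto X`): it contains all `b` with `nm b ≤ X` (`N q` divides `nm b` for `q ∈ b`), and sums over a finset of the subtype `β τ` are
sums over `Pf.powerset` with the condition `Fam` (`Finset.sum_subtype`, or take `G = (Pf.powerset.filter Fam).subtype`); take the maximum of the
finitely many `X₀`. The exceptional set: if `Φ c = (τ, lab a)` with `a` the chosen representative of `c`, then `exb X (lab a)`, `√X ≤ nm`,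
`nm ≤ X²` give `c = clp p a ∈ Ex` for `X ≥` the maximum of the `X₀`. The doubling and the hypothesis on `Ex` are those of `CLA` after the
restriction of `f` to the subtype `BSet ∩ A` (end of `coreV`). -/
def T_CLB : Prop := CLA → W_CND → CLB

/-- **T_REL** (the exceptional `b` for the scale `X` belong to exceptional classes).

PROOF (from `W_CND`; `V_LAB` is the theorem `Pool.Agent.Helper42.PB.v_lab`). Let `F ≥ 1` be given by `W_CND` as in `w_momG` (`hFT` there, with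
`hval1`, `hval2`): `f (clp p a) = F nm(lab a)` for `a` of type `ω` with `LocS (a/aτ)`. For such `a` and `v ∉ B.S`: `ValC (clp p a) v` if and only if
`v = q.1.1` for some `q ∈ lab a` (if `v ∉ calP` then `p` divides `ord_W(a)` for all `W` above `v` in `K₁`; if `v ∈ calP` then `p ∤ ord_W(a)` iff
`ordp p (Q v) a ≠ 0`, and then `q = (v, ordp p (Q v) a) ∈ lab a`, `Pool.Agent.Helper11.PP.mem_lab`; the valuations of different representatives of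
the class are congruent modulo `p`); the map `q ↦ q.1.1` is injective on `lab a`. Let `L = lg X`, so `2^L ≤ X < 2^(L+1)`, `c = clp p a`,
`N = nm(lab a)`, `√X ≤ N ≤ X²`, `f c = F N`. For large `X`: (a) `Nat.log 2 (f c) ≤ 3 L` (`f c ≤ F X² < F 2^(2L+2)`); (b) `L ≤ 2 Nat.log 2 (f c) + 2`
(`f c ≥ √X ≥ 2^(L/2)`). Let `ExX (lab a)` hold. *First case:* `q ∈ lab a`, `V q`, `L ≤ 3 Tb bl q`: `v = q.1.1 ∈ V'`, `ValC c v`, and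
`Nat.log 2 (f c) ≤ 3 L ≤ 9 Tb bv v` by (a) (`bl q = bv v`). *Second case:* let `v ∈ W'`, `ValC c v`, `Nat.log 2 (f c) ≤ Tb bv v`. By (b)
`L - 2 ≤ 2 Tb bv v`, so for large `L` (larger than `2 Tb bv v' + 2` for all `v' ∈ B.S`, and `L ≥ 6`) `v ∉ B.S`, `Tb bv v ≥ 2`, `L ≤ 3 Tb bv v`. So `v ∈ Vs` and
`v = q.1.1` with `q ∈ lab a`, `spl q`, `L ≤ 3 Tb bl q`. The map `v ↦ q` is injective, so the number of these `v` is `< r`. -/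
def T_REL : Prop :=
  W_CND → ∀ (p : ℕ) [Fact p.Prime] (_ : IwasawaLog p ℂ_[p]) (K M K₁ M₁ : Type) [Field K]
    [NumberField K] [Field M] [NumberField M] [Field K₁] [NumberField K₁] [Field M₁]
    [NumberField M₁] [Algebra K M] [Algebra K K₁] [Algebra K M₁] [Algebra M M₁] [Algebra K₁ M₁]
    (ε : K₁) (δ : M ≃ₐ[K] M) (P : (ZMod p)[X]) [Fact (Irreducible P)],
    SitW p K M K₁ M₁ ε δ P →
  ∀ (B : Base p K M K₁ M₁ ε δ P) (n : ℕ) (E : TauF n B) (Vs : Set (HeightOneSpectrum (𝓞 K)))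
    (s0 : HeightOneSpectrum (𝓞 K) → ZMod p) (aτ : K₁ˣ), OmType p K ε (aτ : K₁) →
  ∀ (S₀ : Finset (HeightOneSpectrum (𝓞 K))) (f : ClP p K₁ → ℕ), S₀ ⊆ B.S →
    IsWt p K ε S₀ f →
  ∀ (V : B.LP → Prop) (V' W' : Set (HeightOneSpectrum (𝓞 K))) (Tb r : ℕ), 1 ≤ Tb →
    (∀ q, V q → q.1.1 ∈ V') → (∀ v ∈ W', v ∉ B.S → v ∈ Vs) →
  ∃ X₀ : ℝ, ∀ X : ℝ, X₀ ≤ X → ∀ a : K₁ˣ, OmType p K ε (a : K₁) →
    LocS p (up K₁ B.S) (a / aτ) →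
    ExX (sysB B E Vs s0 aτ) V (3 * Tb) r (lg X) (B.lab a) →
    √X ≤ (sysB B E Vs s0 aτ).nm (B.lab a) →
    ((sysB B E Vs s0 aτ).nm (B.lab a) : ℝ) ≤ X ^ 2 →
    clp p a ∈ ExC V' W' (9 * Tb) Tb r f

open Classical in
/-- **T_EX1** (the `b` which contain a large prime of `V`).

PROOF. Let `L = lg X`, `2^L ≤ X < 2^(L+1)`. If `nm b ≤ X` then `N q ≤ X` for `q ∈ b`, so `b ⊆ upto X` (everything is finite) and `bl q ≤ L`.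
(i) `nm b ≤ √X`: by `ht` with `f = 1`, `Y = √X` the number of these `b` is at most `e K √X g(√X) ≤ e K² √X g(X) ≤ (η/2) X g(X)` for large `X`
(`firstW` in `Pool/Agent/Helper42/WY/NANAG.lean`). (ii) `√X < nm b ≤ X`: `Nat.log 2 (F nm b) ≥ Nat.log 2 (nm b) ≥ L/2 - 1 ≥ L/3` (`L ≥ 6`), so the
condition implies `L ≤ 3 Ta bl q`, `bl q ≥ n`, `n = L/(3 Ta)` (floor). For large `L`, `n ≥ n₀` (`n₀` for `T = 4 Ta`) and
`4 Ta n ≥ 4 L/3 - 4 Ta ≥ L + 1 > bl q`. For fixed `q`: `b = {q} ∪ b'`, `q ∉ b'`, `nm b = N q nm b'`, and by `ht` with `f = 1`, `Y = X/N q` the number of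
these `b` is at most `e ∑_{b' ⊆ upto X} e(nm b'/Y) ≤ e K Y g(Y) ≤ e K² (X/N q) g(X)`. Sum over the `q` with `V q`, `n ≤ bl q < 4 Ta n`:
`e K² ρ (log(4 Ta) + 2) X g(X)`, `e < 3`. -/
def T_EX1 : Prop :=
  ∀ (p : ℕ) [Fact p.Prime] (B B₀ k U Λ C : Type) [Field k] [Fintype k] [Algebra (ZMod p) k]
    [AddCommGroup U] [Module k U] [AddCommGroup Λ] [Module k Λ]
    [AddCommGroup C] (S : Sys p B B₀ k U Λ C) (ψ : AddChar k ℂ) (g : ℝ → ℝ) (K : ℕ),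
    HypW S ψ g K →
  ∀ (V : B → Prop) (ρ : ℝ), 0 ≤ ρ →
    (∀ T : ℕ, 1 ≤ T → ∃ n₀ : ℕ, ∀ n, n₀ ≤ n →
      ∑ q ∈ S.below (T * n) with V q ∧ n ≤ S.bl q, (1 : ℝ) / S.N q ≤ ρ * (Real.log T + 2)) →
  ∀ (F Ta : ℕ), 1 ≤ F → 1 ≤ Ta → ∀ η : ℝ, 0 < η → ∃ X₀ : ℝ, ∀ X : ℝ, X₀ ≤ X →
    ({b : Finset B | (S.nm b : ℝ) ≤ X ∧
      ∃ q ∈ b, V q ∧ Nat.log 2 (F * S.nm b) ≤ Ta * S.bl q}.ncard : ℝ) ≤
      (3 * K ^ 2 * (ρ * (Real.log (4 * Ta) + 2)) + η) * (X * g X)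

open Classical in
/-- **T_EX2** (the `b` with fewer than `r` large primes of `W`).

PROOF. `Q = |k| ≥ 2`, `L = lg X`. If `nm b ≤ X` then `b ⊆ upto X`, and for large `X` `Nat.log 2 (F nm b) ≤ Nat.log 2 F + L + 2 ≤ 2 L`. So the condition
implies `#{q ∈ b : W q, 2 L ≤ Tb bl q} < r`, and `1 ≤ e · Q^r · (∏_{q ∈ b} f q) · e(nm b/X)` with `f q = 1/Q` if `W q` and `2 L ≤ Tb bl q`, otherwise
`f q = 1`. By `ht` the number of the `b` is at most `e Q^r K X g(X) exp(∑_{q ∈ upto X} (f q - 1)/N q)`, and the exponent is `-(1 - 1/Q) Σ`, `Σ` the sum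
of `1/N q` over the `q ∈ upto X` with `W q`, `2 L ≤ Tb bl q`. If `Tb ≤ 3` this is enough: the exponent is `≤ 0`, `(4/Tb)^(κ/2) ≥ 1`, `exp K₀ ≥ 1`,
`e < 3`. If `Tb ≥ 4` let `m` be the least natural number with `2 L ≤ Tb m`; for `L ≥ Tb`: `1 ≤ m ≤ 2L/Tb + 1 ≤ 3 L/Tb ≤ L`, and
`Σ ≥ ∑_{q ∈ below L, W q, m ≤ bl q} 1/N q ≥ κ log(L/m) - K₀ ≥ κ log(Tb/3) - K₀` (`bl q < L` implies `N q < 2^L ≤ X`). Since `1/2 ≤ 1 - 1/Q ≤ 1` and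
`κ log(Tb/3), K₀ ≥ 0`: `-(1 - 1/Q) Σ ≤ -(κ/2) log(Tb/3) + K₀` (if `κ log(Tb/3) - K₀ < 0` use `Σ ≥ 0`), so the exponential is at most
`exp K₀ · (3/Tb)^(κ/2)`. -/
def T_EX2 : Prop :=
  ∀ (p : ℕ) [Fact p.Prime] (B B₀ k U Λ C : Type) [Field k] [Fintype k] [Algebra (ZMod p) k]
    [AddCommGroup U] [Module k U] [AddCommGroup Λ] [Module k Λ]
    [AddCommGroup C] (S : Sys p B B₀ k U Λ C) (ψ : AddChar k ℂ) (g : ℝ → ℝ) (K : ℕ),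
    HypW S ψ g K →
  ∀ (W : B → Prop) (κ K₀ : ℝ), 0 < κ → 0 ≤ K₀ →
    (∀ m n : ℕ, 1 ≤ m → m ≤ n → κ * Real.log (n / m) - K₀ ≤
      ∑ q ∈ S.below n with W q ∧ m ≤ S.bl q, (1 : ℝ) / S.N q) →
  ∀ (F Tb r : ℕ), 1 ≤ F → 1 ≤ Tb → ∃ X₀ : ℝ, ∀ X : ℝ, X₀ ≤ X →
    ({b : Finset B | (S.nm b : ℝ) ≤ X ∧
      (b.filter fun q ↦ W q ∧ Nat.log 2 (F * S.nm b) ≤ Tb * S.bl q).card < r}.ncard : ℝ) ≤
      3 * K * (Fintype.card k : ℝ) ^ r * Real.exp K₀ * (4 / (Tb : ℝ)) ^ (κ / 2) * (X * g X)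

/-- **EXA** (the exceptional classes are rare). The constant `C₀` depends only on the family. -/
def EXA : Prop :=
  ∀ (p : ℕ) [Fact p.Prime] (_ : IwasawaLog p ℂ_[p]) (K K₁ : Type) [Field K] [NumberField K]
    [Field K₁] [NumberField K₁] [IsTotallyComplex K₁] [Algebra K K₁] (ε : K₁), Cyc p K K₁ ε →
  ∀ (S₀ : Finset (HeightOneSpectrum (𝓞 K))) (A : Set (ClP p K₁)) (f : ClP p K₁ → ℕ),
    LocA p K ε S₀ A → (∃ a : K₁ˣ, OmType p K ε (a : K₁) ∧ clp p a ∈ A) → IsWt p K ε S₀ f →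
  ∃ C₀ : ℝ, 0 < C₀ ∧ ∀ (V W : Set (HeightOneSpectrum (𝓞 K))) (ρ κ K₀ : ℝ), 0 ≤ ρ → 0 < κ →
    0 ≤ K₀ → Tail V ρ → MerL W κ K₀ → W ⊆ Spl K₁ ∅ →
  ∀ (Ta Tb r : ℕ), 1 ≤ Ta → 1 ≤ Tb → ∀ η : ℝ, 0 < η → ∀ᶠ X : ℝ in Filter.atTop,
    cV f (BSet p K ε ∩ A ∩ ExC V W Ta Tb r f) X ≤
      (C₀ * (ρ * (Real.log (4 * Ta) + 2) +
        (p : ℝ) ^ r * Real.exp K₀ * (4 / (Tb : ℝ)) ^ (κ / 2)) + η) *
      cV f (BSet p K ε ∩ A) X

/-- **T_EXA**.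

PROOF (from `T_EX1`, `T_EX2`, `W_CND`). Compare `momT` in `Pool/Agent/Helper42/WY/MOMG.lean`. Take `J = M = K`, `M₂ = K₁`, `a₀ = 1` (`sitB_triv`) and `B` from
`Pool.Agent.Helper53.PW.w_exb` for `S₀`, `E : TauF 0 B` as in `momT`, `V = Spl K₁ B.S`, `s0 = 0`; `|k| = p` (`k = AdjoinRoot (X - 1)`). As in `momT`, for every `aτ` of
type `ω` there are `Ka` (a natural number) with `HypW (sysB B E (Spl K₁ B.S) 0 aτ) ψ (gK κ₁) Ka`, `κ₁ = (p-1)/[K₁ : K]`, `Slow (gK κ₁) 2^(κ₁ - 1)`, and by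
`lowB`, `anhG` (with `Bad = False`, `θ = 0`) the first two properties of `AnaG` with constants `Kc, c, X₁`, `c > 0`. Let `F₀` be the finite set of
representatives as at the beginning of `w_momG` (`D_TAU`), with constants common to the `τ ∈ F₀`: `Ka`, `c`, and `F_τ` from `W_CND`. Put
`C₀ = (3 Ka² (p - 1) + 3 Ka exp(|B.S|))/c`. Let `V, W, ..` be given. *Labelled primes:* (1) `∑_{q ∈ below (T n), q.1.1 ∈ V, n ≤ bl q} 1/N q ≤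
(p - 1) ρ (log T + 2)` for `n ≥ n₀` (`Tail`; at most `p - 1` labels for each `v`; `bl q = bv q.1.1`). (2) `κ log(n/m) - K₀ - |B.S| ≤
∑_{q ∈ below n, q.1.1 ∈ W, m ≤ bl q} 1/N q` (`MerL`: the `v ∈ F`, `v ∉ B.S`, are in `Spl K₁ B.S = calP` by `W ⊆ Spl K₁ ∅`: take the label `1`; the other `v` contribute
at most `|B.S|`). Let `Z` be a natural number with `Ta bv v < Nat.log 2 Z` for all `v ∈ B.S`. Let `Bad_τ b` mean: `F_τ nm b < Z`, or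
`∃ q ∈ b, q.1.1 ∈ V, Nat.log 2 (F_τ nm b) ≤ Ta bl q`, or `#{q ∈ b : q.1.1 ∈ W, Nat.log 2 (F_τ nm b) ≤ Tb bl q} < r`. By `T_EX1` (with `(p-1) ρ`), `T_EX2` (with
`K₀ + |B.S|`) `#{b : Fam, Bad_τ, nm b ≤ X} ≤ (C₀ c (..) + η') X g(X) + #{b : nm b < Z} ≤ (C₀ (..)) #{b : Fam, nm b ≤ X} + 2 η' X g(X)` for large `X`
(`c X g(X) ≤ #{Fam, nm b ≤ X}`). If `a` is of type `ω`, `LocS (a/τ)`, `clp p a ∈ ExC`, then `Bad_τ (lab a)`: `f (clp p a) = F_τ nm(lab a)`; if it is `< Z` we are done;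
otherwise in the first case of `ExC` `v ∉ B.S`, so `v = q.1.1` with `q ∈ lab a` (see `T_REL`); in the second case every `q ∈ lab a` with `q.1.1 ∈ W`,
`Nat.log 2 (F_τ nm) ≤ Tb bl q` gives such a `v` (`ValC (clp p a) q.1.1`), and `q ↦ q.1.1` is injective on `lab a`, and `{v | ..}` is finite
(`{v | ValC c v}` is finite). Now `coreV` (with `N_ABS = Pool.Agent.Helper50.ND.n_abs`) for `Bd = ExC V W Ta Tb r f`, `Bad τ = Bad_τ`,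
`θ = C₀ (ρ (log(4 Ta) + 2) + p^r exp K₀ (4/Tb)^(κ/2))` gives `MomV p K ε A f (ExC ..) θ`, whose last part is the claim. -/
def T_EXA : Prop := T_EX1 → T_EX2 → W_CND → EXA

end Pool.Agent.Helper42.TH
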