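import Pool.Agent.Helper42.TH.Goals1
import Pool.Agent.Helper42.WY.MOM3

/-!
# Project TH: the choice of the levels, densities of finite unions
-/

set_option autoImplicit false

namespace Pool.Agent.Helper42.TH

open NumberField Polynomial Module IsDedekindDomain
open Pool.Agent.Helper51.RP Pool.Agent.Helper42.RD Pool.Agent.Helper42.PP Pool.Agent.Helper42.PP1
open Pool.Agent.Helper42.PB Pool.Agent.Helper42.PW Pool.Agent.Helper11.PP
open Pool.Agent.Helper38.WY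
open Pool.Agent.Helper51.SigLeo (IwasawaLog)
open Pool.Agent.Helper17.PP (Sys lg)
open Pool.Agent.Helper11.M3 (HypW)
open Pool.Agent.Helper11.LE (Cyc)
open Pool.Agent.Helper38.TH

/-- **ZDEN** (Mertens for the split primes). `S = ∅` and no condition on the label. -/
def ZDEN : Prop :=
  ∀ (K E : Type) [Field K] [NumberField K] [Field E] [NumberField E] [Algebra K E] [IsGalois K E],
    (∃ K₀ : ℝ, MerL (Spl E (∅ : Finset (HeightOneSpectrum (𝓞 K)))) (1 / (finrank K E : ℝ)) K₀) ∧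
    (∃ K₀ : ℝ, MerU (Spl E (∅ : Finset (HeightOneSpectrum (𝓞 K)))) (1 / (finrank K E : ℝ)) K₀) ∧
    Tail (Spl E (∅ : Finset (HeightOneSpectrum (𝓞 K)))) (4 / (finrank K E : ℝ))

theorem lv_ex (deg R : ℕ → ℝ) (hdeg : Filter.Tendsto deg Filter.atTop Filter.atTop) (n₀ N : ℕ)
    (hN : 0 < N) :
    ∃ lv : ℕ → ℕ, (∀ i, n₀ ≤ lv i) ∧ (Set.range lv).Finite ∧
      ∀ i i', i < i' → i' < N → lv i ≤ lv i' ∧ R (lv i) ≤ deg (lv i') := by
  obtain ⟨f, hf1, hf2⟩ := exists_seq_of_forall_finset_exists (fun l : ℕ => n₀ ≤ l)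
    (fun x y => x ≤ y ∧ R x ≤ deg y) (by
      intro s _
      obtain ⟨l, ⟨hl1, hl3⟩, hl2⟩ := (((Filter.eventually_ge_atTop n₀).and
        (Filter.eventually_ge_atTop (∑ x ∈ s, x))).and
        (hdeg.eventually_ge_atTop (∑ x ∈ s, |R x|))).exists
      refine ⟨l, hl1, fun x hx => ⟨?_, ?_⟩⟩
      · exact (Finset.single_le_sum (f := fun x => x) (fun i _ => Nat.zero_le _) hx).trans hl3
      exact ((le_abs_self _).trans (Finset.single_le_sum (f := fun x => |R x|)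
        (fun i _ => abs_nonneg _) hx)).trans hl2)
  refine ⟨fun i => if i < N then f i else f 0, fun i => ?_, ?_, ?_⟩
  · dsimp only
    split_ifs
    · exact hf1 i
    · exact hf1 0
  · refine ((Finset.range N).image f).finite_toSet.subset ?_
    rintro _ ⟨i, rfl⟩
    simp only [Finset.coe_image, Finset.coe_range, Set.mem_image, Set.mem_Iio]
    split_ifs with h
    · exact ⟨i, h, rfl⟩
    · exact ⟨0, hN, rfl⟩
  · intro i i' h1 h2
    simp only [if_pos h2, if_pos (h1.trans h2)]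
    exact hf2 i i' h1

section dens

variable {K : Type} [Field K] [NumberField K]

theorem MerL.mono {V : Set (HeightOneSpectrum (𝓞 K))} {κ K₀ K₁ : ℝ} (h : MerL V κ K₀)
    (hK : K₀ ≤ K₁) : MerL V κ K₁ := by
  intro m n hm hn
  obtain ⟨F, hF1, hF2⟩ := h m n hm hn
  exact ⟨F, hF1, by linarith⟩

open Classical in
theorem un_sum {α ι : Type} (w : α → ℝ) (hw : ∀ v, 0 ≤ w v) (F : Finset α) (s : Finset ι)
    (V : ι → Set α) (h2 : ∀ v ∈ F, ∃ i ∈ s, v ∈ V i) :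
    ∑ v ∈ F, w v ≤ ∑ i ∈ s, ∑ v ∈ F with v ∈ V i, w v := by
  have h3 : ∑ i ∈ s, ∑ v ∈ F with v ∈ V i, w v = ∑ v ∈ F, ∑ i ∈ s, (if v ∈ V i then w v else 0) := by
    rw [Finset.sum_comm]
    refine Finset.sum_congr rfl fun i _ => ?_
    rw [Finset.sum_filter]
  rw [h3]
  refine Finset.sum_le_sum fun v hv => ?_
  obtain ⟨i, hi, hvi⟩ := h2 v hv
  have h4 := Finset.single_le_sum (f := fun i => if v ∈ V i then w v else 0) (s := s)
    (fun j _ => by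
      split_ifs
      · exact hw v
      · exact le_rfl) hi
  simpa [hvi] using h4

open Classical in
/-- Finite unions. -/
theorem tail_un {ι : Type} (s : Finset ι) (V : ι → Set (HeightOneSpectrum (𝓞 K))) (ρ : ι → ℝ)
    (h : ∀ i ∈ s, Tail (V i) (ρ i)) : Tail {v | ∃ i ∈ s, v ∈ V i} (∑ i ∈ s, ρ i) := by
  intro T hT
  have h1 : ∀ i : s, ∃ n₀ : ℕ, ∀ n, n₀ ≤ n → ∀ F : Finset (HeightOneSpectrum (𝓞 K)),
      (∀ v ∈ F, v ∈ V i ∧ n ≤ bv v ∧ bv v < T * n) →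
      ∑ v ∈ F, (1 : ℝ) / Ideal.absNorm v.asIdeal ≤ ρ i * (Real.log T + 2) :=
    fun i => h i i.2 T hT
  choose n₀ hn₀ using h1
  refine ⟨∑ i : s, n₀ i, fun n hn F hF => ?_⟩
  have h5 : ∑ v ∈ F, (1 : ℝ) / Ideal.absNorm v.asIdeal ≤
      ∑ i ∈ s, ∑ v ∈ F with v ∈ V i, (1 : ℝ) / Ideal.absNorm v.asIdeal :=
    un_sum (fun v : HeightOneSpectrum (𝓞 K) => (1 : ℝ) / Ideal.absNorm v.asIdeal)
      (fun v => by positivity) F s V (fun v hv => (hF v hv).1)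
  refine h5.trans ?_
  calc ∑ i ∈ s, ∑ v ∈ F with v ∈ V i, (1 : ℝ) / Ideal.absNorm v.asIdeal ≤ ∑ i ∈ s, ρ i * (Real.log T + 2) := by
        refine Finset.sum_le_sum fun i hi => ?_
        refine hn₀ ⟨i, hi⟩ n (((Finset.single_le_sum (f := fun j : s => n₀ j)
          (fun j _ => Nat.zero_le _) (Finset.mem_univ (⟨i, hi⟩ : s)))).trans hn) _ ?_
        intro v hv
        rw [Finset.mem_filter] at hv
        exact ⟨hv.2, (hF v hv.1).2⟩
    _ = (∑ i ∈ s, ρ i) * (Real.log T + 2) := by rw [Finset.sum_mul]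

open Classical in
theorem merU_un {ι : Type} (s : Finset ι) (V : ι → Set (HeightOneSpectrum (𝓞 K))) (ρ K₀ : ι → ℝ)
    (h : ∀ i ∈ s, MerU (V i) (ρ i) (K₀ i)) :
    MerU {v | ∃ i ∈ s, v ∈ V i} (∑ i ∈ s, ρ i) (∑ i ∈ s, K₀ i) := by
  intro m n hm hn F hF
  have h5 : ∑ v ∈ F, (1 : ℝ) / Ideal.absNorm v.asIdeal ≤
      ∑ i ∈ s, ∑ v ∈ F with v ∈ V i, (1 : ℝ) / Ideal.absNorm v.asIdeal :=
    un_sum (fun v : HeightOneSpectrum (𝓞 K) => (1 : ℝ) / Ideal.absNorm v.asIdeal)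
      (fun v => by positivity) F s V (fun v hv => (hF v hv).1)
  refine h5.trans ?_
  calc ∑ i ∈ s, ∑ v ∈ F with v ∈ V i, (1 : ℝ) / Ideal.absNorm v.asIdeal ≤ ∑ i ∈ s, (ρ i * Real.log (n / m) + K₀ i) := by
        refine Finset.sum_le_sum fun i hi => ?_
        refine h i hi m n hm hn _ ?_
        intro v hv
        rw [Finset.mem_filter] at hv
        exact ⟨hv.2, (hF v hv.1).2⟩
    _ = (∑ i ∈ s, ρ i) * Real.log (n / m) + ∑ i ∈ s, K₀ i := by
        rw [Finset.sum_add_distrib, Finset.sum_mul]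

end dens

section lab

variable {p : ℕ} [hp : Fact p.Prime] {K M K₁ M₁ : Type} [Field K] [NumberField K]
    [Field M] [NumberField M] [Field K₁] [NumberField K₁] [Field M₁] [NumberField M₁]
    [Algebra K M] [Algebra K K₁] [Algebra K M₁] [Algebra M M₁] [Algebra K₁ M₁]
    {ε : K₁} {δ : M ≃ₐ[K] M} {P : (ZMod p)[X]} [Fact (Irreducible P)]
    (B : Base p K M K₁ M₁ ε δ P)

omit hp in
theorem mem_below {B B₀ k U Λ C : Type} [Field k] [AddCommGroup U] [Module k U]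
    [AddCommGroup Λ] [Module k Λ] [AddCommGroup C] (S : Sys p B B₀ k U Λ C) (n : ℕ) (q : B) :
    q ∈ S.below n ↔ S.bl q < n := by
  classical
  unfold Sys.below
  rw [Finset.mem_filter]
  refine ⟨fun h => h.2, fun h => ⟨?_, h⟩⟩
  rw [Set.Finite.mem_toFinset]
  show S.N q ≤ 2 ^ n
  have h1 : S.N q < 2 ^ (Nat.log 2 (S.N q) + 1) := Nat.lt_pow_succ_log_self (by norm_num) _
  have h2 : 2 ^ (Nat.log 2 (S.N q) + 1) ≤ 2 ^ n := Nat.pow_le_pow_right (by norm_num) h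
  omega

omit [Fact (Irreducible P)] in
open Classical in
/-- The labelled primes above a set of primes: at most `p - 1` labels for each prime. -/
theorem lab_sum (F : Finset B.LP) (F' : Finset (HeightOneSpectrum (𝓞 K)))
    (h : ∀ q ∈ F, q.1.1 ∈ F') :
    ∑ q ∈ F, (1 : ℝ) / Ideal.absNorm q.1.1.asIdeal ≤
      ((p : ℝ) - 1) * ∑ v ∈ F', (1 : ℝ) / Ideal.absNorm v.asIdeal := by
  have h1 : ∑ q ∈ F, (1 : ℝ) / Ideal.absNorm q.1.1.asIdeal =
      ∑ v ∈ F', ∑ q ∈ F with q.1.1 = v, (1 : ℝ) / Ideal.absNorm q.1.1.asIdeal :=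
    (Finset.sum_fiberwise_of_maps_to (g := fun q : B.LP => q.1.1) h _).symm
  rw [h1, Finset.mul_sum]
  refine Finset.sum_le_sum fun v _ => ?_
  have h2 : ∑ q ∈ F with q.1.1 = v, (1 : ℝ) / Ideal.absNorm q.1.1.asIdeal =
      ((F.filter fun q => q.1.1 = v).card : ℝ) * ((1 : ℝ) / Ideal.absNorm v.asIdeal) := by
    rw [← nsmul_eq_mul]
    refine Finset.sum_eq_card_nsmul fun q hq => ?_
    rw [(Finset.mem_filter.1 hq).2]
  rw [h2]
  refine mul_le_mul_of_nonneg_right ?_ (by positivity)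
  have h3 : (F.filter fun q => q.1.1 = v).card ≤ Fintype.card (ZMod p)ˣ := by
    rw [← Finset.card_univ]
    refine Finset.card_le_card_of_injOn (fun q => q.1.2) (fun _ _ => Finset.mem_univ _) ?_
    intro q hq q' hq' h
    have e1 := (Finset.mem_filter.1 (Finset.mem_coe.1 hq)).2
    have e2 := (Finset.mem_filter.1 (Finset.mem_coe.1 hq')).2
    exact Subtype.ext (Prod.ext (e1.trans e2.symm) h)
  have h4 : ((Fintype.card (ZMod p)ˣ : ℕ) : ℝ) = (p : ℝ) - 1 := by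
    rw [ZMod.card_units, Nat.cast_sub hp.out.one_lt.le, Nat.cast_one]
  rw [← h4]
  exact_mod_cast h3

open Classical in
theorem spr_lab {n : ℕ} (E : TauF n B) (V : Set (HeightOneSpectrum (𝓞 K)))
    (s0 : HeightOneSpectrum (𝓞 K) → ZMod p) (aτ : K₁ˣ) (W : Set (HeightOneSpectrum (𝓞 K)))
    (ρ K₀ : ℝ) (hρ : 0 ≤ ρ) (hW : MerU W ρ K₀) (V' : B.LP → Prop) (hV' : ∀ q, V' q → q.1.1 ∈ W) :
    Spr (sysB B E V s0 aτ) V' (((p : ℝ) - 1) * ρ) (((p : ℝ) - 1) * K₀) := by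
  have hp1 : (0 : ℝ) ≤ (p : ℝ) - 1 := by
    have : (1 : ℝ) ≤ p := by exact_mod_cast hp.out.one_lt.le
    linarith
  refine ⟨mul_nonneg hp1 hρ, fun m n' hm hn => ?_⟩
  have h1 := lab_sum B ((sysB B E V s0 aτ).below n' |>.filter fun q =>
      V' q ∧ m ≤ (sysB B E V s0 aτ).bl q)
    ((((sysB B E V s0 aτ).below n').filter fun q =>
      V' q ∧ m ≤ (sysB B E V s0 aτ).bl q).image fun q => q.1.1)
    (fun q hq => Finset.mem_image_of_mem _ hq)
  refine h1.trans ?_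
  have h2 := hW m n' hm hn ((((sysB B E V s0 aτ).below n').filter fun q =>
      V' q ∧ m ≤ (sysB B E V s0 aτ).bl q).image fun q => q.1.1) (by
    intro v hv
    obtain ⟨q, hq, rfl⟩ := Finset.mem_image.1 hv
    obtain ⟨hq1, hq2, hq3⟩ := Finset.mem_filter.1 hq
    rw [mem_below] at hq1
    exact ⟨hV' q hq2, hq3, hq1⟩)
  calc _ ≤ ((p : ℝ) - 1) * (ρ * Real.log (n' / m) + K₀) := mul_le_mul_of_nonneg_left h2 hp1
    _ = _ := by ring

end lab

section cls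

variable {p : ℕ} {K₁ : Type} [Field K₁]

theorem cV_un (f : ClP p K₁ → ℕ) (A : Set (ClP p K₁)) (X : ℝ) (N : ℕ) (Ex : ℕ → Set (ClP p K₁)) :
    cV f (A ∩ {c | ∃ i < N, c ∈ Ex i}) X ≤ ∑ i ∈ Finset.range N, cV f (A ∩ Ex i) X := by
  unfold cV
  have h1 : {c | c ∈ A ∩ {c | ∃ i < N, c ∈ Ex i} ∧ (f c : ℝ) ≤ X} =
      ⋃ i ∈ Finset.range N, {c | c ∈ A ∩ Ex i ∧ (f c : ℝ) ≤ X} := by
    ext c
    simp only [Set.mem_ofPred_eq, Set.mem_inter_iff, Finset.mem_range, Set.mem_iUnion]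
    constructor
    · rintro ⟨⟨h1, i, hi, h2⟩, h3⟩
      exact ⟨i, hi, ⟨h1, h2⟩, h3⟩
    · rintro ⟨i, hi, ⟨h1, h2⟩, h3⟩
      exact ⟨⟨h1, i, hi, h2⟩, h3⟩
  rw [h1]
  have h2 : (⋃ i ∈ Finset.range N, {c | c ∈ A ∩ Ex i ∧ (f c : ℝ) ≤ X}).ncard ≤
      ∑ i ∈ Finset.range N, {c | c ∈ A ∩ Ex i ∧ (f c : ℝ) ≤ X}.ncard := by
    refine Finset.set_ncard_biUnion_le _ _
  exact_mod_cast h2

end cls

end Pool.Agent.Helper42.TH
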