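import Pool.Agent.Helper42.TH.LvEx
import Pool.Agent.Helper38.TH.AsmA
import Pool.Agent.Helper38.TH.ChainW

/-!
# Project TH: the moment theorem for infinitely many levels (`MOMZ`)
-/

set_option autoImplicit false

namespace Pool.Agent.Helper42.TH

open NumberField Polynomial Module IsDedekindDomain
open Pool.Agent.Helper51.RP Pool.Agent.Helper42.RD Pool.Agent.Helper42.PP Pool.Agent.Helper42.PP1
open Pool.Agent.Helper42.PB Pool.Agent.Helper42.PW Pool.Agent.Helper11.PP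
open Pool.Agent.Helper38.WY Pool.Agent.Helper42.WY
open Pool.Agent.Helper51.SigLeo (IwasawaLog)
open Pool.Agent.Helper17.PP (Sys lg)
open Pool.Agent.Helper11.M3 (HypW)
open Pool.Agent.Helper11.LE (Cyc)
open Pool.Agent.Helper11.PB (tc_up)
open Pool.Agent.Helper38.TH

/-- The choice of `Tb`. -/
theorem tb_ex (A κ e : ℝ) (hκ : 0 < κ) (he : 0 < e) :
    ∃ Tb : ℕ, 1 ≤ Tb ∧ A * (4 / (Tb : ℝ)) ^ (κ / 2) ≤ e := by
  have h1 : Filter.Tendsto (fun n : ℕ => A * (4 / (n : ℝ)) ^ (κ / 2)) Filter.atTop (nhds 0) := by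
    have h2 : Filter.Tendsto (fun n : ℕ => (4 / (n : ℝ))) Filter.atTop (nhds 0) :=
      tendsto_const_div_atTop_nhds_zero_nat 4
    have h3 := (h2.rpow_const (p := κ / 2) (Or.inr (by positivity))).const_mul A
    rw [Real.zero_rpow (by positivity), mul_zero] at h3
    exact h3
  obtain ⟨n, hn1, hn2⟩ := ((Filter.eventually_ge_atTop 1).and
    (h1.eventually (gt_mem_nhds he))).exists
  exact ⟨n, hn1, hn2.le⟩

/-- The choice of `N` or `r`. -/
theorem pow_ex (A θ e : ℝ) (hθ0 : 0 ≤ θ) (hθ : θ < 1) (he : 0 < e) :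
    ∃ N : ℕ, 0 < N ∧ A * θ ^ N ≤ e := by
  have h1 : Filter.Tendsto (fun n : ℕ => A * θ ^ n) Filter.atTop (nhds 0) := by
    have h3 := (tendsto_pow_atTop_nhds_zero_of_lt_one hθ0 hθ).const_mul A
    rw [mul_zero] at h3
    exact h3
  obtain ⟨n, hn1, hn2⟩ := ((Filter.eventually_gt_atTop 0).and
    (h1.eventually (gt_mem_nhds he))).exists
  exact ⟨n, hn1, hn2.le⟩

/-- The parameters of the levels. -/
theorem par_ex (deg κ KL : ℕ → ℝ) (hdeg : Filter.Tendsto deg Filter.atTop Filter.atTop)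
    (hdp : ∀ l, 0 < deg l) (hκ : ∀ l, 0 < κ l) (C₀ A Q p1 δ : ℝ) (hC₀ : 0 < C₀)
    (_ : 0 ≤ A) (hQ : 0 ≤ Q) (hp1 : 0 ≤ p1) (hδ : 0 < δ) (n₀ N : ℕ) (hN : 0 < N) :
    ∃ (Tb : ℕ → ℕ) (lv : ℕ → ℕ), (∀ i, n₀ ≤ lv i) ∧ (Set.range lv).Finite ∧
      (∀ i i', i < i' → i' < N → lv i ≤ lv i') ∧
      (∀ i, 1 ≤ Tb i) ∧
      (∀ i, C₀ * (A * Real.exp (KL (lv i)) * (4 / (Tb i : ℝ)) ^ (κ (lv i) / 2)) ≤ δ / (3 * N)) ∧
      (∀ i < N, C₀ * ((∑ i' ∈ (Finset.range N).filter (fun i' => i < i'), 4 / deg (lv i')) *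
        (Real.log (4 * ((9 * Tb i : ℕ) : ℝ)) + 2)) ≤ δ / (3 * N)) ∧
      (∀ i < N, 8 * (Q + 1) * (p1 * ∑ i' ∈ (Finset.range N).filter (fun i' => i < i'),
        1 / deg (lv i')) ≤ p1 / deg (lv i)) := by
  have hNr : (0 : ℝ) < N := by exact_mod_cast hN
  have hT : ∀ l, ∃ T : ℕ, 1 ≤ T ∧ (C₀ * A * Real.exp (KL l)) * (4 / (T : ℝ)) ^ (κ l / 2) ≤
      δ / (3 * N) := fun l => tb_ex _ _ _ (hκ l) (by positivity)
  choose T hT1 hT2 using hT
  obtain ⟨lv, h1, h2, h3⟩ := lv_ex deg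
    (fun l => max 1 (max (N * 4 * C₀ * (Real.log (4 * ((9 * T l : ℕ) : ℝ)) + 2) * (3 * N) / δ)
      (8 * (Q + 1) * N * deg l))) hdeg n₀ N hN
  have hlog : ∀ l, 0 ≤ Real.log (4 * ((9 * T l : ℕ) : ℝ)) := by
    intro l
    refine Real.log_nonneg ?_
    have h4 : (1 : ℝ) ≤ T l := by exact_mod_cast hT1 l
    push_cast
    linarith
  refine ⟨fun i => T (lv i), lv, h1, h2, fun i i' hi hi' => (h3 i i' hi hi').1, fun i => hT1 _, fun i => ?_, fun i hi => ?_,
    fun i hi => ?_⟩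
  · refine le_trans (le_of_eq ?_) (hT2 (lv i))
    ring
  · have h4 : ∀ i' ∈ (Finset.range N).filter (fun i' => i < i'), 4 / deg (lv i') ≤
        δ / (3 * N) / (N * C₀ * (Real.log (4 * ((9 * T (lv i) : ℕ) : ℝ)) + 2)) := by
      intro i' hi'
      rw [Finset.mem_filter, Finset.mem_range] at hi'
      have h5 := (le_max_left _ _).trans ((le_max_right _ _).trans (h3 i i' hi'.2 hi'.1).2)
      have h6 := hlog (lv i)
      rw [div_le_iff₀ hδ] at h5
      rw [div_div, div_le_div_iff₀ (hdp _) (by positivity)]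
      calc _ = N * 4 * C₀ * (Real.log (4 * ((9 * T (lv i) : ℕ) : ℝ)) + 2) * (3 * N) := by ring
        _ ≤ _ := h5
        _ = _ := by ring
    have h5 : ∑ i' ∈ (Finset.range N).filter (fun i' => i < i'), 4 / deg (lv i') ≤
        N * (δ / (3 * N) / (N * C₀ * (Real.log (4 * ((9 * T (lv i) : ℕ) : ℝ)) + 2))) := by
      refine (Finset.sum_le_card_nsmul _ _ _ h4).trans ?_
      rw [nsmul_eq_mul]
      refine mul_le_mul_of_nonneg_right ?_ ?_
      · have : ((Finset.range N).filter (fun i' => i < i')).card ≤ N := by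
          refine (Finset.card_filter_le _ _).trans ?_
          rw [Finset.card_range]
        exact_mod_cast this
      · have h6 := hlog (lv i)
        positivity
    have h6 := hlog (lv i)
    calc _ ≤ C₀ * (N * (δ / (3 * N) / (N * C₀ * (Real.log (4 * ((9 * T (lv i) : ℕ) : ℝ)) + 2))) *
          (Real.log (4 * ((9 * T (lv i) : ℕ) : ℝ)) + 2)) := by gcongr
      _ = δ / (3 * N) := by
          field_simp
  · have h4 : ∀ i' ∈ (Finset.range N).filter (fun i' => i < i'), 1 / deg (lv i') ≤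
        1 / (8 * (Q + 1) * N * deg (lv i)) := by
      intro i' hi'
      rw [Finset.mem_filter, Finset.mem_range] at hi'
      have h5 := (le_max_right _ _).trans ((le_max_right _ _).trans (h3 i i' hi'.2 hi'.1).2)
      exact div_le_div_of_nonneg_left (by norm_num) (by have := hdp (lv i); positivity) h5
    have h5 : ∑ i' ∈ (Finset.range N).filter (fun i' => i < i'), 1 / deg (lv i') ≤
        N * (1 / (8 * (Q + 1) * N * deg (lv i))) := by
      refine (Finset.sum_le_card_nsmul _ _ _ h4).trans ?_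
      rw [nsmul_eq_mul]
      refine mul_le_mul_of_nonneg_right ?_ ?_
      · have : ((Finset.range N).filter (fun i' => i < i')).card ≤ N := by
          refine (Finset.card_filter_le _ _).trans ?_
          rw [Finset.card_range]
        exact_mod_cast this
      · have h6 := hdp (lv i)
        positivity
    have h6 := hdp (lv i)
    calc _ ≤ 8 * (Q + 1) * (p1 * (N * (1 / (8 * (Q + 1) * N * deg (lv i))))) := by gcongr
      _ = p1 / deg (lv i) := by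
          field_simp

theorem sum_dec {β : Type} (F : Finset β) (P : β → Prop) (i₁ i₂ : DecidablePred P) (w : β → ℝ) :
    (@Finset.filter β P i₁ F).sum w = (@Finset.filter β P i₂ F).sum w := by
  have h : i₁ = i₂ := Subsingleton.elim _ _
  subst h
  rfl

open Classical in
/-- The chain inequality in the form needed in `CLB`. -/
theorem chain_sum {β : Type} (F : Finset β) (Fam : β → Prop) (w : β → ℝ) (hw : ∀ b, 0 ≤ w b)
    (Bad ExU : β → Prop) (Ex : ℕ → β → Prop) (N : ℕ) (a r e : ℝ)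
    (hU : ∀ i < N, ∀ b, Ex i b → ExU b)
    (h : ∑ b ∈ F with (Fam b ∧ Bad b), w b ≤ a * ∑ b ∈ F with Fam b, w b +
      ∑ i ∈ Finset.range N, 2 * (r * ∑ b ∈ F with Fam b, w b +
        ∑ b ∈ F with (Fam b ∧ Ex i b), w b) + e) :
    ∑ b ∈ F with (Fam b ∧ Bad b), w b ≤ (a + 2 * N * r) * ∑ b ∈ F with Fam b, w b +
      2 * N * ∑ b ∈ F with (Fam b ∧ ExU b), w b + e := by
  refine h.trans ?_
  have h1 : ∑ i ∈ Finset.range N, 2 * (r * ∑ b ∈ F with Fam b, w b +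
        ∑ b ∈ F with (Fam b ∧ Ex i b), w b) ≤
      ∑ i ∈ Finset.range N, 2 * (r * ∑ b ∈ F with Fam b, w b +
        ∑ b ∈ F with (Fam b ∧ ExU b), w b) := by
    refine Finset.sum_le_sum fun i hi => ?_
    have h2 : ∑ b ∈ F with (Fam b ∧ Ex i b), w b ≤ ∑ b ∈ F with (Fam b ∧ ExU b), w b := by
      refine Finset.sum_le_sum_of_subset_of_nonneg ?_ (fun b _ _ => hw b)
      intro b hb
      rw [Finset.mem_filter] at hb ⊢
      exact ⟨hb.1, hb.2.1, hU i (Finset.mem_range.1 hi) b hb.2.2⟩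
    linarith
  have h3 : ∑ i ∈ Finset.range N, 2 * (r * ∑ b ∈ F with Fam b, w b +
        ∑ b ∈ F with (Fam b ∧ ExU b), w b) = 2 * N * r * ∑ b ∈ F with Fam b, w b +
      2 * N * ∑ b ∈ F with (Fam b ∧ ExU b), w b := by
    rw [Finset.sum_const, Finset.card_range, nsmul_eq_mul]
    ring
  calc _ ≤ a * ∑ b ∈ F with Fam b, w b + (2 * N * r * ∑ b ∈ F with Fam b, w b +
      2 * N * ∑ b ∈ F with (Fam b ∧ ExU b), w b) + e := by
        rw [← h3]
        linarith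
    _ = _ := by ring

open Classical in
/-- **MOMZ**. The classes which are bad for all the levels `n ≥ n₀` have density `0`. -/
theorem momZ (hM1 : MTG1V) (hCLB : CLB) (hEXA : EXA) (hREL : T_REL) (hSEL : Y_SEL) (hZD : ZDEN)
    (p : ℕ) [hpF : Fact p.Prime] (L : IwasawaLog p ℂ_[p]) (K M K₁ M₁ : Type) [Field K]
    [NumberField K] [IsTotallyComplex K] [Field M] [NumberField M] [Field K₁] [NumberField K₁]
    [Field M₁] [NumberField M₁] [Algebra K M] [Algebra K K₁] [Algebra K M₁] [Algebra M M₁]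
    [Algebra K₁ M₁] (J M₂ : ℕ → Type) [∀ l, Field (J l)] [∀ l, NumberField (J l)]
    [∀ l, Field (M₂ l)] [∀ l, NumberField (M₂ l)] [∀ l, Algebra K (J l)] [∀ l, Algebra K (M₂ l)]
    [∀ l, Algebra M (M₂ l)] [∀ l, Algebra K₁ (M₂ l)] [∀ l, Algebra M₁ (M₂ l)]
    [∀ l, Algebra (J l) (M₂ l)] (ε : K₁) (δ : M ≃ₐ[K] M) (P : (ZMod p)[X])
    [Fact (Irreducible P)] [Fintype (AdjoinRoot P)] (a₀ : ∀ l, (M₂ l)ˣ)
    (hs : ∀ l, SitB p K M K₁ M₁ (J l) (M₂ l) ε δ P (a₀ l))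
    (hdeg : Filter.Tendsto (fun l => (finrank K (M₂ l) : ℝ)) Filter.atTop Filter.atTop)
    (T : Set (K →+* ℂ_[p])) (θ : ℝ) (hθ0 : 0 ≤ θ) (hθ1 : θ < 1)
    (hAL : ALev p K M K₁ M₁ ε δ P M₂ a₀ T θ) (n₀ : ℕ) :
    MomA p K ε {c | ∀ n, n₀ ≤ n → c ∈ BdX T P δ ε (a₀ n)} 0 := by
  intro S A f hA hne hf
  have hp : p.Prime := hpF.out
  have hp1 : (1 : ℝ) < p := by exact_mod_cast hp.one_lt
  have hcK : IsTotallyComplex K₁ := tc_up K K₁
  have hC : Cyc p K K₁ ε := ⟨(hs 0).sit.prim, (hs 0).sit.gK, (hs 0).sit.gen⟩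
  have hQ : (0 : ℝ) < (Fintype.card (AdjoinRoot P) : ℝ) := by
    exact_mod_cast Fintype.card_pos
  have hQ1 : (1 : ℝ) < (Fintype.card (AdjoinRoot P) : ℝ) := by
    exact_mod_cast Fintype.one_lt_card
  obtain ⟨hfin, ⟨Cd, Xd, hXd, hdbl⟩, hinf, -⟩ := momT p L K K₁ ε hC 1 le_rfl ∅ S A f hA hne hf
  obtain ⟨C', hC'0, hC'⟩ := hCLB (max Cd 1) (le_max_right _ _)
  obtain ⟨C₀, hC₀0, hC₀⟩ := hEXA p L K K₁ ε hC S A f hA hne hf
  refine ⟨hfin, ⟨Cd, Xd, hXd, hdbl⟩, hinf, ?_⟩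
  intro η hη
  -- the parameters
  obtain ⟨N, hN, hNθ⟩ := pow_ex C' θ (η / 4) hθ0 hθ1 (by positivity)
  have hNr : (0 : ℝ) < N := by exact_mod_cast hN
  obtain ⟨r, -, hr⟩ := pow_ex (C' * (2 * N)) (1 / (Fintype.card (AdjoinRoot P) : ℝ)) (η / 4)
    (by positivity) (by rw [div_lt_one hQ]; exact hQ1) (by positivity)
  set δ' : ℝ := η / (8 * N * C') with hδ'
  have hδ'0 : 0 < δ' := by positivity
  have hgal : ∀ l, IsGalois K (M₂ l) := fun l => (hs l).gM₂
  have hZ : ∀ l, _ := fun l => hZD K (M₂ l)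
  choose KL hKL using fun l => (hZ l).1
  choose KU hKU using fun l => (hZ l).2.1
  have hTl := fun l => (hZ l).2.2
  have hdp : ∀ l, (0 : ℝ) < finrank K (M₂ l) := fun l => by
    have : 0 < finrank K (M₂ l) := finrank_pos
    exact_mod_cast this
  obtain ⟨Tb, lv, hlv0, hlvf, hlvm, hTb1, hTb2, hρ1, hρ2⟩ := par_ex
    (fun l => (finrank K (M₂ l) : ℝ)) (fun l => 1 / (finrank K (M₂ l) : ℝ))
    (fun l => max (KL l) 0) hdeg hdp (fun l => by have := hdp l; positivity) C₀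
    ((p : ℝ) ^ r) (Fintype.card (AdjoinRoot P) : ℝ) ((p : ℝ) - 1) δ' hC₀0 (by positivity) hQ.le
    (by linarith) hδ'0 n₀ N hN
  have hsub : ∀ l, Spl (M₂ l) (∅ : Finset (HeightOneSpectrum (𝓞 K))) ⊆ Spl K₁ ∅ := by
    intro l
    have := (hs l).sit.st2
    have := (hs l).sit.gK
    have := (hs l).t1
    have := (hs l).t3
    have := hgal l
    have : IsScalarTower K K₁ (M₂ l) := IsScalarTower.of_algebraMap_eq fun x => by
      rw [IsScalarTower.algebraMap_apply K M₁ (M₂ l), IsScalarTower.algebraMap_apply K K₁ M₁,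
        ← IsScalarTower.algebraMap_apply K₁ M₁ (M₂ l)]
    exact Pool.Agent.Helper60.PPS.vis_sub (K₁ := K₁) (M₁ := M₂ l) ∅
  -- the exceptional classes
  let Vc : ℕ → Set (HeightOneSpectrum (𝓞 K)) := fun i =>
    {v | ∃ i' ∈ (Finset.range N).filter (fun i' => i < i'),
      v ∈ Spl (M₂ (lv i')) (∅ : Finset (HeightOneSpectrum (𝓞 K)))}
  let Wc : ℕ → Set (HeightOneSpectrum (𝓞 K)) := fun i =>
    Spl (M₂ (lv i)) (∅ : Finset (HeightOneSpectrum (𝓞 K)))
  let Exc : ℕ → Set (ClP p K₁) := fun i => ExC (Vc i) (Wc i) (9 * Tb i) (Tb i) r f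
  have hTail : ∀ i, Tail (Vc i) (∑ i' ∈ (Finset.range N).filter (fun i' => i < i'),
      4 / (finrank K (M₂ (lv i')) : ℝ)) := fun i => tail_un _ _ _ (fun i' _ => hTl (lv i'))
  have hEx1 : ∀ i < N, ∀ᶠ X : ℝ in Filter.atTop,
      cV f (BSet p K ε ∩ A ∩ Exc i) X ≤ δ' / N * cV f (BSet p K ε ∩ A) X := by
    intro i hi
    have h1 := hC₀ (Vc i) (Wc i) (∑ i' ∈ (Finset.range N).filter (fun i' => i < i'),
      4 / (finrank K (M₂ (lv i')) : ℝ)) (1 / (finrank K (M₂ (lv i)) : ℝ)) (max (KL (lv i)) 0)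
      (Finset.sum_nonneg fun i' _ => by have := hdp (lv i'); positivity)
      (by have := hdp (lv i); positivity) (le_max_right _ _) (hTail i)
      ((hKL (lv i)).mono (le_max_left _ _)) (hsub (lv i)) (9 * Tb i) (Tb i) r (by have := hTb1 i; omega) (hTb1 i) (δ' / (3 * N))
      (by positivity)
    filter_upwards [h1] with X hX
    refine hX.trans (mul_le_mul_of_nonneg_right ?_ ?_)
    · have h2 := hρ1 i hi
      have h3 := hTb2 i
      calc _ = C₀ * ((∑ i' ∈ (Finset.range N).filter (fun i' => i < i'),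
              4 / (finrank K (M₂ (lv i')) : ℝ)) *
              (Real.log (4 * ((9 * Tb i : ℕ) : ℝ)) + 2)) +
            C₀ * ((p : ℝ) ^ r * Real.exp (max (KL (lv i)) 0) *
              (4 / (Tb i : ℝ)) ^ (1 / (finrank K (M₂ (lv i)) : ℝ) / 2)) + δ' / (3 * N) := by
            ring
        _ ≤ δ' / (3 * N) + δ' / (3 * N) + δ' / (3 * N) := by gcongr
        _ = δ' / N := by field_simp; ring
    · unfold cV; positivity
  have hEx2 : ∀ᶠ X : ℝ in Filter.atTop,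
      cV f (BSet p K ε ∩ A ∩ {c | ∃ i < N, c ∈ Exc i}) X ≤ δ' * cV f (BSet p K ε ∩ A) X := by
    have h1 : ∀ᶠ X : ℝ in Filter.atTop, ∀ i ∈ Finset.range N,
        cV f (BSet p K ε ∩ A ∩ Exc i) X ≤ δ' / N * cV f (BSet p K ε ∩ A) X := by
      rw [Filter.eventually_all_finset]
      exact fun i hi => hEx1 i (Finset.mem_range.1 hi)
    filter_upwards [h1] with X hX
    refine (cV_un f _ X N Exc).trans ((Finset.sum_le_sum hX).trans (le_of_eq ?_))
    rw [Finset.sum_const, Finset.card_range, nsmul_eq_mul]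
    field_simp
  -- the base for all the levels
  obtain ⟨B, D, g, K₀, hSB, hslow, hE⟩ := hAL lv hlvf S
  have hfinal := hC' p L K M K₁ M₁ ε δ P (hs 0).sit B g K₀ hslow
    (θ ^ N + 2 * N * (1 / (Fintype.card (AdjoinRoot P) : ℝ)) ^ r) (2 * N) δ' (by positivity)
    (by positivity) hδ'0.le S A
    {c | ∀ n, n₀ ≤ n → c ∈ BdX T P δ ε (a₀ n)} {c | ∃ i < N, c ∈ Exc i} f hSB hA hne hf
    ⟨Xd, hXd, fun X hX => (hdbl X hX).trans (mul_le_mul_of_nonneg_right (le_max_left _ _)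
      (by unfold cV; positivity))⟩ hEx2 (by
    intro aτ haτ _
    obtain ⟨n, E, ψ, Lk, Cs, Mc, K', c, X₁, hc, hH, hr1, hrθ, hlow⟩ := hE aτ haτ
    obtain ⟨Kc, c', X₁', hc', hana⟩ := anhG B (E 0).toTauF (Spl (M₂ (lv 0)) B.S) (D 0).s0 aτ
      (fun _ => False) ψ g (K' 0) (HypW.of_hyp₀ _ (hH 0).toHyp₃.toHyp₀) K₀ hslow c X₁ hc hlow 0
      le_rfl (by
        intro w hw ε' hε'
        refine ⟨1, fun X hX Q => ?_⟩
        have hX0 : (0 : ℝ) ≤ X := by linarith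
        have hg := hslow.one X
        have h1 : 0 ≤ ε' * (X * g X) := by positivity
        simpa using h1)
    have hmU : ∀ i, MerU (Vc i) (∑ i' ∈ (Finset.range N).filter (fun i' => i < i'),
        1 / (finrank K (M₂ (lv i')) : ℝ))
        (∑ i' ∈ (Finset.range N).filter (fun i' => i < i'), KU (lv i')) :=
      fun i => merU_un _ _ _ _ (fun i' _ => hKU (lv i'))
    have hVV : ∀ i (q : B.LP),
        VU (fun i => sysB B (E i).toTauF (Spl (M₂ (lv i)) B.S) (D i).s0 aτ) N i q →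
        q.1.1 ∈ Vc i := by
      rintro i q ⟨i', h1, h2, h3⟩
      refine ⟨i', Finset.mem_filter.2 ⟨Finset.mem_range.2 h2, h1⟩, ?_⟩
      exact ⟨Finset.notMem_empty _, h3.2⟩
    have hMW : ∀ i < N, MW (sysB B (E i).toTauF (Spl (M₂ (lv i)) B.S) (D i).s0 aτ)
        (VU (fun i => sysB B (E i).toTauF (Spl (M₂ (lv i)) B.S) (D i).s0 aτ) N i) θ
        (3 * Tb i) r g := by
      intro i hi
      have hT3 : 1 ≤ 3 * Tb i := by have := hTb1 i; omega
      have hspr := spr_lab B (E i).toTauF (Spl (M₂ (lv i)) B.S) (D i).s0 aτ (Vc i) _ _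
        (Finset.sum_nonneg fun i' _ => by have := hdp (lv i'); positivity) (hmU i) _ (hVV i)
      rcases hrθ i with h | ⟨⟨ψ₁, K₂, h1⟩, hmN, h2⟩
      · exact mw_of_mtg Pool.Agent.Helper38.TH.mtg (hH i) hspr (hρ2 i hi) hr1 h r hT3
      · exact mw_of_mtg1V hM1 (hH i) h1 hmN hspr (hρ2 i hi) hr1 h2 r hT3
    have hchain := chainW p B.LP (HeightOneSpectrum (𝓞 K)) (AdjoinRoot P)
      (Fin B.r → AdjoinRoot P) (Fin n → AdjoinRoot P) (Fin B.t → ZMod p) N
      (fun i => sysB B (E i).toTauF (Spl (M₂ (lv i)) B.S) (D i).s0 aτ) g hslow.one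
      ⟨fun _ => rfl, fun _ => rfl, fun _ => rfl, fun _ => rfl, fun _ => rfl⟩ θ hθ0 hθ1.le
      (fun i => 3 * Tb i) (fun _ => r) hMW
    have hrel : ∀ i, ∃ X₀ : ℝ, ∀ X : ℝ, X₀ ≤ X → ∀ a : K₁ˣ, OmType p K ε (a : K₁) →
        LocS p (up K₁ B.S) (a / aτ) →
        ExX (sysB B (E i).toTauF (Spl (M₂ (lv i)) B.S) (D i).s0 aτ)
          (VU (fun i => sysB B (E i).toTauF (Spl (M₂ (lv i)) B.S) (D i).s0 aτ) N i)
          (3 * Tb i) r (lg X) (B.lab a) →
        √X ≤ (sysB B (E i).toTauF (Spl (M₂ (lv i)) B.S) (D i).s0 aτ).nm (B.lab a) →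
        ((sysB B (E i).toTauF (Spl (M₂ (lv i)) B.S) (D i).s0 aτ).nm (B.lab a) : ℝ) ≤ X ^ 2 →
        clp p a ∈ ExC (Vc i) (Wc i) (9 * Tb i) (Tb i) r f := fun i =>
      hREL Pool.Agent.Helper91.PW.w_cnd p L K M K₁ M₁ ε δ P (hs 0).sit B n (E i).toTauF
        (Spl (M₂ (lv i)) B.S) (D i).s0 aτ haτ S f hSB hf _ (Vc i) (Wc i) (Tb i) r (hTb1 i)
        (hVV i) (fun v hv hvS => ⟨hvS, hv.2⟩)
    choose Xr hXr using hrel
    refine ⟨n, (E 0).toTauF, Spl (M₂ (lv 0)) B.S, (D 0).s0,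
      fun b => ∀ i < N, (sysB B (E i).toTauF (Spl (M₂ (lv i)) B.S) (D i).s0 aτ).Bad b,
      fun X b => ∃ i < N, ExX (sysB B (E i).toTauF (Spl (M₂ (lv i)) B.S) (D i).s0 aτ)
          (VU (fun i => sysB B (E i).toTauF (Spl (M₂ (lv i)) B.S) (D i).s0 aτ) N i)
          (3 * Tb i) r (lg X) b, Kc, c', X₁', hc', hana.1, hana.2.1, ?_, ?_, ?_⟩
    · intro ε' hε'
      obtain ⟨X₀, hX₀⟩ := hchain ε' hε'
      refine ⟨X₀, fun X hX Pf => ?_⟩
      have h1 := hX₀ X hX Pf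
      exact chain_sum Pf.powerset
        (sysB B (E 0).toTauF (Spl (M₂ (lv 0)) B.S) (D 0).s0 aτ).Fam
        (fun b => Real.exp
          (-((sysB B (E 0).toTauF (Spl (M₂ (lv 0)) B.S) (D 0).s0 aτ).nm b / X)))
        (fun b => (Real.exp_pos _).le)
        (fun b => ∀ i < N, (sysB B (E i).toTauF (Spl (M₂ (lv i)) B.S) (D i).s0 aτ).Bad b)
        (fun b => ∃ i < N, ExX (sysB B (E i).toTauF (Spl (M₂ (lv i)) B.S) (D i).s0 aτ)
          (VU (fun i => sysB B (E i).toTauF (Spl (M₂ (lv i)) B.S) (D i).s0 aτ) N i)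
          (3 * Tb i) r (lg X) b)
        (fun i b => ExX (sysB B (E i).toTauF (Spl (M₂ (lv i)) B.S) (D i).s0 aτ)
          (VU (fun i => sysB B (E i).toTauF (Spl (M₂ (lv i)) B.S) (D i).s0 aτ) N i)
          (3 * Tb i) r (lg X) b) N (θ ^ N) ((1 / (Fintype.card (AdjoinRoot P) : ℝ)) ^ r)
        (ε' * (X * g X)) (fun i hi b hb => ⟨i, hi, hb⟩)
        ((le_of_eq (sum_dec _ _ _ _ _)).trans h1)
    · intro a hcl ha hl i _
      exact selX_bad hSEL (hs (lv i)) T B (D i) aτ haτ n (E i) a (hcl (lv i) (hlv0 i)) ha hl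
    · refine ⟨∑ i ∈ Finset.range N, |Xr i|, fun X hX a ha hl ⟨i, hi, hex⟩ h1 h2 => ?_⟩
      exact ⟨i, hi, hXr i X (((le_abs_self _).trans (Finset.single_le_sum
        (f := fun i => |Xr i|) (fun i _ => abs_nonneg _) (Finset.mem_range.2 hi))).trans hX)
        a ha hl hex h1 h2⟩) (η / 4) (by positivity)
  filter_upwards [hfinal] with X hX
  refine hX.trans (mul_le_mul_of_nonneg_right ?_ (by unfold cV; positivity))
  have e1 : C' * (2 * N * δ') = η / 4 := by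
    rw [hδ']
    field_simp
    norm_num
  calc _ = C' * θ ^ N + C' * (2 * N) * (1 / (Fintype.card (AdjoinRoot P) : ℝ)) ^ r +
        C' * (2 * N * δ') + η / 4 := by ring
    _ ≤ η / 4 + η / 4 + η / 4 + η / 4 := by rw [e1]; gcongr
    _ = 0 + η := by ring

end Pool.Agent.Helper42.TH
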