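import Pool.Agent.Helper42.TH.DenZ

/-!
# Project TH: `WOUT`
-/

set_option autoImplicit false

namespace Pool.Agent.Helper42.TH

open NumberField Polynomial Module IsDedekindDomain TensorProduct Pool.Agent.Helper51.SigLeo
open Pool.Agent.Helper38.FD (Chr CutsOut LeopoldtFor IsOrdinary isGalois_of_cutsOut)
open Pool.Agent.Helper38.FW (IsOmega OmegaAt AllChr IsLocal IsWeight tame countChr tame_eq
  allChr_eq sameAt_iff cntE condP LocE)
open Pool.Agent.Helper77.PPB (ChN)
open Pool.Agent.Helper42.PW (LocC)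
open Pool.Agent.Helper38.WY (GoodX)
open Pool.Agent.Helper38.FY (BaseChr isOmega_iff chr_pow_one)
open Pool.Agent.Helper38.TH

theorem wout (hG : AL_GEN) (hSD : AL_SD) (hO : AL_ONE) (hM1 : MTG1V) (hCLB : CLB) (hEXA : EXA)
    (hREL : T_REL) : WOUT := by
  intro p hpF K _ _ ιinf ιp L D hom η hη A hA e he n₀ ε hε
  obtain ⟨χ, ψ, M, F, s, hκ, hfM, hM, hc, hF, hs⟩ :=
    Pool.Agent.Helper96.FY.n_dcp p K D.κ D.H D.finite D.cutsOut
  have homχ : ¬ IsOmega χ := by
    intro h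
    apply hom
    have h1 := (isOmega_iff hM hF hs 1).2 (by rw [chr_pow_one]; exact h)
    rw [chr_pow_one, ← hκ] at h1
    exact h1
  have hA' : LocC p K A := ⟨allChr_eq (p := p) (K := K) ▸ hA.subset, hA.nonempty,
    fun x hx y hy hxy ↦ hA.same x hx y (by rw [allChr_eq]; exact hy) ((sameAt_iff _ _).1 hxy)⟩
  have he' : LocE p K e := ⟨he.one_le, fun x hx y hy hxy ↦ he.same x
    (by rw [allChr_eq]; exact hx) y (by rw [allChr_eq]; exact hy) ((sameAt_iff _ _).1 hxy)⟩
  have hcnt : ∀ B X, countChr e B X = cntE e B X := fun B X ↦ by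
    unfold countChr cntE
    simp only [tame_eq]
  have hfin : ∀ X : ℕ, {x | x ∈ AllChr p K ∧ tame p K x.1 * e x ≤ X}.Finite :=
    (Pool.Agent.Helper38.FY.main_y p K ιinf ιp L Unit (fun _ => D) A hA e he).1
  have h := denZ hG hSD hO hM1 hCLB hEXA hREL p K ιinf ιp L D.S D.isCMType D.isOrdinary M F χ ψ
    hM hc homχ hF hs η hη (max n₀ (s + 2)) (le_max_right _ _) A hA' e he' ε hε
  filter_upwards [h] with X hX
  rw [← hcnt, ← hcnt] at hX
  refine le_trans ?_ hX
  unfold countChr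
  refine Nat.cast_le.2 (Set.ncard_le_ncard ?_ ((hfin X).subset ?_))
  · rintro x ⟨⟨hx, hb⟩, hxX⟩
    refine ⟨⟨hx, fun l hl => ?_⟩, hxX⟩
    have h1 := hl 0 1 (by
      have := hpF.out.one_lt
      exact Nat.not_dvd_of_pos_of_lt one_pos this)
    refine hb (max n₀ (s + 2) + l) ((le_max_left _ _).trans (Nat.le_add_right _ _)) ?_
    have h2 : D.κ * x.2 * η (max n₀ (s + 2) + l) =
        χ ^ p ^ 0 * (ψ * η (max n₀ (s + 2) + l) * x.2) ^ 1 := by
      rw [hκ]
      refine MonoidHom.ext fun g => ?_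
      simp only [MonoidHom.mul_apply, MonoidHom.pow_apply, pow_zero, pow_one]
      rw [mul_assoc, mul_assoc, mul_assoc]
      congr 2
      rw [mul_comm]
    rw [h2]
    exact h1
  · rintro x ⟨⟨hx, -⟩, hxX⟩
    exact ⟨hA.subset hx, hxX⟩

end Pool.Agent.Helper42.TH
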